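import Pool.Agent.H62.Chain.Forms

/-!
# Curves in the degenerate system
-/

open Polynomial Topology Filter

namespace Pool.Agent.H62.Chain

open Pool.Agent.H17 Pool.Agent.H17.EntFun Pool.Agent.H92.GGL Pool.Agent.H79.Log Pool.Agent.H62.Log

variable {n c m a b s : ℕ} {d : Fin c → ℕ} {δ : Fin m → ℕ}

/-- The number of linear factors without zeros which come from the boundary components outside
`S` and from the equations assigned to them. -/
def unitCount (d : Fin c → ℕ) (δ : Fin m → ℕ) (role : Fin c → Role a b s m)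
    (brole : Fin m → Option (Fin s)) (S : Finset (Fin m)) : ℕ :=
  ∑ j with brole j = none ∧ j ∉ S, (δ j + ∑ l with role l = .boundary j, (d l - 1))

/-- The numerical condition. -/
def NumCond (n : ℕ) (d : Fin c → ℕ) (δ : Fin m → ℕ) (role : Fin c → Role a b s m)
    (brole : Fin m → Option (Fin s)) (r : Fin s → ℕ) : Prop :=
  ∀ k, 1 ≤ k → k ≤ n → (∀ q, k + r q ≤ n) →
    (∀ (S : Finset (Fin m)) (p y u : ℕ), (∀ j ∈ S, brole j = none) →
      p + y + u = (Finset.univ.filter fun l => role l = .cycle).card → (y = 0 ∨ 0 < p + S.card) →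
      (k + 1) * (n - k) < cycleCost k (p + S.card) y (u + unitCount d δ role brole S) +
        (k * a + (k + 1) * b + k * ∑ q, r q)) ∧
    ((∀ j, brole j ≠ none) → (k + 1) * (n - k) <
      ((Finset.univ.filter fun l => role l = .cycle).card - k) +
        (k * a + (k + 1) * b + k * ∑ q, r q))

/-- The vertices of the cycle. -/
abbrev Vtx (role : Fin c → Role a b s m) (brole : Fin m → Option (Fin s)) : Type :=
  {l // role l = .cycle} ⊕ {j // brole j = none}

/-- The linear form of a vertex. -/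
def vForm (role : Fin c → Role a b s m) (brole : Fin m → Option (Fin s)) (hd : ∀ l, 1 ≤ d l)
    (hδ : ∀ j, 1 ≤ δ j) : Vtx role brole → LIdx d δ :=
  Sum.elim (fun l => Sum.inr ⟨l.1, ⟨0, hd l.1⟩⟩) fun j => Sum.inl ⟨j.1, ⟨0, hδ j.1⟩⟩

open Classical in
/-- The linear form of the next vertex. -/
noncomputable def nxtF (role : Fin c → Role a b s m) (brole : Fin m → Option (Fin s))
    (hd : ∀ l, 1 ≤ d l) (hδ : ∀ j, 1 ≤ δ j) (σ : Vtx role brole → Vtx role brole)
    (M : LIdx d δ → Fin (n + 1) → ℂ) (l : Fin c) : Fin (n + 1) → ℂ :=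
  if h : role l = .cycle then M (vForm role brole hd hδ (σ (Sum.inl ⟨l, h⟩))) else 0

lemma nxtF_of {role : Fin c → Role a b s m} {brole : Fin m → Option (Fin s)}
    (hd : ∀ l, 1 ≤ d l) (hδ : ∀ j, 1 ≤ δ j) (σ : Vtx role brole → Vtx role brole)
    (M : LIdx d δ → Fin (n + 1) → ℂ) {l : Fin c} (h : role l = .cycle) :
    nxtF role brole hd hδ σ M l = M (vForm role brole hd hδ (σ (Sum.inl ⟨l, h⟩))) := by
  unfold nxtF
  rw [dif_pos h]

lemma aeval_const {N : ℕ} (x : Fin (N + 1) → EntFun) (P : MvPolynomial (Fin (N + 1)) ℂ) (w : ℂ) :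
    MvPolynomial.aeval (fun i => algebraMap ℂ EntFun ((x i : ℂ → ℂ) w)) P =
      algebraMap ℂ EntFun (((MvPolynomial.aeval x P : EntFun) : ℂ → ℂ) w) := by
  rw [eval_apply_eq]
  have h1 := MvPolynomial.aeval_algebraMap_apply EntFun (fun i => (x i : ℂ → ℂ) w) P
  rw [MvPolynomial.aeval_eq_eval] at h1
  exact h1

/-- **Curves in the degenerate system are constant.** -/
theorem incHyp_zero (role : Fin c → Role a b s m) (brole : Fin m → Option (Fin s))
    (hbd : ∀ l j, role l = .boundary j → brole j = none) (r : Fin s → ℕ)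
    (hd : ∀ l, 1 ≤ d l) (hδ : ∀ j, 1 ≤ δ j) (hnum : NumCond n d δ role brole r)
    {z : Entry₂ (rk a b r) n (LIdx d δ) → ℂ} (hz : AlgebraicIndependent ℚ z)
    (σ : Vtx role brole → Vtx role brole) (hinj : Function.Injective σ)
    (horb : ∀ i j, ∃ s, σ^[s] i = j)
    {Gb : Fin c → MvPolynomial (Fin (n + c + 1)) ℂ} {Hb : Fin m → MvPolynomial (Fin (n + c + 1)) ℂ}
    (hGb : ∀ l, (Gb l).IsHomogeneous (d l)) (hHb : ∀ j, (Hb j).IsHomogeneous (δ j))
    (hcert : ∀ x : Fin (n + c + 1) → EntFun,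
        (∀ l, role l ≠ .cycle → (∀ j, role l ≠ .boundary j) → MvPolynomial.aeval x (Gb l) = 0) →
        (∀ j, brole j ≠ none → MvPolynomial.aeval x (Hb j) = (0 : EntFun) ∨
          ∀ w, ((MvPolynomial.aeval x (Hb j) : EntFun) : ℂ → ℂ) w ≠ 0) →
        (∀ q, BlockLeft (fun e => z (Sum.inl e)) (Sum.inl q) (fun k => x (xIdx k)) ∨
          BlockRight (fun e => z (Sum.inl e)) (Sum.inl q) (fun k => x (xIdx k))) ∧
        (∀ q, BlockLeft (fun e => z (Sum.inl e)) (Sum.inr q) (fun k => x (xIdx k))) ∧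
        ∀ v : EntFun, (∀ k, ∃ a : ℂ, x (xIdx k) = algebraMap ℂ EntFun a * v) →
          ∀ l, role l ≠ .cycle → (∀ j, role l ≠ .boundary j) →
            ∃ b : ℂ, x (wIdx l) = algebraMap ℂ EntFun b * v)
    (S : Finset (Fin m)) (hS : ∀ j ∈ S, brole j = none) (t : ∀ j, Fin (δ j)) :
    IncHyp (ClF role hd hδ (fun b k => z (Sum.inr (b, k)))
        (nxtF role brole hd hδ σ fun b k => z (Sum.inr (b, k))) Gb S t 0)
      (IncA role brole hd (fun b k => z (Sum.inr (b, k))) Hb S)
      (IncB d δ (nxtF role brole hd hδ σ fun b k => z (Sum.inr (b, k)))) := by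
  classical
  set M : LIdx d δ → Fin (n + 1) → ℂ := fun b k => z (Sum.inr (b, k)) with hM
  set nxt := nxtF role brole hd hδ σ M with hnxt
  intro f hf hfX hfI w₁ w₂
  obtain ⟨x, hx⟩ := exists_global_lift hf
  have hrel := aeval_eq_zero_of_mem (ClF_isHomogeneous role hd hδ M nxt hGb S t 0) hx hfX
  have hI := (inc_lift (IncA_isHomogeneous role brole hd M hHb S) (IncB_isHomogeneous d δ nxt)
    hx).mp hfI
  set x' : Fin (n + 1) → EntFun := fun k => x (xIdx k) with hx'
  -- the equations of the blocks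
  have e1 : ∀ l, role l ≠ .cycle → (∀ j, role l ≠ .boundary j) →
      MvPolynomial.aeval x (Gb l) = 0 := by
    intro l h1 h2
    have h3 := hrel (Sum.inl l)
    unfold ClF at h3
    rw [Sum.elim_inl, Gf_block role hd hδ M nxt Gb 0 h1 h2] at h3
    exact h3
  have e1' : ∀ j, brole j ≠ none → MvPolynomial.aeval x (Hb j) = (0 : EntFun) ∨
      ∀ w, ((MvPolynomial.aeval x (Hb j) : EntFun) : ℂ → ℂ) w ≠ 0 := by
    intro j hj
    have h1 := hI (Sum.inr (Sum.inr j))
    unfold IncA IncB at h1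
    simp only [Sum.elim_inr, if_neg hj] at h1
    refine h1.imp id fun h2 w hw => ?_
    have h3 := h2 w hw
    rw [map_one] at h3
    exact one_ne_zero h3
  -- the equations assigned to the boundary
  have e2 : ∀ l, ∃ T : Fin (d l), (role l = .cycle → T = ⟨0, hd l⟩) ∧
      ((∃ j, role l = .boundary j) → x (wIdx l) = linE (M (Sum.inr ⟨l, T⟩)) x') := by
    intro l
    by_cases hl : ∃ j, role l = .boundary j
    · obtain ⟨j, hj⟩ := hl
      have h1 := hrel (Sum.inl l)
      unfold ClF at h1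
      rw [Sum.elim_inl, Gf_boundary role hd hδ M nxt Gb 0 hj] at h1
      unfold asgForm prodForm at h1
      rw [map_zero, zero_mul, add_zero, map_prod] at h1
      obtain ⟨T, -, hT⟩ := Finset.prod_eq_zero_iff.mp h1
      rw [aeval_factForm, sub_eq_zero] at hT
      exact ⟨T, fun h => by rw [hj] at h; exact absurd h (by simp), fun _ => hT⟩
    · exact ⟨⟨0, hd l⟩, fun _ => rfl, fun h => absurd h hl⟩
  choose T hT0 hT using e2
  -- the equations of the cycle
  have e3 : ∀ l, role l = .cycle →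
      (x (wIdx l) = linE (M (Sum.inr ⟨l, ⟨0, hd l⟩⟩)) x' ∨
        x (wIdx l) = -linE (M (Sum.inr ⟨l, ⟨0, hd l⟩⟩)) x') ∧
      (linE (M (Sum.inr ⟨l, ⟨0, hd l⟩⟩)) x' = 0 ∨
        ∀ w, (linE (M (Sum.inr ⟨l, ⟨0, hd l⟩⟩)) x' : ℂ → ℂ) w = 0 →
          (linE (nxt l) x' : ℂ → ℂ) w = 0) := by
    intro l hl
    have h1 := hrel (Sum.inl l)
    unfold ClF at h1
    rw [Sum.elim_inl, Gf_cycle role hd hδ M nxt Gb 0 hl] at h1
    unfold cycForm at h1
    rw [map_zero, zero_mul, add_zero, map_mul, map_pow] at h1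
    have h2 : ∀ y : EntFun, 2 * y = 0 → y = 0 := by
      intro y hy
      ext w
      rw [two_mul] at hy
      have h := congrArg (ev w) hy
      rw [map_add, map_zero, ← two_mul] at h
      exact (mul_eq_zero.mp h).resolve_left two_ne_zero
    rcases mul_eq_zero.mp h1 with h3 | h3
    · have h4 := eq_zero_of_pow_eq_zero h3
      rw [aeval_factForm, sub_eq_zero] at h4
      refine ⟨Or.inl h4, ?_⟩
      have h5 := hI (Sum.inl (l, false))
      unfold IncA IncB at h5
      simp only [Sum.elim_inl, if_pos hl, Bool.false_eq_true, if_false] at h5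
      rw [map_add, MvPolynomial.aeval_X, aeval_baseLin, aeval_baseLin, h4, ← two_mul] at h5
      rcases h5 with h6 | h6
      · left
        exact h2 _ h6
      · right
        intro w hw
        refine h6 w ?_
        show 2 * (linE (M (Sum.inr ⟨l, ⟨0, hd l⟩⟩)) x' : ℂ → ℂ) w = 0
        rw [hw, mul_zero]
    · rw [map_add, MvPolynomial.aeval_X, aeval_baseLin] at h3
      have h4 := eq_neg_of_add_eq_zero_left h3
      refine ⟨Or.inr h4, ?_⟩
      have h5 := hI (Sum.inl (l, true))
      unfold IncA IncB at h5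
      simp only [Sum.elim_inl, if_pos hl, if_true] at h5
      rw [aeval_factForm, aeval_baseLin, h4] at h5
      have h7 : -(linE (M (Sum.inr ⟨l, ⟨0, hd l⟩⟩)) fun k => x (xIdx k)) -
          (linE (M (Sum.inr ⟨l, ⟨0, hd l⟩⟩)) fun k => x (xIdx k)) =
          -(2 * (linE (M (Sum.inr ⟨l, ⟨0, hd l⟩⟩)) fun k => x (xIdx k))) := by ring
      rw [h7] at h5
      rcases h5 with h6 | h6
      · left
        exact h2 _ (neg_eq_zero.mp h6)
      · right
        intro w hw
        refine h6 w ?_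
        show -(2 * (linE (M (Sum.inr ⟨l, ⟨0, hd l⟩⟩)) x' : ℂ → ℂ) w) = 0
        rw [hw, mul_zero, neg_zero]
  obtain ⟨hspec, hsys, hprop⟩ := hcert x e1 e1'
  -- the boundary components which contain the curve
  set R : Finset (Fin m) := Finset.univ.filter fun j => brole j = none ∧
    ∃ i, linE (M (Sum.inl ⟨j, i⟩)) x' = 0 with hR
  have hRnone : ∀ j ∈ R, brole j = none := fun j hj => (Finset.mem_filter.mp hj).2.1
  have ht' : ∀ j, ∃ i : Fin (δ j), j ∈ R → linE (M (Sum.inl ⟨j, i⟩)) x' = 0 := by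
    intro j
    by_cases hj : j ∈ R
    · obtain ⟨i, hi⟩ := (Finset.mem_filter.mp hj).2.2
      exact ⟨i, fun _ => hi⟩
    · exact ⟨⟨0, hδ j⟩, fun h => absurd h hj⟩
  choose t' ht' using ht'
  have hSR : ∀ j ∈ S, j ∈ R := by
    intro j hj
    refine Finset.mem_filter.mpr ⟨Finset.mem_univ _, hS j hj, t j, ?_⟩
    have h1 := hrel (Sum.inr j)
    unfold ClF at h1
    rw [Sum.elim_inr, if_pos hj, aeval_baseLin] at h1
    exact h1
  have hone : ∀ y : EntFun, (y = 0 ∨ ∀ w, (y : ℂ → ℂ) w = 0 →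
      ((1 : EntFun) : ℂ → ℂ) w = 0) → y = 0 ∨ ∀ w, (y : ℂ → ℂ) w ≠ 0 := by
    intro y hy
    exact hy.imp id fun h w hw => one_ne_zero (h w hw)
  have hunit : ∀ j, brole j = none → j ∉ R → ∀ i w,
      (linE (M (Sum.inl ⟨j, i⟩)) x' : ℂ → ℂ) w ≠ 0 := by
    intro j hj hjR i
    have h1 := hI (Sum.inr (Sum.inl (Sum.inl ⟨j, i⟩)))
    unfold IncA IncB at h1
    simp only [Sum.elim_inl, Sum.elim_inr] at h1
    rw [if_pos ⟨hj, fun h => hjR (hSR j h)⟩, aeval_baseLin, map_one] at h1
    exact (hone _ h1).resolve_left fun h0 => hjR (Finset.mem_filter.mpr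
      ⟨Finset.mem_univ _, hj, i, h0⟩)
  -- the base vector has no zeros
  have hx0 : ∀ w, valAt x' w ≠ 0 := by
    intro w hw
    have hw' : ∀ k, (x (xIdx k) : ℂ → ℂ) w = 0 := fun k => congrFun hw k
    have hlin : ∀ μ : Fin (n + 1) → ℂ, (linE μ x' : ℂ → ℂ) w = 0 := by
      intro μ
      rw [linE_apply, hw, map_zero]
    obtain ⟨-, -, hp⟩ := hcert (fun i => algebraMap ℂ EntFun ((x i : ℂ → ℂ) w)) (fun l h1 h2 => by
      rw [aeval_const, e1 l h1 h2]
      exact map_zero _) (fun j hj => by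
      rw [aeval_const]
      rcases e1' j hj with h1 | h1
      · left
        rw [h1]
        exact map_zero _
      · right
        intro w'
        exact h1 w)
    obtain ⟨h2, -⟩ := hx w
    apply h2
    funext j
    rcases idx_cases' j with ⟨i, rfl⟩ | ⟨l, rfl⟩
    · exact hw' i
    · by_cases hl : role l = .cycle
      · show (x (wIdx l) : ℂ → ℂ) w = 0
        rcases (e3 l hl).1 with h1 | h1
        · rw [h1]
          exact hlin _
        · rw [h1]
          show -(linE (M (Sum.inr ⟨l, ⟨0, hd l⟩⟩)) x' : ℂ → ℂ) w = 0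
          rw [hlin, neg_zero]
      by_cases hl' : ∃ j, role l = .boundary j
      · show (x (wIdx l) : ℂ → ℂ) w = 0
        rw [hT l hl']
        exact hlin _
      · push Not at hl'
        obtain ⟨e, he⟩ := hp 0 (fun k => ⟨0, by rw [hw' k, map_zero, zero_mul]⟩) l hl hl'
        rw [mul_zero] at he
        exact (map_eq_zero_iff _ (FaithfulSMul.algebraMap_injective ℂ EntFun)).mp he
  -- the general position
  set z' : Entry₂ (rk a b r) n (LIdx d δ) → ℂ := Sum.elim (fun e => z (Sum.inl e))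
    (fun p => shiftM M T p.1 p.2) with hz'
  have hz'i : AlgebraicIndependent ℚ z' := shift_algebraicIndependent hz T
  have hshl : ∀ b : Σ j : Fin m, Fin (δ j), (fun k => z' (Sum.inr (Sum.inl b, k))) =
      M (Sum.inl b) := fun b => rfl
  have hshc : ∀ l, role l = .cycle → (fun k => z' (Sum.inr (Sum.inr ⟨l, ⟨0, hd l⟩⟩, k))) =
      M (Sum.inr ⟨l, ⟨0, hd l⟩⟩) := by
    intro l hl
    funext k
    simp only [hz', Sum.elim_inr, shiftM, hT0 l hl, if_true]
  have hshb : ∀ l i, i ≠ T l → (fun k => z' (Sum.inr (Sum.inr ⟨l, i⟩, k))) =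
      fun k => M (Sum.inr ⟨l, T l⟩) k - M (Sum.inr ⟨l, i⟩) k := by
    intro l i hi
    funext k
    simp only [hz', Sum.elim_inr, shiftM, if_neg hi]
  have hvs : ∀ v : Vtx role brole, (fun k => z' (Sum.inr (vForm role brole hd hδ v, k))) =
      M (vForm role brole hd hδ v) := by
    rintro (⟨l, hl⟩ | j)
    · exact hshc l hl
    · rfl
  set C : Finset (Vtx role brole) := Finset.univ.map Function.Embedding.inl with hC
  set S' : Finset (Vtx role brole) := (Finset.univ.filter fun j : {j // brole j = none} =>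
    j.1 ∈ R).map Function.Embedding.inr with hS'
  have hCmem : ∀ v, v ∈ C ↔ ∃ l, v = Sum.inl l := by
    intro v
    rw [hC, Finset.mem_map]
    constructor
    · rintro ⟨l, -, rfl⟩
      exact ⟨l, rfl⟩
    · rintro ⟨l, rfl⟩
      exact ⟨l, Finset.mem_univ _, rfl⟩
  have hS'mem : ∀ v, v ∈ S' ↔ ∃ j : {j // brole j = none}, j.1 ∈ R ∧ v = Sum.inr j := by
    intro v
    rw [hS', Finset.mem_map]
    constructor
    · rintro ⟨j, hj, rfl⟩
      exact ⟨j, (Finset.mem_filter.mp hj).2, rfl⟩
    · rintro ⟨j, hj, rfl⟩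
      exact ⟨j, Finset.mem_filter.mpr ⟨Finset.mem_univ _, hj⟩, rfl⟩
  have hCcard : C.card = (Finset.univ.filter fun l => role l = .cycle).card := by
    rw [hC, Finset.card_map, Finset.card_univ, Fintype.card_subtype]
  have hS'card : S'.card = R.card := by
    rw [hS', Finset.card_map]
    refine Finset.card_bij (fun j _ => j.1) (fun j hj => (Finset.mem_filter.mp hj).2)
      (fun j _ j' _ h => Subtype.ext h) (fun j hj => ⟨⟨j, hRnone j hj⟩, ?_, rfl⟩)
    exact Finset.mem_filter.mpr ⟨Finset.mem_univ _, hj⟩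
  set P₀ : Finset (LIdx d δ) := R.image fun j => Sum.inl ⟨j, t' j⟩ with hP₀
  set O₁ : Finset (Σ j : Fin m, Fin (δ j)) := Finset.univ.filter fun b =>
    brole b.1 = none ∧ b.1 ∉ R with hO₁
  set O₂ : Finset (Σ l : Fin c, Fin (d l)) := Finset.univ.filter fun b =>
    (∃ j, j ∉ R ∧ role b.1 = .boundary j) ∧ b.2 ≠ T b.1 with hO₂
  have hP₀card : P₀.card = R.card := by
    rw [hP₀, Finset.card_image_of_injective]
    intro j j' h
    exact (Sigma.mk.inj (Sum.inl.inj h)).1
  set F : Finset (Fin m) := Finset.univ.filter fun j => brole j = none ∧ j ∉ R with hF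
  have hO₁card : O₁.card = ∑ j ∈ F, δ j := by
    have h1 : O₁ = F.sigma fun _ => Finset.univ := by
      ext b
      constructor
      · intro h
        exact Finset.mem_sigma.mpr ⟨Finset.mem_filter.mpr ⟨Finset.mem_univ _,
          (Finset.mem_filter.mp h).2⟩, Finset.mem_univ _⟩
      · intro h
        exact Finset.mem_filter.mpr ⟨Finset.mem_univ _,
          (Finset.mem_filter.mp (Finset.mem_sigma.mp h).1).2⟩
    rw [h1, Finset.card_sigma]
    exact Finset.sum_congr rfl fun l _ => by rw [Finset.card_univ, Fintype.card_fin]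
  have hO₂card : O₂.card = ∑ j ∈ F, ∑ l with role l = .boundary j, (d l - 1) := by
    have h1 : O₂ = (F.biUnion fun j => Finset.univ.filter fun l => role l = .boundary j).sigma
        fun l => Finset.univ.erase (T l) := by
      ext b
      rw [hO₂, Finset.mem_filter, Finset.mem_sigma, Finset.mem_biUnion, Finset.mem_erase]
      simp only [Finset.mem_univ, true_and, and_true, hF, Finset.mem_filter]
      constructor
      · rintro ⟨⟨j, hj, h2⟩, h3⟩
        exact ⟨⟨j, ⟨hbd _ _ h2, hj⟩, h2⟩, h3⟩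
      · rintro ⟨⟨j, ⟨-, hj⟩, h2⟩, h3⟩
        exact ⟨⟨j, hj, h2⟩, h3⟩
    rw [h1, Finset.card_sigma, Finset.sum_biUnion]
    · refine Finset.sum_congr rfl fun j _ => Finset.sum_congr rfl fun l _ => ?_
      rw [Finset.card_erase_of_mem (Finset.mem_univ _), Finset.card_univ, Fintype.card_fin]
    · intro j _ j' _ hjj
      rw [Function.onFun, Finset.disjoint_left]
      intro l hl hl'
      apply hjj
      have h2 := (Finset.mem_filter.mp hl).2
      rw [(Finset.mem_filter.mp hl').2] at h2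
      exact (Role.boundary.inj h2).symm
  have hU₀card : (O₁.disjSum O₂).card = unitCount d δ role brole R := by
    unfold unitCount
    rw [Finset.card_disjSum, hO₁card, hO₂card, ← Finset.sum_add_distrib]
  have hcross : ∀ w w' k k', (x' k : ℂ → ℂ) w * (x' k' : ℂ → ℂ) w' =
      (x' k' : ℂ → ℂ) w * (x' k : ℂ → ℂ) w' := by
    intro w w' k k'
    refine cross_of_cycle hz'i x' hx0 σ hinj horb C S' ?_ (vForm role brole hd hδ) ?_ P₀
      (O₁.disjSum O₂) ?_ ?_ ?_ ?_ ?_ ?_ ?_ ?_ w w' k k'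
    · rw [Finset.disjoint_left]
      intro v hv hv'
      obtain ⟨l, rfl⟩ := (hCmem v).mp hv
      obtain ⟨j, -, h1⟩ := (hS'mem _).mp hv'
      exact absurd h1 (by simp)
    · intro v hv v' hv' h
      obtain ⟨l, rfl⟩ := (hCmem v).mp hv
      obtain ⟨l', rfl⟩ := (hCmem v').mp hv'
      have h1 := Sum.inr.inj h
      rw [Subtype.ext (Sigma.mk.inj h1).1]
    · rw [hS'card, hP₀card]
    · rw [Finset.disjoint_left]
      intro e he he'
      obtain ⟨j, hj, rfl⟩ := Finset.mem_image.mp he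
      rw [Finset.inl_mem_disjSum] at he'
      exact (Finset.mem_filter.mp he').2.2 hj
    · intro v hv hv'
      obtain ⟨l, rfl⟩ := (hCmem v).mp hv
      obtain ⟨j, -, h1⟩ := Finset.mem_image.mp hv'
      exact absurd h1 (by simp [vForm])
    · intro v hv hv'
      obtain ⟨⟨l, hl⟩, rfl⟩ := (hCmem v).mp hv
      have h1 : vForm role brole hd hδ (Sum.inl ⟨l, hl⟩) = Sum.inr ⟨l, ⟨0, hd l⟩⟩ := rfl
      rw [h1, Finset.inr_mem_disjSum] at hv'
      obtain ⟨-, ⟨j, -, h2⟩, -⟩ := Finset.mem_filter.mp hv'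
      rw [hl] at h2
      exact absurd h2 (by simp)
    · intro e he
      obtain ⟨j, hj, rfl⟩ := Finset.mem_image.mp he
      rw [hshl]
      exact ht' j hj
    · rintro (e | ⟨l, i⟩) he
      · rw [Finset.inl_mem_disjSum] at he
        rw [hshl]
        obtain ⟨-, h1, h2⟩ := Finset.mem_filter.mp he
        exact Or.inr (hunit e.1 h1 h2 e.2)
      · rw [Finset.inr_mem_disjSum] at he
        obtain ⟨-, ⟨j, hjR, hj⟩, hi⟩ := Finset.mem_filter.mp he
        rw [hshb l i hi, linE_sub]
        have h1 := hI (Sum.inr (Sum.inl (Sum.inr ⟨l, i⟩)))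
        unfold IncA IncB at h1
        simp only [Sum.elim_inl, Sum.elim_inr] at h1
        rw [if_pos ⟨j, fun h => hjR (hSR j h), hj⟩, aeval_factForm, hT l ⟨j, hj⟩, map_one] at h1
        exact hone _ h1
    · intro v hv
      obtain ⟨⟨l, hl⟩, rfl⟩ := (hCmem v).mp hv
      rw [hvs (Sum.inl ⟨l, hl⟩)]
      rcases (e3 l hl).2 with h1 | h1
      · exact Or.inl h1
      · right
        rw [hnxt, nxtF_of hd hδ σ M hl] at h1
        rcases hσl : σ (Sum.inl ⟨l, hl⟩) with l' | ⟨j, hj⟩
        · right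
          left
          refine ⟨(hCmem _).mpr ⟨l', rfl⟩, ?_⟩
          rw [hvs (Sum.inl l')]
          rw [hσl] at h1
          exact h1
        · by_cases hjR : j ∈ R
          · right
            right
            exact (hS'mem _).mpr ⟨⟨j, hj⟩, hjR, rfl⟩
          · left
            intro w hw
            rw [hσl] at h1
            exact hunit j hj hjR ⟨0, hδ j⟩ w (h1 w hw)
    · -- the numerical condition
      intro k hk1 hkn hkr
      obtain ⟨h1, h2⟩ := hnum k hk1 hkn fun q => hkr (Sum.inr q) (hsys q)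
      refine ⟨Sum.elim (Sum.elim (fun _ => k) fun _ => k + 1) fun q => k * r q, ?_, ?_, ?_⟩
      · rintro ((q | q) | q)
        · rcases hspec (Sum.inl q) with h3 | h3
          · exact Or.inl ⟨h3, by simp⟩
          · exact Or.inr ⟨h3, by simp⟩
        · rcases hspec (Sum.inr q) with h3 | h3
          · exact Or.inl ⟨h3, by simp only [Sum.elim_inl, Sum.elim_inr]; omega⟩
          · exact Or.inr ⟨h3, by simp⟩
        · exact Or.inl ⟨hsys q, by simp only [Sum.elim_inr]; rw [mul_comm]⟩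
      · intro p y u h3 h4
        have h5 := h1 R p y u hRnone (by rw [h3, hCcard]) (by rw [hS'card] at h4; exact h4)
        rw [hS'card, hU₀card, Fintype.sum_sum_type, Fintype.sum_sum_type]
        simp only [Sum.elim_inl, Sum.elim_inr, Finset.sum_const, Finset.card_univ,
          Fintype.card_fin, smul_eq_mul]
        rw [← Finset.mul_sum, mul_comm a k, mul_comm b (k + 1)]
        exact h5
      · rintro ⟨h3, -⟩
        have h4 : ∀ j, brole j ≠ none := by
          intro j hj
          have h5 : (Sum.inr ⟨j, hj⟩ : Vtx role brole) ∈ C := by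
            rw [h3]
            exact Finset.mem_univ _
          obtain ⟨l, h6⟩ := (hCmem _).mp h5
          exact absurd h6 (by simp)
        have h5 := h2 h4
        rw [hCcard, Fintype.sum_sum_type, Fintype.sum_sum_type]
        simp only [Sum.elim_inl, Sum.elim_inr, Finset.sum_const, Finset.card_univ,
          Fintype.card_fin, smul_eq_mul]
        rw [← Finset.mul_sum, mul_comm a k, mul_comm b (k + 1)]
        exact h5
  -- the other coordinates, if the base coordinates are proportional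
  have hrest : ∀ v : EntFun, (∀ k, ∃ a : ℂ, x (xIdx k) = algebraMap ℂ EntFun a * v) →
      ∀ l, ∃ b : ℂ, x (wIdx l) = algebraMap ℂ EntFun b * v := by
    intro v hv l
    by_cases hl : role l = .cycle
    · obtain ⟨e, he⟩ := exists_linE_eq (M (Sum.inr ⟨l, ⟨0, hd l⟩⟩)) hv
      rcases (e3 l hl).1 with h1 | h1
      · exact ⟨e, by rw [h1, ← he]⟩
      · refine ⟨-e, ?_⟩
        rw [h1, hx', he]
        ext w
        show -(e * (v : ℂ → ℂ) w) = -e * (v : ℂ → ℂ) w
        ring
    by_cases hl' : ∃ j, role l = .boundary j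
    · obtain ⟨e, he⟩ := exists_linE_eq (M (Sum.inr ⟨l, T l⟩)) hv
      exact ⟨e, by rw [hT l hl', ← he]⟩
    · push Not at hl'
      exact hprop v hv l hl hl'
  -- some base coordinate does not vanish identically
  obtain ⟨k₀, hk₀⟩ : ∃ k₀, (x (xIdx k₀) : ℂ → ℂ) 0 ≠ 0 := by
    by_contra hcon
    push Not at hcon
    exact hx0 0 (funext hcon)
  set v : EntFun := x (xIdx k₀) with hv
  have hxa : ∀ k, x (xIdx k) =
      algebraMap ℂ EntFun ((x (xIdx k) : ℂ → ℂ) 0 / (v : ℂ → ℂ) 0) * v := by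
    intro k
    ext w
    have h1 := hcross w 0 k k₀
    have h2 : ((algebraMap ℂ EntFun ((x (xIdx k) : ℂ → ℂ) 0 / (v : ℂ → ℂ) 0) * v : EntFun) :
        ℂ → ℂ) w = (x (xIdx k) : ℂ → ℂ) 0 / (v : ℂ → ℂ) 0 * (v : ℂ → ℂ) w := rfl
    rw [h2, div_mul_eq_mul_div, eq_div_iff hk₀]
    have h3 : (x (xIdx k) : ℂ → ℂ) w * (v : ℂ → ℂ) 0 = (v : ℂ → ℂ) w * (x (xIdx k) : ℂ → ℂ) 0 := h1
    linear_combination h3
  have hall : ∀ j, ∃ a : ℂ, x j = algebraMap ℂ EntFun a * v := by
    intro j
    rcases idx_cases' j with ⟨i, rfl⟩ | ⟨l, rfl⟩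
    · exact ⟨_, hxa i⟩
    · exact hrest v (fun k => ⟨_, hxa k⟩) l
  choose a' ha' using hall
  exact const_of_proportional hx ha' w₁ w₂

end Pool.Agent.H62.Chain
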