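import Pool.Agent.H62.Log.OpenLog
import Pool.Agent.H62.Log.Assign
import Pool.Agent.H92.GGL.Gadget

/-!
# Hyperbolic pairs as blocks

A hyperbolic pair of systems of forms in `r + c + 1` variables, `c` being the number of equations,
can be perturbed such that the projection to the first `r + 1` coordinates is finite after a linear
change of coordinates.
-/

open Topology Filter

namespace Pool.Agent.H62.Chain

open Pool.Agent.H17 Pool.Agent.H17.EntFun Pool.Agent.H92.GGL Pool.Agent.H79.Log Pool.Agent.H62.Log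

/-- A smooth family of `N + 1` forms in `N + 1` variables has no common zero. -/
lemma eq_zero_of_smoothFam {N : ℕ} {κ : Type} [Fintype κ] (hκ : Fintype.card κ = N + 1)
    {d : κ → ℕ} {F : κ → MvPolynomial (Fin (N + 1)) ℂ} (hF : ∀ l, (F l).IsHomogeneous (d l))
    (hsm : SmoothFam F) {x : Fin (N + 1) → ℂ} (hx : ∀ l, MvPolynomial.eval x (F l) = 0) :
    x = 0 := by
  classical
  by_contra hne
  obtain ⟨j, hj⟩ : ∃ j, x j ≠ 0 := by
    by_contra h
    push Not at h
    exact hne (funext h)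
  set A : Matrix κ (Fin (N + 1)) ℂ := fun l j => MvPolynomial.eval x (MvPolynomial.pderiv j (F l))
    with hA
  have hinj : Function.Injective (Matrix.vecMulLinear A) := by
    rw [injective_iff_map_eq_zero]
    intro α hα
    refine hsm x hne hx α fun j => ?_
    rw [Matrix.vecMulLinear_apply] at hα
    have h1 := congrFun hα j
    simpa [Matrix.vecMul, dotProduct, hA] using h1
  have hsurj := (LinearMap.injective_iff_surjective_of_finrank_eq_finrank (by simp [hκ])).mp hinj
  obtain ⟨α, hα⟩ := hsurj (Pi.single j 1)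
  have euler : ∀ l, ∑ i, A l i * x i = 0 := by
    intro l
    have h1 := congrArg (MvPolynomial.eval x) (hF l).sum_X_mul_pderiv
    rw [map_sum, map_nsmul, hx l, smul_zero] at h1
    rw [← h1]
    refine Finset.sum_congr rfl fun i _ => ?_
    rw [map_mul, MvPolynomial.eval_X, mul_comm]
  have h1 : ∑ i, (Matrix.vecMulLinear A α) i * x i = 0 := by
    have h2 : ∀ i, (Matrix.vecMulLinear A α) i = ∑ l, α l * A l i := by
      intro i
      simp [Matrix.vecMul, dotProduct]
    calc ∑ i, (Matrix.vecMulLinear A α) i * x i = ∑ i, ∑ l, α l * (A l i * x i) := by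
          refine Finset.sum_congr rfl fun i _ => ?_
          rw [h2, Finset.sum_mul]
          exact Finset.sum_congr rfl fun l _ => by ring
      _ = ∑ l, α l * ∑ i, A l i * x i := by
          rw [Finset.sum_comm]
          exact Finset.sum_congr rfl fun l _ => by rw [Finset.mul_sum]
      _ = 0 := Finset.sum_eq_zero fun l _ => by rw [euler l, mul_zero]
  rw [hα] at h1
  apply hj
  simpa [Pi.single_apply] using h1

/-- Coordinates adapted to a subspace. -/
lemma exists_equiv {r : ℕ} {κ : Type} [Fintype κ]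
    (V : Submodule ℂ (Fin (r + Fintype.card κ + 1) → ℂ))
    (hV : Fintype.card κ ≤ Module.finrank ℂ V) :
    ∃ Φ : ((Fin (r + 1) ⊕ κ) → ℂ) ≃ₗ[ℂ] (Fin (r + Fintype.card κ + 1) → ℂ),
      ∀ b : κ → ℂ, Φ (Sum.elim 0 b) ∈ V := by
  classical
  obtain ⟨f, hf⟩ := exists_linearIndependent_of_le_finrank hV
  set V' : Submodule ℂ (Fin (r + Fintype.card κ + 1) → ℂ) :=
    Submodule.span ℂ (Set.range fun i => (f i : Fin (r + Fintype.card κ + 1) → ℂ)) with hV'
  have hle : V' ≤ V := by
    rw [hV', Submodule.span_le]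
    rintro _ ⟨i, rfl⟩
    exact (f i).2
  have hf' : LinearIndependent ℂ fun i => (f i : Fin (r + Fintype.card κ + 1) → ℂ) :=
    hf.map' V.subtype (Submodule.ker_subtype V)
  have hfin : Module.finrank ℂ V' = Fintype.card κ := by
    rw [hV', finrank_span_eq_card hf', Fintype.card_fin]
  obtain ⟨W, hW⟩ := Submodule.exists_isCompl V'
  have hfinW : Module.finrank ℂ W = r + 1 := by
    have h1 := Submodule.finrank_add_eq_of_isCompl hW
    rw [hfin, Module.finrank_fin_fun] at h1
    omega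
  have eW : (Fin (r + 1) → ℂ) ≃ₗ[ℂ] W := LinearEquiv.ofFinrankEq _ _ (by
    rw [Module.finrank_fin_fun, hfinW])
  have eV : (κ → ℂ) ≃ₗ[ℂ] V' := LinearEquiv.ofFinrankEq _ _ (by
    rw [Module.finrank_fintype_fun_eq_card, hfin])
  refine ⟨LinearEquiv.sumArrowLequivProdArrow _ _ ℂ ℂ ≪≫ₗ LinearEquiv.prodCongr eW eV ≪≫ₗ
    Submodule.prodEquivOfIsCompl W V' hW.symm, fun b => ?_⟩
  have h1 : (LinearEquiv.sumArrowLequivProdArrow _ _ ℂ ℂ ≪≫ₗ LinearEquiv.prodCongr eW eV ≪≫ₗ
      Submodule.prodEquivOfIsCompl W V' hW.symm) (Sum.elim 0 b) = (eV b : _) := by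
    simp only [LinearEquiv.trans_apply]
    rw [Submodule.coe_prodEquivOfIsCompl']
    have h2 : (LinearEquiv.sumArrowLequivProdArrow (Fin (r + 1)) κ ℂ ℂ) (Sum.elim 0 b) = (0, b) := by
      ext i
      · rfl
      · rfl
    rw [h2]
    simp
  rw [h1]
  exact hle (eV b).2

/-- If a pair is hyperbolic, vectors of entire functions satisfying the equations have proportional
values. -/
lemma cross_of_stratHyp {N : ℕ} {κ ι : Type} {d : κ → ℕ} {δ : ι → ℕ}
    {g : κ → MvPolynomial (Fin (N + 1)) ℂ} {h : ι → MvPolynomial (Fin (N + 1)) ℂ}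
    (hg : ∀ l, (g l).IsHomogeneous (d l)) (hh : ∀ j, (h j).IsHomogeneous (δ j))
    (hst : StratHyp g h) {y : Fin (N + 1) → EntFun} (hyg : ∀ l, MvPolynomial.aeval y (g l) = 0)
    (hyh : ∀ j, MvPolynomial.aeval y (h j) = (0 : EntFun) ∨
      ∀ w, ((MvPolynomial.aeval y (h j) : EntFun) : ℂ → ℂ) w ≠ 0) (w₁ w₂ : ℂ)
    (a b : Fin (N + 1)) : (y a : ℂ → ℂ) w₁ * (y b : ℂ → ℂ) w₂ =
      (y b : ℂ → ℂ) w₁ * (y a : ℂ → ℂ) w₂ := by
  classical
  by_cases hne : ∃ j, y j ≠ 0
  · obtain ⟨f, hf, hfX, hfh⟩ := exists_curve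
      (g := Sum.elim g fun j : {j // MvPolynomial.aeval y (h j) = (0 : EntFun)} => h j.1)
      (d := Sum.elim d fun j => δ j.1) (by
        rintro (l | j)
        · exact hg l
        · exact hh j.1) hne (by
        rintro (l | j)
        · exact hyg l
        · exact j.2)
    have hio : InOut h f Set.univ := by
      intro j
      rcases hyh j with h0 | h0
      · exact Or.inl fun z _ => hfX z (Sum.inr ⟨j, h0⟩)
      · right
        intro z _ hv
        apply h0 z
        obtain ⟨a, ha⟩ := hfh z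
        rw [eval_apply_eq]
        have h1 : (fun j => (y j : ℂ → ℂ) z) = fun j => a * (f z).rep j := funext ha
        rw [h1, eval_smul_of_isHomogeneous (hh j)]
        rw [show MvPolynomial.eval (f z).rep (h j) = 0 from hv, mul_zero]
    have hconst := hst f hf (fun z l => hfX z (Sum.inl l)) hio
    obtain ⟨a', ha⟩ := hfh w₁
    obtain ⟨b', hb⟩ := hfh w₂
    rw [hconst w₁ w₂] at ha
    rw [ha a, ha b, hb a, hb b]
    ring
  · push Not at hne
    rw [hne a, hne b]

/-- **Blocks from hyperbolic pairs.** -/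
theorem exists_gadget {κ ι : Type} [Fintype κ] [Fintype ι] (r : ℕ) (d : κ → ℕ)
    (hd : ∀ l, 1 ≤ d l) (δ : ι → ℕ)
    (g : κ → MvPolynomial (Fin (r + Fintype.card κ + 1)) ℂ)
    (h : ι → MvPolynomial (Fin (r + Fintype.card κ + 1)) ℂ)
    (hg : ∀ l, (g l).IsHomogeneous (d l)) (hh : ∀ j, (h j).IsHomogeneous (δ j))
    (hst : StratHyp g h) :
    ∃ (g' : κ → MvPolynomial (Fin (r + 1) ⊕ κ) ℂ) (h' : ι → MvPolynomial (Fin (r + 1) ⊕ κ) ℂ),
      (∀ l, (g' l).IsHomogeneous (d l)) ∧ (∀ j, (h' j).IsHomogeneous (δ j)) ∧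
      (∀ y : Fin (r + 1) ⊕ κ → EntFun, (∀ l, MvPolynomial.aeval y (g' l) = 0) →
        (∀ j, MvPolynomial.aeval y (h' j) = (0 : EntFun) ∨
          ∀ w, ((MvPolynomial.aeval y (h' j) : EntFun) : ℂ → ℂ) w ≠ 0) → ∀ w₁ w₂ a b,
        (y a : ℂ → ℂ) w₁ * (y b : ℂ → ℂ) w₂ = (y b : ℂ → ℂ) w₁ * (y a : ℂ → ℂ) w₂) ∧
      ∀ y : Fin (r + 1) ⊕ κ → EntFun, (∀ i, y (Sum.inl i) = 0) →
        (∀ l, MvPolynomial.aeval y (g' l) = 0) → ∀ l, y (Sum.inr l) = 0 := by
  classical
  -- a smooth perturbation together with linear forms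
  obtain ⟨ε, hε, hopen⟩ := strat_open hg hh hst
  obtain ⟨F, hF, hnear, hsm⟩ := exists_smoothFam_near (N := r + Fintype.card κ)
    (κ := κ ⊕ Fin (r + 1)) (d := Sum.elim d fun _ => 1) (by
      rintro (l | i)
      · exact hd l
      · exact le_rfl) (F₀ := Sum.elim g fun _ => 0) (by
      rintro (l | i)
      · exact hg l
      · exact MvPolynomial.isHomogeneous_zero _ _ _) hε
  set g₀ : κ → MvPolynomial (Fin (r + Fintype.card κ + 1)) ℂ := fun l => F (Sum.inl l) with hg₀
  set ℓ : Fin (r + 1) → MvPolynomial (Fin (r + Fintype.card κ + 1)) ℂ := fun i => F (Sum.inr i)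
    with hℓ
  have hg₀h : ∀ l, (g₀ l).IsHomogeneous (d l) := fun l => hF (Sum.inl l)
  have hst₀ : StratHyp g₀ h := hopen g₀ h hg₀h hh (fun l μ => hnear (Sum.inl l) μ)
    (fun j μ => by simpa using hε)
  have hcard : Fintype.card (κ ⊕ Fin (r + 1)) = r + Fintype.card κ + 1 := by
    rw [Fintype.card_sum, Fintype.card_fin]
    omega
  have hno : ∀ x : Fin (r + Fintype.card κ + 1) → ℂ, (∀ l, MvPolynomial.eval x (g₀ l) = 0) →
      (∀ i, MvPolynomial.eval x (ℓ i) = 0) → x = 0 := by
    intro x h1 h2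
    refine eq_zero_of_smoothFam hcard hF hsm fun l => ?_
    rcases l with l | i
    · exact h1 l
    · exact h2 i
  -- the linear forms as a linear map
  have hlin : ∀ i, ∃ φ : (Fin (r + Fintype.card κ + 1) → ℂ) →ₗ[ℂ] ℂ,
      ∀ x, φ x = MvPolynomial.eval x (ℓ i) := by
    intro i
    have h1 : (ℓ i).IsHomogeneous 1 := hF (Sum.inr i)
    have h2 : ∀ x, MvPolynomial.eval x (ℓ i) = ∑ j, (ℓ i).coeff (Finsupp.single j 1) * x j := by
      intro x
      have h3 := congrArg (MvPolynomial.eval x) h1.sum_X_mul_pderiv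
      rw [map_sum, one_smul] at h3
      rw [← h3]
      refine Finset.sum_congr rfl fun j _ => ?_
      rw [map_mul, MvPolynomial.eval_X, mul_comm]
      congr 1
      have h4 := h1.pderiv (i := j)
      rw [Nat.sub_self] at h4
      rw [← MvPolynomial.totalDegree_zero_iff_isHomogeneous,
        MvPolynomial.totalDegree_eq_zero_iff_eq_C] at h4
      obtain ⟨c, hc⟩ : ∃ c, MvPolynomial.pderiv j (ℓ i) = MvPolynomial.C c := ⟨_, h4⟩
      have h5 : (MvPolynomial.pderiv j (ℓ i)).coeff 0 = (ℓ i).coeff (Finsupp.single j 1) := by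
        rw [MvPolynomial.coeff_pderiv]
        simp
      rw [hc, MvPolynomial.eval_C, ← h5, hc, MvPolynomial.coeff_zero_C]
    refine ⟨{ toFun := fun x => ∑ j, (ℓ i).coeff (Finsupp.single j 1) * x j
              map_add' := fun x y => by
                rw [← Finset.sum_add_distrib]
                exact Finset.sum_congr rfl fun j _ => by rw [Pi.add_apply, mul_add]
              map_smul' := fun a x => by
                rw [RingHom.id_apply, smul_eq_mul, Finset.mul_sum]
                exact Finset.sum_congr rfl fun j _ => by rw [Pi.smul_apply, smul_eq_mul]; ring },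
      fun x => (h2 x).symm⟩
  choose φ hφ using hlin
  set V : Submodule ℂ (Fin (r + Fintype.card κ + 1) → ℂ) := LinearMap.ker (LinearMap.pi φ) with hV
  have hVmem : ∀ x, x ∈ V ↔ ∀ i, MvPolynomial.eval x (ℓ i) = 0 := by
    intro x
    rw [hV, LinearMap.mem_ker]
    constructor
    · intro h1 i
      rw [← hφ]
      exact congrFun h1 i
    · intro h1
      funext i
      exact (hφ i x).trans (h1 i)
  have hVfin : Fintype.card κ ≤ Module.finrank ℂ V := by
    have h1 := LinearMap.finrank_range_add_finrank_ker (LinearMap.pi φ)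
    have h2 := Submodule.finrank_le (LinearMap.range (LinearMap.pi φ))
    rw [Module.finrank_fin_fun] at h1 h2
    rw [← hV] at h1
    omega
  obtain ⟨Φ, hΦ⟩ := exists_equiv V hVfin
  -- the matrices
  set D : Fin (r + Fintype.card κ + 1) → Fin (r + 1) ⊕ κ → ℂ := fun k a => Φ (Pi.single a 1) k
    with hD
  set D' : Fin (r + 1) ⊕ κ → Fin (r + Fintype.card κ + 1) → ℂ := fun a k =>
    Φ.symm (Pi.single k 1) a with hD'
  have hΦD : ∀ y k, Φ y k = ∑ a, D k a * y a := by
    intro y k
    have h1 : y = ∑ a, y a • (Pi.single a (1 : ℂ) : Fin (r + 1) ⊕ κ → ℂ) := by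
      ext a
      simp [Finset.sum_apply, Pi.single_apply]
    conv_lhs => rw [h1]
    rw [map_sum, Finset.sum_apply]
    exact Finset.sum_congr rfl fun a _ => by
      rw [map_smul, Pi.smul_apply, smul_eq_mul, mul_comm]
  have hΦD' : ∀ x a, Φ.symm x a = ∑ k, D' a k * x k := by
    intro x a
    have h1 : x = ∑ k, x k • (Pi.single k (1 : ℂ) : Fin (r + Fintype.card κ + 1) → ℂ) := by
      ext k
      simp [Finset.sum_apply, Pi.single_apply]
    conv_lhs => rw [h1]
    rw [map_sum, Finset.sum_apply]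
    exact Finset.sum_congr rfl fun k _ => by
      rw [map_smul, Pi.smul_apply, smul_eq_mul, mul_comm]
  set lin : Fin (r + Fintype.card κ + 1) → MvPolynomial (Fin (r + 1) ⊕ κ) ℂ := fun k =>
    ∑ a, MvPolynomial.C (D k a) * MvPolynomial.X a with hlin
  have hlinh : ∀ k, (lin k).IsHomogeneous 1 := by
    intro k
    refine MvPolynomial.IsHomogeneous.sum _ _ _ fun a _ => ?_
    have h1 := MvPolynomial.isHomogeneous_C_mul_X_pow (D k a) a 1
    rwa [pow_one] at h1
  have haev : ∀ (y : Fin (r + 1) ⊕ κ → EntFun) (P : MvPolynomial (Fin (r + Fintype.card κ + 1)) ℂ),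
      MvPolynomial.aeval y (MvPolynomial.aeval lin P) =
        MvPolynomial.aeval (fun k => ∑ a, algebraMap ℂ EntFun (D k a) * y a) P := by
    intro y P
    rw [MvPolynomial.comp_aeval_apply]
    congr 2
    funext k
    rw [hlin]
    simp only
    rw [map_sum]
    exact Finset.sum_congr rfl fun a _ => by rw [map_mul, MvPolynomial.aeval_C, MvPolynomial.aeval_X]
  have hval : ∀ (y : Fin (r + 1) ⊕ κ → EntFun) k w,
      ((∑ a, algebraMap ℂ EntFun (D k a) * y a : EntFun) : ℂ → ℂ) w =
        Φ (fun a => (y a : ℂ → ℂ) w) k := by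
    intro y k w
    rw [hΦD]
    have h1 : ev w (∑ a, algebraMap ℂ EntFun (D k a) * y a) = ∑ a, D k a * (y a : ℂ → ℂ) w := by
      rw [map_sum]
      exact Finset.sum_congr rfl fun a _ => by rw [map_mul, ev_algebraMap, ev_apply]
    exact h1
  refine ⟨fun l => MvPolynomial.aeval lin (g₀ l), fun j => MvPolynomial.aeval lin (h j),
    fun l => ?_, fun j => ?_, ?_, ?_⟩
  · have h1 := (hg₀h l).aeval lin (n := 1) hlinh
    rwa [one_mul] at h1
  · have h1 := (hh j).aeval lin (n := 1) hlinh
    rwa [one_mul] at h1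
  · intro y hyg hyh w₁ w₂ a b
    have hcr := cross_of_stratHyp hg₀h hh hst₀ (fun l => by rw [← haev]; exact hyg l)
      (fun j => by rw [← haev]; exact hyh j) w₁ w₂
    have h1 : ∀ w a, (y a : ℂ → ℂ) w = ∑ k, D' a k * Φ (fun a => (y a : ℂ → ℂ) w) k := by
      intro w a
      rw [← hΦD', LinearEquiv.symm_apply_apply]
    rw [h1 w₁ a, h1 w₂ b, h1 w₁ b, h1 w₂ a, Finset.sum_mul_sum, Finset.sum_mul_sum,
      Finset.sum_comm]
    refine Finset.sum_congr rfl fun k _ => Finset.sum_congr rfl fun k' _ => ?_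
    have h2 := hcr k' k
    simp only [hval] at h2
    linear_combination (D' a k' * D' b k) * h2
  · intro y hy0 hyg l
    ext w
    have h1 : (fun a => (y a : ℂ → ℂ) w) =
        Sum.elim (0 : Fin (r + 1) → ℂ) (fun l => (y (Sum.inr l) : ℂ → ℂ) w) := by
      funext a
      rcases a with i | l
      · show (y (Sum.inl i) : ℂ → ℂ) w = 0
        rw [hy0 i]
        rfl
      · rfl
    have h2 := hno (Φ (fun a => (y a : ℂ → ℂ) w)) (fun l => by
      have h3 := hyg l
      beta_reduce at h3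
      rw [haev] at h3
      have h4 := congrArg (ev w) h3
      rw [map_zero] at h4
      have h5 : ev w (MvPolynomial.aeval (fun k => ∑ a, algebraMap ℂ EntFun (D k a) * y a)
          (g₀ l)) = MvPolynomial.eval (Φ fun a => (y a : ℂ → ℂ) w) (g₀ l) := by
        have h6 := eval_apply_eq (fun k => ∑ a, algebraMap ℂ EntFun (D k a) * y a) (g₀ l) w
        rw [show (fun j => ((∑ a, algebraMap ℂ EntFun (D j a) * y a : EntFun) : ℂ → ℂ) w) =
          Φ fun a => (y a : ℂ → ℂ) w from funext fun k => hval y k w] at h6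
        exact h6
      rw [← h5]
      exact h4) ((hVmem _).mp (by rw [h1]; exact hΦ _))
    have h3 : (fun a => (y a : ℂ → ℂ) w) = 0 := Φ.map_eq_zero_iff.mp h2
    exact congrFun h3 (Sum.inr l)

end Pool.Agent.H62.Chain
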