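import Pool.Agent.H62.Chain.Core
import Pool.Agent.H62.Chain.System
import Pool.Agent.H62.Log.Cert

/-!
# The equations attached to blocks
-/

open Polynomial Topology Filter

namespace Pool.Agent.H62.Chain

open Pool.Agent.H17 Pool.Agent.H17.EntFun Pool.Agent.H92.GGL Pool.Agent.H79.Log Pool.Agent.H62.Log

/-- The role of an equation: it belongs to a block of curve type, to a block of surface type or to
a hyperbolic system, or to the cycle, or it is assigned to a component of the boundary, or it has no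
role. -/
inductive Role (a b s m : ℕ) : Type
  | curve (q : Fin a)
  | surface (q : Fin b)
  | system (q : Fin s)
  | cycle
  | boundary (j : Fin m)
  | free
  deriving DecidableEq

/-- The ranks of the blocks. -/
abbrev rk (a b : ℕ) {s : ℕ} (r : Fin s → ℕ) : (Fin a ⊕ Fin b) ⊕ Fin s → ℕ :=
  Sum.elim (Sum.elim (fun _ => 1) fun _ => 2) r

/-- The linear forms of a block and the additional coordinates of the equations of a system. -/
noncomputable def sysVec {n c : ℕ} {Q : Type} {ρ : Q → ℕ} (z : Entry ρ n → ℂ) (q : Q)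
    (κ : Type) (ι : κ → Fin c) (x : Fin (n + c + 1) → EntFun) :
    Fin (ρ q + 1) ⊕ κ → EntFun :=
  Sum.elim (fun i => linE (fun k => z ⟨q, i, k⟩) fun k => x (xIdx k)) fun l => x (wIdx (ι l))

/-- The form in all variables attached to a form of a system. -/
noncomputable def sysForm {n : ℕ} (c : ℕ) {Q : Type} {ρ : Q → ℕ} (z : Entry ρ n → ℂ) (q : Q)
    (κ : Type) (ι : κ → Fin c) (g : MvPolynomial (Fin (ρ q + 1) ⊕ κ) ℂ) :
    MvPolynomial (Fin (n + c + 1)) ℂ :=
  MvPolynomial.aeval (Sum.elim (fun i => baseLin c fun k => z ⟨q, i, k⟩)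
    fun l => MvPolynomial.X (wIdx (ι l))) g

lemma sysForm_isHomogeneous {n c : ℕ} {Q : Type} {ρ : Q → ℕ} (z : Entry ρ n → ℂ) (q : Q)
    (κ : Type) (ι : κ → Fin c) {g : MvPolynomial (Fin (ρ q + 1) ⊕ κ) ℂ} {d : ℕ}
    (hg : g.IsHomogeneous d) : (sysForm c z q κ ι g).IsHomogeneous d := by
  unfold sysForm
  have h1 := hg.aeval (Sum.elim (fun i => baseLin c fun k => z ⟨q, i, k⟩)
    fun l => MvPolynomial.X (wIdx (ι l))) (n := 1) (by
      rintro (i | l)
      · exact baseLin_isHomogeneous c _
      · exact MvPolynomial.isHomogeneous_X _ _)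
  rwa [one_mul] at h1

lemma aeval_sysForm {n c : ℕ} {Q : Type} {ρ : Q → ℕ} (z : Entry ρ n → ℂ) (q : Q)
    (κ : Type) (ι : κ → Fin c) (g : MvPolynomial (Fin (ρ q + 1) ⊕ κ) ℂ)
    (x : Fin (n + c + 1) → EntFun) : MvPolynomial.aeval x (sysForm c z q κ ι g) =
      MvPolynomial.aeval (sysVec z q κ ι x) g := by
  unfold sysForm
  rw [MvPolynomial.comp_aeval_apply]
  congr 2
  funext j
  rcases j with i | l
  · exact aeval_baseLin _ _
  · exact MvPolynomial.aeval_X _ _

lemma linE_apply_lform {n : ℕ} {Q : Type} {ρ : Q → ℕ} (z : Entry ρ n → ℂ) (q : Q)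
    (i : Fin (ρ q + 1)) (x : Fin (n + 1) → EntFun) (w : ℂ) :
    (linE (fun k => z ⟨q, i, k⟩) x : ℂ → ℂ) w = lform z q i (valAt x w) := linE_apply _ _ _

/-- **The forms attached to a hyperbolic system.** -/
theorem exists_system_forms {n c : ℕ} {Q : Type} {ρ : Q → ℕ} (z : Entry ρ n → ℂ) (q : Q)
    (κ ι : Type) [Fintype κ] [Fintype ι] (idx : κ → Fin c) (d : κ → ℕ) (hd : ∀ l, 1 ≤ d l)
    (δ : ι → ℕ) (g : κ → MvPolynomial (Fin (ρ q + Fintype.card κ + 1)) ℂ)
    (h : ι → MvPolynomial (Fin (ρ q + Fintype.card κ + 1)) ℂ)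
    (hg : ∀ l, (g l).IsHomogeneous (d l)) (hh : ∀ j, (h j).IsHomogeneous (δ j))
    (hst : StratHyp g h) :
    ∃ (G : κ → MvPolynomial (Fin (n + c + 1)) ℂ) (H : ι → MvPolynomial (Fin (n + c + 1)) ℂ),
      (∀ l, (G l).IsHomogeneous (d l)) ∧ (∀ j, (H j).IsHomogeneous (δ j)) ∧
      ∀ x : Fin (n + c + 1) → EntFun, (∀ l, MvPolynomial.aeval x (G l) = 0) →
        (∀ j, MvPolynomial.aeval x (H j) = (0 : EntFun) ∨
          ∀ w, ((MvPolynomial.aeval x (H j) : EntFun) : ℂ → ℂ) w ≠ 0) →
        BlockLeft z q (fun k => x (xIdx k)) ∧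
        ∀ v : EntFun, (∀ k, ∃ a : ℂ, x (xIdx k) = algebraMap ℂ EntFun a * v) →
          ∀ l, ∃ b : ℂ, x (wIdx (idx l)) = algebraMap ℂ EntFun b * v := by
  classical
  obtain ⟨g', h', hg', hh', hcr, hz0⟩ := exists_gadget (ρ q) d hd δ g h hg hh hst
  refine ⟨fun l => sysForm c z q κ idx (g' l), fun j => sysForm c z q κ idx (h' j),
    fun l => sysForm_isHomogeneous z q κ idx (hg' l),
    fun j => sysForm_isHomogeneous z q κ idx (hh' j), ?_⟩
  intro x hxG hxH
  have hsysG : ∀ l, MvPolynomial.aeval (sysVec z q κ idx x) (g' l) = 0 := fun l => by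
    rw [← aeval_sysForm]
    exact hxG l
  have hcross := hcr _ hsysG fun j => by
    rw [← aeval_sysForm]
    exact hxH j
  constructor
  · by_cases h0 : ∀ i w, lform z q i (valAt (fun k => x (xIdx k)) w) = 0
    · exact ⟨0, fun w => ⟨0, fun i => by rw [h0 i w, zero_mul]⟩⟩
    · push Not at h0
      obtain ⟨i₀, w₀, h0⟩ := h0
      refine ⟨fun i => lform z q i (valAt (fun k => x (xIdx k)) w₀), fun w =>
        ⟨lform z q i₀ (valAt (fun k => x (xIdx k)) w) /
          lform z q i₀ (valAt (fun k => x (xIdx k)) w₀), fun i => ?_⟩⟩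
      have h1 := hcross w w₀ (Sum.inl i) (Sum.inl i₀)
      unfold sysVec at h1
      simp only [Sum.elim_inl] at h1
      rw [linE_apply_lform z q i, linE_apply_lform z q i₀, linE_apply_lform z q i,
        linE_apply_lform z q i₀] at h1
      rw [div_mul_eq_mul_div, eq_div_iff h0]
      exact h1
  · intro v hv l
    by_cases h0 : ∀ i, linE (fun k => z ⟨q, i, k⟩) (fun k => x (xIdx k)) = 0
    · have h1 := hz0 _ (fun i => h0 i) hsysG l
      exact ⟨0, by rw [map_zero, zero_mul]; exact h1⟩
    · push Not at h0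
      obtain ⟨i₀, h0⟩ := h0
      obtain ⟨w₀, hw₀⟩ : ∃ w₀, (linE (fun k => z ⟨q, i₀, k⟩)
          (fun k => x (xIdx k)) : ℂ → ℂ) w₀ ≠ 0 := by
        by_contra hcon
        push Not at hcon
        exact h0 (EntFun.ext' fun w => hcon w)
      obtain ⟨e, he⟩ := exists_linE_eq (fun k => z ⟨q, i₀, k⟩) hv
      refine ⟨(x (wIdx (idx l)) : ℂ → ℂ) w₀ * e /
        (linE (fun k => z ⟨q, i₀, k⟩) (fun k => x (xIdx k)) : ℂ → ℂ) w₀, ?_⟩
      ext w
      have h1 := hcross w w₀ (Sum.inr l) (Sum.inl i₀)
      unfold sysVec at h1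
      simp only [Sum.elim_inl, Sum.elim_inr] at h1
      have h2 : (linE (fun k => z ⟨q, i₀, k⟩) (fun k => x (xIdx k)) : ℂ → ℂ) w =
          e * (v : ℂ → ℂ) w := by
        rw [he]
        rfl
      rw [h2] at h1
      have h3 : ((algebraMap ℂ EntFun ((x (wIdx (idx l)) : ℂ → ℂ) w₀ * e /
        (linE (fun k => z ⟨q, i₀, k⟩) (fun k => x (xIdx k)) : ℂ → ℂ) w₀) * v : EntFun) :
          ℂ → ℂ) w = (x (wIdx (idx l)) : ℂ → ℂ) w₀ * e /
        (linE (fun k => z ⟨q, i₀, k⟩) (fun k => x (xIdx k)) : ℂ → ℂ) w₀ *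
          (v : ℂ → ℂ) w := rfl
      rw [h3, div_mul_eq_mul_div, eq_div_iff hw₀]
      linear_combination h1

/-- **Equations attached to blocks.** -/
theorem exists_cert (n c m : ℕ) (d : Fin c → ℕ) (hd : ∀ l, 1 ≤ d l) (δ : Fin m → ℕ) {a b s : ℕ}
    (role : Fin c → Role a b s m) (brole : Fin m → Option (Fin s)) (r : Fin s → ℕ)
    (hcurve : ∀ q, 3 ≤ ∑ l with role l = .curve q, (d l - 1))
    (hsurface : ∀ q, 5 ≤ ∑ l with role l = .surface q, (d l - 2))
    (hsystem : ∀ q, ∃ (g : {l // role l = .system q} →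
        MvPolynomial (Fin (r q + Fintype.card {l // role l = .system q} + 1)) ℂ)
      (h : {j // brole j = some q} →
        MvPolynomial (Fin (r q + Fintype.card {l // role l = .system q} + 1)) ℂ),
      (∀ l, (g l).IsHomogeneous (d l)) ∧ (∀ j, (h j).IsHomogeneous (δ j)) ∧ StratHyp g h)
    (z : Entry (rk a b r) n → ℂ) :
    ∃ (Gb : Fin c → MvPolynomial (Fin (n + c + 1)) ℂ) (Hb : Fin m → MvPolynomial (Fin (n + c + 1)) ℂ),
      (∀ l, (Gb l).IsHomogeneous (d l)) ∧ (∀ j, (Hb j).IsHomogeneous (δ j)) ∧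
      ∀ x : Fin (n + c + 1) → EntFun,
        (∀ l, role l ≠ .cycle → (∀ j, role l ≠ .boundary j) → MvPolynomial.aeval x (Gb l) = 0) →
        (∀ j, brole j ≠ none → MvPolynomial.aeval x (Hb j) = (0 : EntFun) ∨
          ∀ w, ((MvPolynomial.aeval x (Hb j) : EntFun) : ℂ → ℂ) w ≠ 0) →
        (∀ q, BlockLeft z (Sum.inl q) (fun k => x (xIdx k)) ∨
          BlockRight z (Sum.inl q) (fun k => x (xIdx k))) ∧
        (∀ q, BlockLeft z (Sum.inr q) (fun k => x (xIdx k))) ∧
        ∀ v : EntFun, (∀ k, ∃ a : ℂ, x (xIdx k) = algebraMap ℂ EntFun a * v) →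
          ∀ l, role l ≠ .cycle → (∀ j, role l ≠ .boundary j) →
            ∃ b : ℂ, x (wIdx l) = algebraMap ℂ EntFun b * v := by
  classical
  -- the blocks of curve type and of surface type
  set B : Fin a ⊕ Fin b → Finset (Fin c) := Sum.elim
    (fun q => Finset.univ.filter fun l => role l = .curve q)
    (fun q => Finset.univ.filter fun l => role l = .surface q) with hB
  have hBmem : ∀ q l, l ∈ B q → role l ≠ .cycle ∧ (∀ j, role l ≠ .boundary j) ∧
      ∀ q', role l ≠ .system q' := by
    rintro (q | q) l hl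
    · have h1 : role l = .curve q := (Finset.mem_filter.mp hl).2
      rw [h1]
      exact ⟨by simp, by simp, by simp⟩
    · have h1 : role l = .surface q := (Finset.mem_filter.mp hl).2
      rw [h1]
      exact ⟨by simp, by simp, by simp⟩
  have hBd : ∀ q q', q ≠ q' → Disjoint (B q) (B q') := by
    intro q q' hne
    rw [Finset.disjoint_left]
    intro l hl hl'
    apply hne
    rcases q with q | q <;> rcases q' with q' | q'
    · have h1 : role l = .curve q := (Finset.mem_filter.mp hl).2
      have h2 : role l = .curve q' := (Finset.mem_filter.mp hl').2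
      rw [h1] at h2
      rw [Role.curve.inj h2]
    · have h1 : role l = .curve q := (Finset.mem_filter.mp hl).2
      have h2 : role l = .surface q' := (Finset.mem_filter.mp hl').2
      rw [h1] at h2
      exact absurd h2 (by simp)
    · have h1 : role l = .surface q := (Finset.mem_filter.mp hl).2
      have h2 : role l = .curve q' := (Finset.mem_filter.mp hl').2
      rw [h1] at h2
      exact absurd h2 (by simp)
    · have h1 : role l = .surface q := (Finset.mem_filter.mp hl).2
      have h2 : role l = .surface q' := (Finset.mem_filter.mp hl').2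
      rw [h1] at h2
      rw [Role.surface.inj h2]
  set A : Finset (Fin c) := Finset.univ.filter fun l => role l = .cycle ∨
    (∃ j, role l = .boundary j) ∨ ∃ q, role l = .system q with hA
  have hBA : ∀ q, Disjoint (B q) A := by
    intro q
    rw [Finset.disjoint_left]
    intro l hl hl'
    obtain ⟨h1, h2, h3⟩ := hBmem q l hl
    rcases (Finset.mem_filter.mp hl').2 with h4 | ⟨j, h4⟩ | ⟨q', h4⟩
    · exact h1 h4
    · exact h2 j h4
    · exact h3 q' h4
  set z' : Entry (blockRank (Sum.elim (fun _ => 1) fun _ => 2 : Fin a ⊕ Fin b → ℕ)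
    (∅ : Finset (Fin c)) fun _ => 0) n → ℂ := fun e => match e with
      | ⟨Sum.inl q, i, k⟩ => z ⟨Sum.inl q, i, k⟩
      | ⟨Sum.inr l, _, _⟩ => absurd l.2 (Finset.notMem_empty _) with hz'
  obtain ⟨Gc, hGc, hcert⟩ := cert_of_blocks n c d hd
    (Sum.elim (fun _ => 1) fun _ => 2 : Fin a ⊕ Fin b → ℕ) (by
      rintro (q | q)
      · exact one_le_two
      · exact le_rfl) B hBd ∅ (fun _ => 0) (fun q => Finset.disjoint_empty_right _) A hBA
    (Finset.disjoint_empty_left _) (by
      rintro (q | q) e ρ he hρ heρ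
      · -- curves
        simp only [Sum.elim_inl] at heρ
        have he1 : e = 1 := by omega
        have hρ1 : ρ = 1 := by omega
        subst he1 hρ1
        have h1 : ∑ l ∈ B (Sum.inl q), (d l - 1) + ∑ l ∈ B (Sum.inl q), min (d l) (1 * 1) =
            ∑ l ∈ B (Sum.inl q), d l := by
          rw [← Finset.sum_add_distrib]
          refine Finset.sum_congr rfl fun l _ => ?_
          have := hd l
          omega
        have h2 : 3 ≤ ∑ l ∈ B (Sum.inl q), (d l - 1) := hcurve q
        omega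
      · -- surfaces
        simp only [Sum.elim_inr] at heρ
        have h1 : ∑ l ∈ B (Sum.inr q), (d l - 2) + ∑ l ∈ B (Sum.inr q), min (d l) 2 =
            ∑ l ∈ B (Sum.inr q), d l := by
          rw [← Finset.sum_add_distrib]
          exact Finset.sum_congr rfl fun l _ => by omega
        have h2 : 5 ≤ ∑ l ∈ B (Sum.inr q), (d l - 2) := hsurface q
        have h3 : ∑ l ∈ B (Sum.inr q), min (d l) (e * ρ) ≤ ∑ l ∈ B (Sum.inr q), min (d l) 2 := by
          refine Finset.sum_le_sum fun l _ => min_le_min_left _ ?_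
          have he2 : e = 1 ∨ e = 2 := by omega
          rcases he2 with rfl | rfl
          · omega
          · omega
        omega) (fun l hl => absurd hl (Finset.notMem_empty l)) z'
  -- the systems
  choose g h hg hh hst using hsystem
  have hgad := fun q => exists_system_forms z (Sum.inr q) {l // role l = .system q}
    {j // brole j = some q} (fun l => l.1) (fun l => d l.1) (fun l => hd l.1) (fun j => δ j.1)
    (g q) (h q) (hg q) (hh q) (hst q)
  choose G' H' hG' hH' hsys using hgad
  set sG : Fin s → Fin c → MvPolynomial (Fin (n + c + 1)) ℂ := fun q l =>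
    if hl : role l = .system q then G' q ⟨l, hl⟩ else 0 with hsG
  set sH : Fin s → Fin m → MvPolynomial (Fin (n + c + 1)) ℂ := fun q j =>
    if hj : brole j = some q then H' q ⟨j, hj⟩ else 0 with hsH
  have hsGh : ∀ q l, (sG q l).IsHomogeneous (d l) := by
    intro q l
    simp only [hsG]
    split_ifs with h
    · exact hG' q ⟨l, h⟩
    · exact MvPolynomial.isHomogeneous_zero _ _ _
  have hsHh : ∀ q j, (sH q j).IsHomogeneous (δ j) := by
    intro q j
    simp only [hsH]
    split_ifs with h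
    · exact hH' q ⟨j, h⟩
    · exact MvPolynomial.isHomogeneous_zero _ _ _
  set Gb : Fin c → MvPolynomial (Fin (n + c + 1)) ℂ := fun l => match role l with
    | .system q => sG q l
    | _ => Gc l with hGb
  set Hb : Fin m → MvPolynomial (Fin (n + c + 1)) ℂ := fun j => match brole j with
    | some q => sH q j
    | none => 0 with hHb
  have hGbsys : ∀ q l, role l = .system q → Gb l = sG q l := by
    intro q l hl
    simp only [hGb, hl]
  have hGbc : ∀ l, (∀ q, role l ≠ .system q) → Gb l = Gc l := by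
    intro l hl
    simp only [hGb]
  have hHbsys : ∀ q j, brole j = some q → Hb j = sH q j := by
    intro q j hj
    simp only [hHb, hj]
  refine ⟨Gb, Hb, fun l => ?_, fun j => ?_, ?_⟩
  · by_cases h : ∃ q, role l = .system q
    · obtain ⟨q, h⟩ := h
      rw [hGbsys q l h]
      exact hsGh q l
    · push Not at h
      rw [hGbc l h]
      exact hGc l
  · rcases h : brole j with _ | q
    · simp only [hHb, h]
      exact MvPolynomial.isHomogeneous_zero _ _ _
    · rw [hHbsys q j h]
      exact hsHh q j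
  intro x hxG hxH
  -- the blocks of curve type and of surface type
  obtain ⟨hspec, hprop⟩ := hcert x (fun l hl => by
    have h1 : ¬ (role l = .cycle ∨ (∃ j, role l = .boundary j) ∨ ∃ q, role l = .system q) :=
      fun h => hl (Finset.mem_filter.mpr ⟨Finset.mem_univ _, h⟩)
    push Not at h1
    obtain ⟨h2, h3, h4⟩ := h1
    rw [← hGbc l h4]
    exact hxG l h2 h3)
  -- the systems
  have hsys' := fun q => hsys q x (by
    rintro ⟨l, hl⟩
    have h1 := hxG l (by rw [hl]; simp) (by rw [hl]; simp)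
    rw [hGbsys q l hl] at h1
    simp only [hsG, dif_pos hl] at h1
    exact h1) (by
    rintro ⟨j, hj⟩
    have h1 := hxH j (by rw [hj]; simp)
    rw [hHbsys q j hj] at h1
    simp only [hsH, dif_pos hj] at h1
    exact h1)
  refine ⟨fun q => ?_, fun q => (hsys' q).1, ?_⟩
  · rcases hspec (Sum.inl q) with ⟨P, hP⟩ | ⟨-, τ, hτ⟩
    · left
      refine ⟨P, fun w => ?_⟩
      obtain ⟨e, he⟩ := hP w
      exact ⟨e, fun i => he i⟩
    · right
      exact ⟨τ, fun w => hτ w⟩
  · intro v hv l hl1 hl2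
    by_cases h : ∃ q, role l = .system q
    · obtain ⟨q, hl⟩ := h
      exact (hsys' q).2 v hv ⟨l, hl⟩
    · push Not at h
      refine hprop v hv l fun hlA => ?_
      rcases (Finset.mem_filter.mp hlA).2 with h4 | ⟨j, h4⟩ | ⟨q', h4⟩
      · exact hl1 h4
      · exact hl2 j h4
      · exact h q' h4

end Pool.Agent.H62.Chain
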