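import Pool.Agent.H79.Log.StratCross

/-!
# Classes of proportional linear forms without zeros along a curve
-/

namespace Pool.Agent.H62.Chain

open Pool.Agent.H17 Pool.Agent.H17.EntFun Pool.Agent.H92.GGL Pool.Agent.H79.Log

/-- **Classes.**  Linear forms without zeros along a curve with span of dimension `k + 1` are in at
most `k + 1` classes of forms which are proportional on the span. -/
lemma exists_classes {n k : ℕ} {J : Type} [Fintype J] [DecidableEq J] (M : J → Fin (n + 1) → ℂ)
    (x : Fin (n + 1) → EntFun) (hk : Module.finrank ℂ (spanOf x) = k + 1) (U : Finset J)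
    (hU : ∀ j ∈ U, ∀ w, (linE (M j) x : ℂ → ℂ) w ≠ 0) :
    ∃ (Cl : Finset J) (rep : J → J), Cl ⊆ U ∧
      (∀ j ∈ Cl, rep j ∉ Cl ∧ ∃ lam : ℂ, ∀ v ∈ spanOf x, linv (M j) v =
        lam * linv (M (rep j)) v) ∧ U.card ≤ Cl.card + (k + 1) := by
  classical
  have hne : ∀ b : {j // j ∈ U}, linE (M b) x ≠ 0 := by
    intro b h
    apply hU b.1 b.2 0
    rw [h]
    rfl
  let s : Setoid {j // j ∈ U} :=
    { r := fun b b' => ∃ c : ℂ, linE (M b) x = algebraMap ℂ EntFun c * linE (M b') x
      iseqv :=
        { refl := fun b => ⟨1, by rw [map_one, one_mul]⟩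
          symm := by
            rintro b b' ⟨c, hc⟩
            have hc0 : c ≠ 0 := by
              rintro rfl
              apply hne b
              rw [hc, map_zero, zero_mul]
            refine ⟨c⁻¹, ?_⟩
            rw [hc, ← mul_assoc, ← map_mul, inv_mul_cancel₀ hc0, map_one, one_mul]
          trans := by
            rintro b b' b'' ⟨c, hc⟩ ⟨c', hc'⟩
            exact ⟨c * c', by rw [hc, hc', map_mul, mul_assoc]⟩ } }
  have : Fintype (Quotient s) := Fintype.ofFinite _
  set h : Quotient s → EntFun := fun t => linE (M t.out) x with hh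
  have hli : LinearIndependent ℂ h := by
    have e := Fintype.equivFin (Quotient s)
    have h1 := Pool.Agent.H17B.borel_linearIndependent (fun i => h (e.symm i))
      (fun i w => hU _ (e.symm i).out.2 w) (by
      intro i j hij hc
      apply hij
      apply e.symm.injective
      have h2 : (e.symm i).out ≈ (e.symm j).out := hc
      rw [← Quotient.out_eq (e.symm i), ← Quotient.out_eq (e.symm j)]
      exact Quotient.sound h2)
    exact (linearIndependent_equiv e.symm).mp h1
  have hex := fun t₀ => exists_dual (fun t : Quotient s => M t.out) x hli t₀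
  -- the number of classes
  have hcard : Fintype.card (Quotient s) ≤ k + 1 := by
    set Φ : spanOf x →ₗ[ℂ] (Quotient s → ℂ) :=
      (LinearMap.pi fun t : Quotient s => linv (M t.out)).comp (spanOf x).subtype with hΦ
    have hsurj : Function.Surjective Φ := by
      intro y
      choose v hv hv' using hex
      refine ⟨∑ t, y t • ⟨v t, hv t⟩, ?_⟩
      rw [map_sum]
      funext t'
      rw [Finset.sum_apply]
      have h1 : ∀ t, (Φ (y t • ⟨v t, hv t⟩)) t' = if t' = t then y t else 0 := by
        intro t
        rw [map_smul, Pi.smul_apply, smul_eq_mul]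
        have h2 : (Φ ⟨v t, hv t⟩) t' = linv (M t'.out) (v t) := rfl
        rw [h2, hv' t t']
        split_ifs <;> simp
      rw [Finset.sum_congr rfl fun t _ => h1 t, Finset.sum_ite_eq Finset.univ t',
        if_pos (Finset.mem_univ t')]
    have h1 := LinearMap.finrank_le_finrank_of_surjective hsurj
    rw [hk, Module.finrank_fintype_fun_eq_card] at h1
    exact h1
  set rep : J → J := fun j => if hj : j ∈ U then ((⟦⟨j, hj⟩⟧ : Quotient s).out : {j // j ∈ U}).1
    else j with hrep
  have hrepU : ∀ j (hj : j ∈ U), rep j = ((⟦⟨j, hj⟩⟧ : Quotient s).out : {j // j ∈ U}).1 := by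
    intro j hj
    simp only [hrep, dif_pos hj]
  have hrepmem : ∀ j, j ∈ U → rep j ∈ U := by
    intro j hj
    rw [hrepU j hj]
    exact (⟦⟨j, hj⟩⟧ : Quotient s).out.2
  have hidem : ∀ j, j ∈ U → rep (rep j) = rep j := by
    intro j hj
    have h1 : (⟨rep j, hrepmem j hj⟩ : {j // j ∈ U}) = (⟦⟨j, hj⟩⟧ : Quotient s).out :=
      Subtype.ext (hrepU j hj)
    rw [hrepU (rep j) (hrepmem j hj), h1, Quotient.out_eq, hrepU j hj]
  refine ⟨U.filter fun j => rep j ≠ j, rep, Finset.filter_subset _ _, ?_, ?_⟩
  · intro j hj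
    obtain ⟨hjU, hj⟩ := Finset.mem_filter.mp hj
    refine ⟨fun h1 => (Finset.mem_filter.mp h1).2 (hidem j hjU), ?_⟩
    obtain ⟨c, hc⟩ : (⟨j, hjU⟩ : {j // j ∈ U}) ≈ (⟦⟨j, hjU⟩⟧ : Quotient s).out :=
      Quotient.exact (Quotient.out_eq _).symm
    refine ⟨c, fun v hv => ?_⟩
    rw [hrepU j hjU]
    exact linv_eq_of_linE hc hv
  · have h1 := Finset.card_filter_add_card_filter_not (s := U) (fun j => rep j ≠ j)
    have h2 : (U.filter fun j => ¬ rep j ≠ j).card ≤ k + 1 := by
      refine le_trans ?_ hcard
      rw [← Fintype.card_coe]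
      refine Fintype.card_le_of_injective (fun j : {j // j ∈ U.filter fun j => ¬ rep j ≠ j} =>
        (⟦⟨j.1, (Finset.mem_filter.mp j.2).1⟩⟧ : Quotient s)) ?_
      intro a b hab
      have ha := (Finset.mem_filter.mp a.2)
      have hb := (Finset.mem_filter.mp b.2)
      have h3 : rep a.1 = rep b.1 := by
        rw [hrepU a.1 ha.1, hrepU b.1 hb.1]
        exact congrArg (fun t : Quotient s => (t.out : {j // j ∈ U}).1) hab
      apply Subtype.ext
      rw [← not_not.mp ha.2, ← not_not.mp hb.2]
      exact h3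
    omega

end Pool.Agent.H62.Chain
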