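import Mathlib

/-!
# Chains of zero sets in a cycle
-/

namespace Pool.Agent.H62.Chain

/-- Common zeros of the forms between two forms of `P`. -/
lemma exists_zero_points {J : Type} [Fintype J] [DecidableEq J] (σ : J → J)
    (hinj : Function.Injective σ) (horb : ∀ i j, ∃ s, σ^[s] i = j) (P Z : Finset J)
    (hPZ : Disjoint P Z) (E : J → Set ℂ) (hne : ∀ i ∈ Z, (E i).Nonempty)
    (hstep : ∀ i ∈ Z, (σ i ∈ P ∨ σ i ∈ Z) ∧ E i ⊆ E (σ i)) :
    (∃ w : {p // p ∈ P} → ℂ, ∀ i ∈ Z, ∃ t, w t ∈ E i) ∨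
      (P = ∅ ∧ Z = Finset.univ ∧ ∃ w : ℂ, ∀ i, w ∈ E i) := by
  classical
  by_cases hP : P = ∅
  · by_cases hZ : Z = ∅
    · left
      refine ⟨fun _ => 0, fun i hi => ?_⟩
      rw [hZ] at hi
      exact absurd hi (Finset.notMem_empty i)
    · right
      obtain ⟨i₀, hi₀⟩ := Finset.nonempty_iff_ne_empty.mpr hZ
      have h1 : ∀ s, σ^[s] i₀ ∈ Z ∧ E i₀ ⊆ E (σ^[s] i₀) := by
        intro s
        induction s with
        | zero => exact ⟨hi₀, subset_rfl⟩
        | succ s ih =>
          rw [Function.iterate_succ_apply']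
          obtain ⟨h2, h3⟩ := hstep _ ih.1
          refine ⟨?_, ih.2.trans h3⟩
          rcases h2 with h2 | h2
          · rw [hP] at h2
            exact absurd h2 (Finset.notMem_empty _)
          · exact h2
      obtain ⟨w, hw⟩ := hne i₀ hi₀
      refine ⟨hP, ?_, w, fun i => ?_⟩
      · rw [Finset.eq_univ_iff_forall]
        intro i
        obtain ⟨s, rfl⟩ := horb i₀ i
        exact (h1 s).1
      · obtain ⟨s, rfl⟩ := horb i₀ i
        exact (h1 s).2 hw
  · left
    obtain ⟨p₀, hp₀⟩ := Finset.nonempty_iff_ne_empty.mpr hP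
    have hex : ∀ i, ∃ s, σ^[s] i ∈ P := by
      intro i
      obtain ⟨s, hs⟩ := horb i p₀
      exact ⟨s, by rw [hs]; exact hp₀⟩
    set dist : J → ℕ := fun i => Nat.find (hex i) with hdist
    have hend : ∀ i, σ^[dist i] i ∈ P := fun i => Nat.find_spec (hex i)
    have hmin : ∀ i s, s < dist i → σ^[s] i ∉ P := fun i s hs => Nat.find_min (hex i) hs
    have hwalk : ∀ i ∈ Z, ∀ s, s < dist i → σ^[s] i ∈ Z ∧ E i ⊆ E (σ^[s] i) := by
      intro i hi s
      induction s with
      | zero => exact fun _ => ⟨hi, subset_rfl⟩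
      | succ s ih =>
        intro hs
        obtain ⟨h1, h2⟩ := ih (by omega)
        obtain ⟨h3, h4⟩ := hstep _ h1
        rw [Function.iterate_succ_apply']
        refine ⟨?_, h2.trans h4⟩
        rcases h3 with h3 | h3
        · have h5 := hmin i (s + 1) hs
          rw [Function.iterate_succ_apply'] at h5
          exact absurd h3 h5
        · exact h3
    have hch : ∀ p : {p // p ∈ P}, ∃ w : ℂ, ∀ i ∈ Z, σ^[dist i] i = p.1 → w ∈ E i := by
      intro p
      by_cases hp : (Z.filter fun i => σ^[dist i] i = p.1).Nonempty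
      · obtain ⟨i₁, hi₁, hmax⟩ := Finset.exists_max_image _ dist hp
        obtain ⟨hi₁Z, hi₁p⟩ := Finset.mem_filter.mp hi₁
        obtain ⟨w, hw⟩ := hne i₁ hi₁Z
        refine ⟨w, fun i hi hip => ?_⟩
        have h1 : dist i ≤ dist i₁ := hmax i (Finset.mem_filter.mpr ⟨hi, hip⟩)
        have h2 : 1 ≤ dist i := by
          by_contra h3
          have h4 : dist i = 0 := by omega
          have h5 := hend i
          rw [h4, Function.iterate_zero, id] at h5
          exact Finset.disjoint_left.mp hPZ h5 hi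
        have h3 : σ^[dist i₁ - dist i] i₁ = i := by
          apply hinj.iterate (dist i)
          rw [← Function.iterate_add_apply, Nat.add_sub_cancel' h1, hi₁p, hip]
        have h4 := (hwalk i₁ hi₁Z (dist i₁ - dist i) (by omega)).2
        rw [h3] at h4
        exact h4 hw
      · refine ⟨0, fun i hi hip => ?_⟩
        exact absurd ⟨i, Finset.mem_filter.mpr ⟨hi, hip⟩⟩ hp
    choose w hw using hch
    exact ⟨w, fun i hi => ⟨⟨_, hend i⟩, hw ⟨_, hend i⟩ i hi rfl⟩⟩

end Pool.Agent.H62.Chain
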