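import Pool.Agent.H79.Log.StratCross
import Mathlib.LinearAlgebra.Matrix.MvPolynomial

/-!
# The dimension of a subspace on which generic linear forms are proportional
-/

namespace Pool.Agent.H62.Chain

open Pool.Agent.H92.GGL Pool.Agent.H79.Log

variable {Q : Type}

/-- If `r + 1` generic linear forms are proportional on a subspace of dimension `k + 1`, then
`k + r ≤ n`. -/
theorem left_bound {r : Q → ℕ} {n k : ℕ} (hk : 1 ≤ k) {z : Entry r n → ℂ}
    (hz : AlgebraicIndependent ℚ z) (q : Q) (W : Submodule ℂ (Fin (n + 1) → ℂ))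
    (hW : Module.finrank ℂ W = k + 1) (Pv : Fin (r q + 1) → ℂ)
    (hP : ∀ v ∈ W, ∃ a : ℂ, ∀ i, lform z q i v = a * Pv i) : k + r q ≤ n := by
  classical
  set s : ℕ := min (r q) n with hs
  have hsr : s + 1 ≤ r q + 1 := by omega
  have hsn : s + 1 ≤ n + 1 := by omega
  -- the determinant
  set A : Matrix (Fin (s + 1)) (Fin (s + 1)) ℂ := fun i j =>
    z ⟨q, Fin.castLE hsr i, Fin.castLE hsn j⟩ with hA
  have hdet : A.det ≠ 0 := by
    have h1 : AlgebraicIndependent ℚ (fun p : Fin (s + 1) × Fin (s + 1) => A p.1 p.2) := by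
      refine hz.comp (fun p : Fin (s + 1) × Fin (s + 1) =>
        (⟨q, Fin.castLE hsr p.1, Fin.castLE hsn p.2⟩ : Entry r n)) ?_
      intro p p' h
      simp only [Sigma.mk.injEq, heq_eq_eq, true_and, Prod.mk.injEq] at h
      exact Prod.ext (Fin.castLE_injective hsr h.1) (Fin.castLE_injective hsn h.2)
    have h2 := congrArg Matrix.det (Matrix.mvPolynomialX_mapMatrix_aeval ℚ A)
    rw [← AlgHom.map_det] at h2
    rw [← h2]
    intro h0
    apply Matrix.det_mvPolynomialX_ne_zero (Fin (s + 1)) ℚ
    exact (injective_iff_map_eq_zero _).mp h1 _ h0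
  -- the linear map
  set L : (Fin (n + 1) → ℂ) →ₗ[ℂ] (Fin (r q + 1) → ℂ) :=
    { toFun := fun v i => lform z q i v
      map_add' := fun v w => funext fun i => lform_add z q i v w
      map_smul' := fun a v => funext fun i => lform_smul z q i a v } with hL
  have hLapply : ∀ v i, L v i = lform z q i v := fun v i => rfl
  have hrange : s + 1 ≤ Module.finrank ℂ (LinearMap.range L) := by
    have h1 : LinearIndependent ℂ (fun j : Fin (s + 1) =>
        L (Pi.single (Fin.castLE hsn j) (1 : ℂ))) := by
      rw [Fintype.linearIndependent_iff]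
      intro u hu
      have h2 : A.mulVec u = 0 := by
        funext i
        have h3 := congrFun hu (Fin.castLE hsr i)
        rw [Finset.sum_apply, Pi.zero_apply] at h3
        rw [Pi.zero_apply, ← h3]
        unfold Matrix.mulVec dotProduct
        refine Finset.sum_congr rfl fun j _ => ?_
        rw [Pi.smul_apply, smul_eq_mul, hLapply, mul_comm]
        congr 1
        unfold lform
        simp [Pi.single_apply, hA]
      have h3 := Matrix.eq_zero_of_mulVec_eq_zero hdet h2
      exact fun j => congrFun h3 j
    have h2 := finrank_span_eq_card h1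
    rw [Fintype.card_fin] at h2
    rw [← h2]
    refine Submodule.finrank_mono ?_
    rw [Submodule.span_le]
    rintro _ ⟨j, rfl⟩
    exact ⟨_, rfl⟩
  have hker := LinearMap.finrank_range_add_finrank_ker L
  rw [Module.finrank_fin_fun] at hker
  -- the restriction to `W`
  have hW' := LinearMap.finrank_range_add_finrank_ker (L.domRestrict W)
  have h1 : Module.finrank ℂ (LinearMap.range (L.domRestrict W)) ≤ 1 := by
    refine (Submodule.finrank_mono (t := Submodule.span ℂ {Pv}) ?_).trans ?_
    · rintro _ ⟨v, rfl⟩
      obtain ⟨a, ha⟩ := hP v.1 v.2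
      rw [Submodule.mem_span_singleton]
      refine ⟨a, funext fun i => ?_⟩
      rw [Pi.smul_apply, smul_eq_mul]
      exact (ha i).symm
    · exact (finrank_span_le_card _).trans (by simp)
  have h2 : Module.finrank ℂ (LinearMap.ker (L.domRestrict W)) ≤
      Module.finrank ℂ (LinearMap.ker L) := by
    refine LinearMap.finrank_le_finrank_of_injective (f := (W.subtype.restrict
      (p := LinearMap.ker (L.domRestrict W)) (q := LinearMap.ker L) fun v hv => hv)) ?_
    intro v w hvw
    have h3 := congrArg Subtype.val hvw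
    exact Subtype.ext (Subtype.ext h3)
  omega

end Pool.Agent.H62.Chain
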