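import Pool.Agent.H62.Chain.GenSpace
import Pool.Agent.H62.Chain.Classes
import Pool.Agent.H62.Chain.Cycle
import Pool.Agent.H62.Chain.LeftBound

/-!
# Curves whose zero sets with generic linear forms are nested along a cycle
-/

namespace Pool.Agent.H62.Chain

open Pool.Agent.H17 Pool.Agent.H17.EntFun Pool.Agent.H92.GGL Pool.Agent.H79.Log

variable {Q J : Type}

/-- The first alternative of special position. -/
def BlockLeft {r : Q → ℕ} {n : ℕ} (z : Entry r n → ℂ) (q : Q) (x : Fin (n + 1) → EntFun) : Prop :=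
  ∃ P : Fin (r q + 1) → ℂ, ∀ w, ∃ a : ℂ, ∀ i, lform z q i (valAt x w) = a * P i

/-- The second alternative of special position. -/
def BlockRight {r : Q → ℕ} {n : ℕ} (z : Entry r n → ℂ) (q : Q) (x : Fin (n + 1) → EntFun) : Prop :=
  ∃ τ : ℕ, ∀ w, ∑ i : Fin (r q + 1), (τ : ℂ) ^ (i : ℕ) * lform z q i (valAt x w) = 0

lemma BlockLeft.span {r : Q → ℕ} {n : ℕ} {z : Entry r n → ℂ} {q : Q} {x : Fin (n + 1) → EntFun}
    (h : BlockLeft z q x) : ∃ P : Fin (r q + 1) → ℂ, ∀ v ∈ spanOf x, ∃ a : ℂ, ∀ i,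
      lform z q i v = a * P i := by
  obtain ⟨P, hP⟩ := h
  refine ⟨P, fun T hT => ?_⟩
  unfold spanOf at hT
  induction hT using Submodule.span_induction with
  | mem T hT =>
    obtain ⟨w, rfl⟩ := hT
    exact hP w
  | zero => exact ⟨0, fun i => by rw [lform_zero, zero_mul]⟩
  | add T T' _ _ h1 h2 =>
    obtain ⟨a, ha⟩ := h1
    obtain ⟨b, hb⟩ := h2
    exact ⟨a + b, fun i => by rw [lform_add, ha, hb, add_mul]⟩
  | smul c T _ h1 =>
    obtain ⟨a, ha⟩ := h1
    exact ⟨c * a, fun i => by rw [lform_smul, ha, mul_assoc]⟩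

lemma BlockRight.span {r : Q → ℕ} {n : ℕ} {z : Entry r n → ℂ} {q : Q} {x : Fin (n + 1) → EntFun}
    (h : BlockRight z q x) : ∃ τ : ℕ, ∀ v ∈ spanOf x,
      ∑ i : Fin (r q + 1), (τ : ℂ) ^ (i : ℕ) * lform z q i v = 0 := by
  obtain ⟨τ, hτ⟩ := h
  refine ⟨τ, fun T hT => ?_⟩
  unfold spanOf at hT
  induction hT using Submodule.span_induction with
  | mem T hT =>
    obtain ⟨w, rfl⟩ := hT
    exact hτ w
  | zero => exact Finset.sum_eq_zero fun i _ => by rw [lform_zero, mul_zero]
  | add T T' _ _ h1 h2 =>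
    rw [Finset.sum_congr rfl fun i _ => by rw [lform_add, mul_add], Finset.sum_add_distrib,
      h1, h2, add_zero]
  | smul c T _ h1 =>
    have h3 : ∀ i : Fin (r q + 1), (τ : ℂ) ^ (i : ℕ) * lform z q i (c • T) =
        c * ((τ : ℂ) ^ (i : ℕ) * lform z q i T) := fun i => by rw [lform_smul]; ring
    rw [Finset.sum_congr rfl fun i _ => h3 i, ← Finset.mul_sum, h1, mul_zero]

/-- The number of conditions imposed on a subspace of dimension `k + 1` by `p` linear forms which
vanish on it, `c` linear forms whose zero sets are nested along chains ending at the `p` forms, and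
`u` linear forms without zeros. -/
def cycleCost (k p c u : ℕ) : ℕ := max ((k + 1) * p) (p + c) + k * (u - (k + 1))

/-- The numerical condition. -/
def CycleNum [Fintype Q] {r : Q → ℕ} {n : ℕ} (z : Entry r n → ℂ) (x : Fin (n + 1) → EntFun)
    (c s u₀ : ℕ) (closed : Prop) : Prop :=
  ∀ k, 1 ≤ k → k ≤ n → (∀ q, BlockLeft z q x → k + r q ≤ n) → ∃ cst : Q → ℕ,
    (∀ q, (BlockLeft z q x ∧ cst q ≤ r q * k) ∨ (BlockRight z q x ∧ cst q ≤ k + 1)) ∧
    (∀ p y u, p + y + u = c → (y = 0 ∨ 0 < p + s) →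
      (k + 1) * (n - k) < cycleCost k (p + s) y (u + u₀) + ∑ q, cst q) ∧
    (closed → (k + 1) * (n - k) < (c - k) + ∑ q, cst q)

/-- **Curves with nested zero sets.** -/
theorem cross_of_cycle [Fintype Q] [Fintype J] [DecidableEq Q] [DecidableEq J] {r : Q → ℕ} {n : ℕ}
    {z : Entry₂ r n J → ℂ} (hz : AlgebraicIndependent ℚ z) (x : Fin (n + 1) → EntFun)
    (hx0 : ∀ w, valAt x w ≠ 0) {V : Type} [Fintype V] [DecidableEq V] (σ : V → V)
    (hinj : Function.Injective σ) (horb : ∀ i j, ∃ s, σ^[s] i = j) (C S : Finset V)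
    (hCS : Disjoint C S) (e : V → J) (he : ∀ i ∈ C, ∀ j ∈ C, e i = e j → i = j)
    (P₀ U₀ : Finset J) (hP₀card : S.card ≤ P₀.card) (hPU₀ : Disjoint P₀ U₀)
    (heP : ∀ l ∈ C, e l ∉ P₀) (heU : ∀ l ∈ C, e l ∉ U₀)
    (hP₀ : ∀ j ∈ P₀, linE (fun c => z (Sum.inr (j, c))) x = 0)
    (hU₀ : ∀ j ∈ U₀, linE (fun c => z (Sum.inr (j, c))) x = 0 ∨
      ∀ w, (linE (fun c => z (Sum.inr (j, c))) x : ℂ → ℂ) w ≠ 0)
    (hinc : ∀ l ∈ C, linE (fun c => z (Sum.inr (e l, c))) x = 0 ∨
      (∀ w, (linE (fun c => z (Sum.inr (e l, c))) x : ℂ → ℂ) w ≠ 0) ∨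
      (σ l ∈ C ∧ ∀ w, (linE (fun c => z (Sum.inr (e l, c))) x : ℂ → ℂ) w = 0 →
        (linE (fun c => z (Sum.inr (e (σ l), c))) x : ℂ → ℂ) w = 0) ∨ σ l ∈ S)
    (hnum : CycleNum (fun e => z (Sum.inl e)) x C.card S.card U₀.card
      (C = Finset.univ ∧ C.Nonempty)) (w w' : ℂ)
    (a b : Fin (n + 1)) : (x a : ℂ → ℂ) w * (x b : ℂ → ℂ) w' =
      (x b : ℂ → ℂ) w * (x a : ℂ → ℂ) w' := by
  classical
  by_contra hne
  set M : J → Fin (n + 1) → ℂ := fun j c => z (Sum.inr (j, c)) with hM
  have hmem : ∀ w, valAt x w ∈ spanOf x := fun w => Submodule.subset_span ⟨w, rfl⟩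
  -- the dimension of the span
  have hle : Module.finrank ℂ (spanOf x) ≤ n + 1 := by
    have h1 := Submodule.finrank_le (spanOf x)
    rwa [Module.finrank_fin_fun] at h1
  have hge : 2 ≤ Module.finrank ℂ (spanOf x) := by
    have h1 : LinearIndependent ℂ (![⟨valAt x w, hmem w⟩, ⟨valAt x w', hmem w'⟩] :
        Fin 2 → spanOf x) := by
      rw [LinearIndependent.pair_iff]
      intro s t hst
      have h2 := congrArg Subtype.val hst
      have h3 : ∀ c, s * (x c : ℂ → ℂ) w + t * (x c : ℂ → ℂ) w' = 0 := fun c => congrFun h2 c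
      have ha := h3 a
      have hb := h3 b
      have h4 : (x a : ℂ → ℂ) w * (x b : ℂ → ℂ) w' - (x b : ℂ → ℂ) w * (x a : ℂ → ℂ) w' ≠ 0 :=
        sub_ne_zero.mpr hne
      constructor
      · have h5 : s * ((x a : ℂ → ℂ) w * (x b : ℂ → ℂ) w' - (x b : ℂ → ℂ) w * (x a : ℂ → ℂ) w') =
            0 := by linear_combination (x b : ℂ → ℂ) w' * ha - (x a : ℂ → ℂ) w' * hb
        exact (mul_eq_zero.mp h5).resolve_right h4
      · have h5 : t * ((x a : ℂ → ℂ) w * (x b : ℂ → ℂ) w' - (x b : ℂ → ℂ) w * (x a : ℂ → ℂ) w') =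
            0 := by linear_combination (x a : ℂ → ℂ) w * hb - (x b : ℂ → ℂ) w * ha
        exact (mul_eq_zero.mp h5).resolve_right h4
    have h2 := h1.fintype_card_le_finrank
    rwa [Fintype.card_fin] at h2
  obtain ⟨k, hk⟩ : ∃ k, Module.finrank ℂ (spanOf x) = k + 1 :=
    ⟨Module.finrank ℂ (spanOf x) - 1, by omega⟩
  have hz' : AlgebraicIndependent ℚ fun e => z (Sum.inl e) := hz.comp _ Sum.inl_injective
  obtain ⟨cst, hcst, hlt, hcl⟩ := hnum k (by omega) (by omega) (fun q hq => by
    obtain ⟨Pv, hPv⟩ := hq.span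
    exact left_bound (by omega) hz' q (spanOf x) hk Pv hPv)
  have hq : ∀ q, (∃ Pv : Fin (r q + 1) → ℂ, (∀ v ∈ spanOf x, ∃ a : ℂ, ∀ i,
      lform (fun e => z (Sum.inl e)) q i v = a * Pv i) ∧ cst q ≤ r q * k) ∨
      ∃ τ : ℕ, (∀ v ∈ spanOf x, ∑ i : Fin (r q + 1), (τ : ℂ) ^ (i : ℕ) *
        lform (fun e => z (Sum.inl e)) q i v = 0) ∧ cst q ≤ k + 1 := by
    intro q
    rcases hcst q with ⟨h1, h2⟩ | ⟨h1, h2⟩
    · obtain ⟨Pv, hPv⟩ := h1.span
      exact Or.inl ⟨Pv, hPv, h2⟩
    · obtain ⟨τ, hτ⟩ := h1.span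
      exact Or.inr ⟨τ, hτ, h2⟩
  -- the three kinds of forms
  set P : Finset V := C.filter fun l => linE (M (e l)) x = 0 with hP
  set U : Finset V := C.filter fun l => ∀ w, (linE (M (e l)) x : ℂ → ℂ) w ≠ 0 with hU
  set Z : Finset V := C.filter fun l => linE (M (e l)) x ≠ 0 ∧
    ∃ w, (linE (M (e l)) x : ℂ → ℂ) w = 0 with hZ
  have hPC : P ⊆ C := Finset.filter_subset _ _
  have hUC : U ⊆ C := Finset.filter_subset _ _
  have hZC : Z ⊆ C := Finset.filter_subset _ _
  have hPU : Disjoint P U := by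
    rw [Finset.disjoint_left]
    intro j h1 h2
    apply (Finset.mem_filter.mp h2).2 0
    rw [(Finset.mem_filter.mp h1).2]
    rfl
  have hPZ : Disjoint P Z := by
    rw [Finset.disjoint_left]
    intro j h1 h2
    exact (Finset.mem_filter.mp h2).2.1 (Finset.mem_filter.mp h1).2
  have hUZ : Disjoint U Z := by
    rw [Finset.disjoint_left]
    intro j h1 h2
    obtain ⟨-, w, hw⟩ := (Finset.mem_filter.mp h2).2
    exact (Finset.mem_filter.mp h1).2 w hw
  have hcardC : P.card + Z.card + U.card = C.card := by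
    rw [← Finset.card_union_of_disjoint hPZ, ← Finset.card_union_of_disjoint
      (Finset.disjoint_union_left.mpr ⟨hPU, hUZ.symm⟩)]
    congr 1
    ext j
    constructor
    · intro h
      rcases Finset.mem_union.mp h with h1 | h1
      · rcases Finset.mem_union.mp h1 with h2 | h2
        · exact hPC h2
        · exact hZC h2
      · exact hUC h1
    · intro hj
      by_cases h1 : linE (M (e j)) x = 0
      · exact Finset.mem_union_left _ (Finset.mem_union_left _ (Finset.mem_filter.mpr ⟨hj, h1⟩))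
      by_cases h2 : ∀ w, (linE (M (e j)) x : ℂ → ℂ) w ≠ 0
      · exact Finset.mem_union_right _ (Finset.mem_filter.mpr ⟨hj, h2⟩)
      · push Not at h2
        exact Finset.mem_union_left _ (Finset.mem_union_right _
          (Finset.mem_filter.mpr ⟨hj, h1, h2⟩))
  have himg : ∀ T : Finset V, T ⊆ C → (T.image e).card = T.card := fun T hT =>
    Finset.card_image_of_injOn fun i hi j hj h => he i (hT hi) j (hT hj) h
  have himgd : ∀ T T' : Finset V, T ⊆ C → T' ⊆ C → Disjoint T T' →
      Disjoint (T.image e) (T'.image e) := by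
    intro T T' hT hT' hd
    rw [Finset.disjoint_left]
    intro j h1 h2
    obtain ⟨l, hl, rfl⟩ := Finset.mem_image.mp h1
    obtain ⟨l', hl', h3⟩ := Finset.mem_image.mp h2
    have h4 := he l' (hT' hl') l (hT hl) h3
    subst h4
    exact Finset.disjoint_left.mp hd hl hl'
  have himg0 : ∀ T : Finset V, T ⊆ C → Disjoint (T.image e) P₀ ∧ Disjoint (T.image e) U₀ := by
    intro T hT
    constructor
    · rw [Finset.disjoint_left]
      intro j h1 h2
      obtain ⟨l, hl, rfl⟩ := Finset.mem_image.mp h1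
      exact heP l (hT hl) h2
    · rw [Finset.disjoint_left]
      intro j h1 h2
      obtain ⟨l, hl, rfl⟩ := Finset.mem_image.mp h1
      exact heU l (hT hl) h2
  -- the forms `U₀` which vanish identically and those which have no zeros
  set Uz : Finset J := U₀.filter fun j => linE (M j) x = 0 with hUz
  set Un : Finset J := U₀.filter fun j => ¬ linE (M j) x = 0 with hUn
  have hUzU : Uz ⊆ U₀ := Finset.filter_subset _ _
  have hUnU : Un ⊆ U₀ := Finset.filter_subset _ _
  have hUzn : Disjoint Uz Un := Finset.disjoint_filter_filter_not _ _ _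
  have hUcard₀ : Uz.card + Un.card = U₀.card := Finset.card_filter_add_card_filter_not _
  set P' : Finset J := P.image e ∪ P₀ ∪ Uz with hP'
  set U' : Finset J := U.image e ∪ Un with hU'
  set A' : Finset J := Z.image e with hA'
  have hP'card : P'.card = P.card + P₀.card + Uz.card := by
    rw [hP', Finset.card_union_of_disjoint (Finset.disjoint_union_left.mpr
      ⟨Finset.disjoint_of_subset_right hUzU (himg0 P hPC).2,
        Finset.disjoint_of_subset_right hUzU hPU₀⟩),
      Finset.card_union_of_disjoint (himg0 P hPC).1, himg P hPC]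
  have hU'card : U'.card = U.card + Un.card := by
    rw [hU', Finset.card_union_of_disjoint (Finset.disjoint_of_subset_right hUnU (himg0 U hUC).2),
      himg U hUC]
  have hA'card : A'.card = Z.card := himg Z hZC
  have hPU' : Disjoint P' U' := by
    rw [hP', hU', Finset.disjoint_union_left, Finset.disjoint_union_left,
      Finset.disjoint_union_right, Finset.disjoint_union_right, Finset.disjoint_union_right]
    exact ⟨⟨⟨himgd P U hPC hUC hPU, Finset.disjoint_of_subset_right hUnU (himg0 P hPC).2⟩,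
      (himg0 U hUC).1.symm, Finset.disjoint_of_subset_right hUnU hPU₀⟩,
      (Finset.disjoint_of_subset_right hUzU (himg0 U hUC).2).symm, hUzn⟩
  have hPA' : Disjoint P' A' := by
    rw [hP', hA', Finset.disjoint_union_left, Finset.disjoint_union_left]
    exact ⟨⟨himgd P Z hPC hZC hPZ, (himg0 Z hZC).1.symm⟩,
      (Finset.disjoint_of_subset_right hUzU (himg0 Z hZC).2).symm⟩
  have hUA' : Disjoint U' A' := by
    rw [hU', hA', Finset.disjoint_union_left]
    exact ⟨himgd U Z hUC hZC hUZ, (Finset.disjoint_of_subset_right hUnU (himg0 Z hZC).2).symm⟩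
  have hU'ne : ∀ j ∈ U', ∀ w, (linE (M j) x : ℂ → ℂ) w ≠ 0 := by
    intro j hj
    rcases Finset.mem_union.mp hj with h1 | h1
    · obtain ⟨l, hl, rfl⟩ := Finset.mem_image.mp h1
      exact (Finset.mem_filter.mp hl).2
    · exact (hU₀ j (hUnU h1)).resolve_left (Finset.mem_filter.mp h1).2
  have hP'v : ∀ j ∈ P', ∀ v ∈ spanOf x, linv (fun c => z (Sum.inr (j, c))) v = 0 := by
    intro j hj v hv
    rcases Finset.mem_union.mp hj with h1 | h1
    · rcases Finset.mem_union.mp h1 with h1 | h1
      · obtain ⟨l, hl, rfl⟩ := Finset.mem_image.mp h1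
        exact linv_eq_zero_of_linE (Finset.mem_filter.mp hl).2 hv
      · exact linv_eq_zero_of_linE (hP₀ j h1) hv
    · exact linv_eq_zero_of_linE (Finset.mem_filter.mp h1).2 hv
  obtain ⟨Cl, rep, hClU, hCl, hUcard⟩ := exists_classes M x hk U' hU'ne
  -- no points
  have hcount0 := genpos_subspace hz (spanOf x) hk P' Cl ∅
    (Finset.disjoint_of_subset_right hClU hPU') (Finset.disjoint_empty_right _)
    (Finset.disjoint_empty_right _) hP'v rep hCl (fun t : Fin 0 => t.elim0) (fun t => t.elim0)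
    (fun t => t.elim0) (fun j hj => absurd hj (Finset.notMem_empty j)) cst hq
  rw [Fintype.card_fin, Finset.card_empty, hP'card] at hcount0
  -- the zero sets
  set E : V → Set ℂ := fun l => if l ∈ S then Set.univ else {w | (linE (M (e l)) x : ℂ → ℂ) w = 0}
    with hE
  have hEC : ∀ l ∈ C, E l = {w | (linE (M (e l)) x : ℂ → ℂ) w = 0} := by
    intro l hl
    simp only [hE, if_neg (Finset.disjoint_left.mp hCS hl)]
  have hPS : Disjoint P S := Finset.disjoint_of_subset_left hPC hCS
  have hPSZ : Disjoint (P ∪ S) Z := by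
    rw [Finset.disjoint_union_left]
    exact ⟨hPZ, (Finset.disjoint_of_subset_left hZC hCS).symm⟩
  have hstep : ∀ j ∈ Z, (σ j ∈ P ∪ S ∨ σ j ∈ Z) ∧ E j ⊆ E (σ j) := by
    intro j hj
    obtain ⟨h1, w, hw⟩ := (Finset.mem_filter.mp hj).2
    rcases hinc j (hZC hj) with h3 | h3 | ⟨h3, h4⟩ | h3
    · exact absurd h3 h1
    · exact absurd hw (h3 w)
    · constructor
      · by_cases h5 : linE (M (e (σ j))) x = 0
        · exact Or.inl (Finset.mem_union_left _ (Finset.mem_filter.mpr ⟨h3, h5⟩))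
        · exact Or.inr (Finset.mem_filter.mpr ⟨h3, h5, w, h4 w hw⟩)
      · rw [hEC j (hZC hj), hEC _ h3]
        exact h4
    · refine ⟨Or.inl (Finset.mem_union_right _ h3), ?_⟩
      simp only [hE, if_pos h3]
      exact Set.subset_univ _
  have hUle : U.card + Un.card ≤ Cl.card + (k + 1) := by
    rw [← hU'card]
    exact hUcard
  have hkCl : k * (U.card + U₀.card - (k + 1)) ≤ k * (Cl.card + Uz.card) :=
    Nat.mul_le_mul_left _ (by omega)
  have hkCl' : k * (Cl.card + Uz.card) ≤ k * Cl.card + (k + 1) * Uz.card := by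
    have h1 : (k + 1) * Uz.card = k * Uz.card + Uz.card := by ring
    rw [mul_add]
    omega
  have hsplit : (k + 1) * (P.card + P₀.card + Uz.card) =
      (k + 1) * (P.card + P₀.card) + (k + 1) * Uz.card := by ring
  have hkP : (k + 1) * (P.card + S.card) ≤ (k + 1) * (P.card + P₀.card) :=
    Nat.mul_le_mul_left _ (by omega)
  rcases exists_zero_points σ hinj horb (P ∪ S) Z hPSZ E
    (fun j hj => by
      rw [hEC j (hZC hj)]
      exact (Finset.mem_filter.mp hj).2.2) hstep with ⟨v, hv⟩ | ⟨hP0, hZu, v, hv⟩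
  · have h1 := genpos_subspace hz (spanOf x) hk P' Cl A'
      (Finset.disjoint_of_subset_right hClU hPU') hPA' (Finset.disjoint_of_subset_left hClU hUA')
      hP'v rep hCl (fun t => valAt x (v t)) (fun t => hmem _) (fun t => hx0 _)
      (fun j hj => by
        obtain ⟨l, hl, rfl⟩ := Finset.mem_image.mp hj
        obtain ⟨t, ht⟩ := hv l hl
        refine ⟨t, ?_⟩
        rw [← linE_apply]
        rw [hEC l (hZC hl)] at ht
        exact ht) cst hq
    rw [Fintype.card_coe, Finset.card_union_of_disjoint hPS, hP'card, hA'card] at h1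
    have hcond : Z.card = 0 ∨ 0 < P.card + S.card := by
      rcases Finset.eq_empty_or_nonempty Z with h2 | ⟨l, hl⟩
      · left
        rw [h2, Finset.card_empty]
      · right
        obtain ⟨t, -⟩ := hv l hl
        rw [← Finset.card_union_of_disjoint hPS]
        exact Finset.card_pos.mpr ⟨t.1, t.2⟩
    have h2 := hlt P.card Z.card U.card hcardC hcond
    unfold cycleCost at h2
    have h3 : (k + 1) * (P.card + P₀.card) = k * (P.card + P₀.card) + (P.card + P₀.card) := by
      ring
    have h4 : k * (P.card + S.card) ≤ k * (P.card + P₀.card) :=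
      Nat.mul_le_mul_left _ (by omega)
    rcases max_cases ((k + 1) * (P.card + S.card)) (P.card + S.card + Z.card) with
      ⟨h5, -⟩ | ⟨h5, -⟩
    · rw [h5] at h2
      omega
    · rw [h5] at h2
      omega
  · have hCu : C = Finset.univ := Finset.univ_subset_iff.mp (hZu ▸ hZC)
    obtain ⟨hPe, hSe⟩ := Finset.union_eq_empty.mp hP0
    have hZc : Z = C := by rw [hZu, hCu]
    have hCne : C.card = 0 ∨ C.Nonempty := by
      rcases Finset.eq_empty_or_nonempty C with h2 | h2
      · left
        rw [h2, Finset.card_empty]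
      · exact Or.inr h2
    rcases hCne with hC0 | hCne
    · -- no linear forms in the cycle
      have h2 := hlt 0 0 0 (by rw [hC0]) (Or.inl rfl)
      unfold cycleCost at h2
      rw [hSe, Finset.card_empty] at h2
      have h3 : k * (0 + U₀.card - (k + 1)) ≤ k * (U.card + U₀.card - (k + 1)) :=
        Nat.mul_le_mul_left _ (by omega)
      simp only [zero_add, add_zero, mul_zero, max_self] at h2 h3
      omega
    have hlt2 := hcl ⟨hCu, hCne⟩
    by_cases hc : k ≤ C.card
    · have h1 := genpos_subspace hz (spanOf x) hk ∅ ∅ A' (Finset.disjoint_empty_left _)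
        (Finset.disjoint_empty_left _) (Finset.disjoint_empty_left _)
        (fun j hj => absurd hj (Finset.notMem_empty j)) rep
        (fun j hj => absurd hj (Finset.notMem_empty j))
        (fun _ : Unit => valAt x v) (fun t => hmem _) (fun t => hx0 _)
        (fun j hj => ⟨(), by
          obtain ⟨l, hl, rfl⟩ := Finset.mem_image.mp hj
          rw [← linE_apply]
          have h2 := hv l
          rw [hEC l (hZC hl)] at h2
          exact h2⟩) cst hq
      rw [Finset.card_empty, hA'card, hZc, Fintype.card_unit] at h1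
      omega
    · omega

end Pool.Agent.H62.Chain
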