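import Pool.Agent.H62.Chain.Inc

/-!
# Stability of hyperbolicity with inclusions between zero sets
-/

open Topology Filter

namespace Pool.Agent.H62.Chain

open Pool.Agent.H17 Pool.Agent.H62.Log

variable {N : ℕ}

/-- Every entire curve in the common zero locus of the forms `G` along which, for each `i`, the form
`A i` vanishes identically or its zeros are zeros of `B i`, is constant. -/
def IncHyp {κ ι : Type} (G : κ → MvPolynomial (Fin (N + 1)) ℂ)
    (A B : ι → MvPolynomial (Fin (N + 1)) ℂ) : Prop :=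
  ∀ f : ℂ → PN N, HolomorphicInto f Set.univ → (∀ z, f z ∈ zeroLocus G) →
    Inc A B f Set.univ → ∀ z w, f z = f w

/-- **The uniform modulus of continuity.** -/
theorem uniform_modulus_inc {κ ι : Type} {d : κ → ℕ} {e e' : ι → ℕ} {Gk : ℕ → κ → MvPolynomial (Fin (N + 1)) ℂ}
    {G : κ → MvPolynomial (Fin (N + 1)) ℂ} (hGk : ∀ k l, (Gk k l).IsHomogeneous (d l))
    (hG : ∀ l, (G l).IsHomogeneous (d l))
    (hlim : ∀ l m, Tendsto (fun k => (Gk k l).coeff m) atTop (𝓝 ((G l).coeff m)))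
    {A B : ι → MvPolynomial (Fin (N + 1)) ℂ}
    (hA : ∀ l, (A l).IsHomogeneous (e l)) (hB : ∀ l, (B l).IsHomogeneous (e' l))
    (hX : IncHyp G A B) {δ : ℝ} (hδ : 0 < δ) (hδ2 : δ ≤ 1 / 2) :
    ∃ ρ > 0, ∀ᶠ k in atTop, ∀ f : ℂ → PN N, HolomorphicInto f (Metric.ball 0 1) →
      (∀ z ∈ Metric.ball (0 : ℂ) 1, f z ∈ zeroLocus (Gk k)) →
      Inc A B f (Metric.ball 0 1) →
      ∀ z ∈ Metric.ball (0 : ℂ) ρ, sep (f z) (f 0) ≤ δ := by
  by_contra hcon
  push Not at hcon
  set K : ℕ → ℝ := fun j => (j : ℝ) + 1 with hK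
  set r₀ : ℕ → ℝ := fun j => 1 / (4 * (K j + 1)) with hr₀
  have hKpos : ∀ j, 0 < K j := fun j => by
    simp only [hK]
    positivity
  have hr₀pos : ∀ j, 0 < r₀ j := fun j => by
    have := hKpos j
    simp only [hr₀]
    positivity
  have hKr : ∀ j, 2 * (K j + 1) * r₀ j ≤ 1 / 2 := fun j => by
    have := hKpos j
    simp only [hr₀]
    apply le_of_eq
    field_simp
    norm_num
  have hex : ∀ j : ℕ, ∃ (k : ℕ) (f : ℂ → PN N), j ≤ k ∧ HolomorphicInto f (Metric.ball 0 1) ∧
      (∀ z ∈ Metric.ball (0 : ℂ) 1, f z ∈ zeroLocus (Gk k)) ∧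
      Inc A B f (Metric.ball 0 1) ∧ BadAt f δ 0 (r₀ j) := by
    intro j
    obtain ⟨k, hk1, f, hf1, hf2, hf2', z, hz1, hz2⟩ :=
      (frequently_atTop.mp (hcon (r₀ j) (hr₀pos j))) j
    exact ⟨k, f, hk1, hf1, hf2, hf2', z, hz1, hz2⟩
  choose k f hk hf1 hf2 hf2' hf3 using hex
  choose a r ha hr hrr hbad hgood using fun j =>
    point_picking (hf1 j) hδ (hKpos j) (hr₀pos j) (hKr j) (hf3 j)
  choose y hy1 hy2 using hbad
  have hmaps : ∀ j, ∀ ζ ∈ Metric.ball (0 : ℂ) (K j + 1), a j + r j * ζ ∈ Metric.ball (0 : ℂ) 1 := by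
    intro j ζ hζ
    rw [mem_ball_zero_iff] at hζ ⊢
    have h1 : ‖a j + r j * ζ‖ ≤ ‖a j‖ + r j * ‖ζ‖ := by
      refine (norm_add_le _ _).trans ?_
      rw [norm_mul, Complex.norm_real, Real.norm_of_nonneg (hr j).le]
    have h2 := ha j
    have h3 := hKr j
    have h4 := hrr j
    have h5 := hKpos j
    have h6 := hr₀pos j
    have h7 : r j * ‖ζ‖ ≤ r₀ j * (K j + 1) := by gcongr
    nlinarith
  obtain ⟨F, hF1, hF2, hF3, z, w, hzw⟩ := brody_limit_inc (fun j => hGk (k j)) hG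
    (fun l m => (hlim l m).comp (tendsto_atTop_mono hk tendsto_id)) hA hB
    (g := fun j ζ => f j (a j + r j * ζ)) (K := K) (δ := δ)
    (ζ₁ := fun j => (y j - a j) / r j)
    (by
      simp only [hK]
      exact tendsto_atTop_add_const_right _ _ tendsto_natCast_atTop_atTop)
    (fun j => (hf1 j).comp (fun z _ => by fun_prop) (hmaps j))
    (fun j ζ hζ => hf2 j _ (hmaps j ζ hζ))
    (fun j => (hf2' j).comp (hmaps j))
    (by
      intro j ζ hζ w hw
      have h1 : a j + r j * ζ ∈ Metric.ball (a j) (K j * r j) := by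
        rw [mem_ball_iff_norm, add_sub_cancel_left, norm_mul, Complex.norm_real,
          Real.norm_of_nonneg (hr j).le, mul_comm]
        rw [mem_ball_zero_iff] at hζ
        have := hr j
        gcongr
      have h2 := hgood j _ h1
      unfold BadAt at h2
      push Not at h2
      refine (h2 (a j + r j * w) ?_).trans hδ2
      rw [mem_ball_iff_norm] at hw ⊢
      have h3 : a j + r j * w - (a j + r j * ζ) = r j * (w - ζ) := by ring
      rw [h3, norm_mul, Complex.norm_real, Real.norm_of_nonneg (hr j).le]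
      have := hr j
      nlinarith)
    hδ
    (by
      intro j
      have h1 := hy1 j
      rw [mem_ball_iff_norm] at h1
      rw [mem_ball_zero_iff, norm_div, Complex.norm_real, Real.norm_of_nonneg (hr j).le,
        div_lt_one (hr j)]
      exact h1)
    (by
      intro j
      have h1 := hy2 j
      have h2 : (r j : ℂ) ≠ 0 := by exact_mod_cast (hr j).ne'
      have h3 : a j + r j * ((y j - a j) / r j) = y j := by
        field_simp
        ring
      have h4 : a j + (r j : ℂ) * 0 = a j := by ring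
      simp only [h3, h4]
      exact h1)
  exact hzw (hX F hF1 hF2 hF3 z w)


/-- Rescaling of an entire curve. -/
lemma const_of_modulus_inc {κ ι : Type} {G : κ → MvPolynomial (Fin (N + 1)) ℂ}
    {A B : ι → MvPolynomial (Fin (N + 1)) ℂ} {ρ : ℝ} (hρ : 0 < ρ)
    (hmod : ∀ f : ℂ → PN N, HolomorphicInto f (Metric.ball 0 1) →
      (∀ z ∈ Metric.ball (0 : ℂ) 1, f z ∈ zeroLocus G) → Inc A B f (Metric.ball 0 1) →
      ∀ z ∈ Metric.ball (0 : ℂ) ρ, sep (f z) (f 0) ≤ 1 / 2)
    {f : ℂ → PN N} (hf : HolomorphicInto f Set.univ) (hfX : ∀ z, f z ∈ zeroLocus G)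
    (hfH : Inc A B f Set.univ) (z w : ℂ) : f z = f w := by
  refine const_of_sep_le hf (fun z => ?_) z w
  set R : ℝ := 2 * (‖z‖ + 1) / ρ with hR
  have hRpos : 0 < R := by positivity
  have h1 := hmod (fun y => f (R * y)) (hf.comp (fun z _ => by fun_prop) fun z _ => Set.mem_univ _)
    (fun y _ => hfX _) (hfH.comp fun z _ => Set.mem_univ _) (z / R) (by
      rw [mem_ball_zero_iff, norm_div, Complex.norm_real, Real.norm_of_nonneg hRpos.le,
        div_lt_iff₀ hRpos, hR]
      have := norm_nonneg z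
      field_simp
      linarith)
  have h2 : (R : ℂ) ≠ 0 := by exact_mod_cast hRpos.ne'
  have h3 : (R : ℂ) * (z / R) = z := by field_simp
  simp only [h3, mul_zero] at h1
  exact h1

/-- **Stability along sequences.** -/
theorem incHyp_of_tendsto {κ ι : Type} {d : κ → ℕ} {e e' : ι → ℕ}
    {Gk : ℕ → κ → MvPolynomial (Fin (N + 1)) ℂ} {G : κ → MvPolynomial (Fin (N + 1)) ℂ}
    (hGk : ∀ k l, (Gk k l).IsHomogeneous (d l)) (hG : ∀ l, (G l).IsHomogeneous (d l))
    (hlim : ∀ l m, Tendsto (fun k => (Gk k l).coeff m) atTop (𝓝 ((G l).coeff m)))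
    {A B : ι → MvPolynomial (Fin (N + 1)) ℂ}
    (hA : ∀ l, (A l).IsHomogeneous (e l)) (hB : ∀ l, (B l).IsHomogeneous (e' l))
    (hX : IncHyp G A B) : ∀ᶠ k in atTop, IncHyp (Gk k) A B := by
  obtain ⟨ρ, hρ, hev⟩ := uniform_modulus_inc hGk hG hlim hA hB hX
    (δ := 1 / 2) (by norm_num) le_rfl
  filter_upwards [hev] with k hk f hf hfX hfH
  exact const_of_modulus_inc hρ hk hf hfX hfH

end Pool.Agent.H62.Chain
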