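import Pool.Agent.H62.Chain.Cert
import Pool.Agent.H62.Chain.IncStab

/-!
# The forms of the cycle
-/

open Polynomial Topology Filter

namespace Pool.Agent.H62.Chain

open Pool.Agent.H17 Pool.Agent.H17.EntFun Pool.Agent.H92.GGL Pool.Agent.H79.Log Pool.Agent.H62.Log

/-- A cyclic permutation of a finite type. -/
lemma exists_cyclic (V : Type) [Fintype V] :
    ∃ σ : V → V, Function.Injective σ ∧ ∀ i j, ∃ s, σ^[s] i = j := by
  rcases Nat.eq_zero_or_pos (Fintype.card V) with h0 | hpos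
  · have hV : IsEmpty V := Fintype.card_eq_zero_iff.mp h0
    exact ⟨id, Function.injective_id, fun i => (hV.false i).elim⟩
  · obtain ⟨k, hk⟩ : ∃ k, Fintype.card V = k + 1 := ⟨Fintype.card V - 1, by omega⟩
    have e : V ≃ ZMod (k + 1) := Fintype.equivOfCardEq (by rw [ZMod.card, hk])
    set σ : V → V := fun v => e.symm (e v + 1) with hσ
    have hit : ∀ (s : ℕ) v, e (σ^[s] v) = e v + (s : ZMod (k + 1)) := by
      intro s v
      induction s with
      | zero => simp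
      | succ s ih =>
        rw [Function.iterate_succ_apply']
        have h1 : e (σ (σ^[s] v)) = e (σ^[s] v) + 1 := by
          simp only [hσ, Equiv.apply_symm_apply]
        rw [h1, ih]
        push_cast
        ring
    refine ⟨σ, fun v w h => ?_, fun i j => ⟨(e j - e i).val, ?_⟩⟩
    · have h1 := e.symm.injective h
      exact e.injective (add_right_cancel h1)
    · apply e.injective
      rw [hit, ZMod.natCast_zmod_val]
      ring

variable {n c m a b s : ℕ} {d : Fin c → ℕ} {δ : Fin m → ℕ}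

/-- The equations of the cycle. -/
noncomputable def cycForm (hd : ∀ l, 1 ≤ d l) (M : LIdx d δ → Fin (n + 1) → ℂ)
    (nxt : Fin c → Fin (n + 1) → ℂ) (ε : ℂ) (l : Fin c) : MvPolynomial (Fin (n + c + 1)) ℂ :=
  factForm M l ⟨0, hd l⟩ ^ (d l - 1) *
    (MvPolynomial.X (wIdx l) + baseLin c (M (Sum.inr ⟨l, ⟨0, hd l⟩⟩))) +
      MvPolynomial.C ε * baseLin c (nxt l) ^ d l

lemma cycForm_isHomogeneous (hd : ∀ l, 1 ≤ d l) (M : LIdx d δ → Fin (n + 1) → ℂ)
    (nxt : Fin c → Fin (n + 1) → ℂ) (ε : ℂ) (l : Fin c) :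
    (cycForm hd M nxt ε l).IsHomogeneous (d l) := by
  have h1 := (factForm_isHomogeneous M l ⟨0, hd l⟩).pow (d l - 1)
  have h2 : (MvPolynomial.X (wIdx l) + baseLin c (M (Sum.inr ⟨l, ⟨0, hd l⟩⟩)) :
      MvPolynomial (Fin (n + c + 1)) ℂ).IsHomogeneous 1 :=
    (MvPolynomial.isHomogeneous_X _ _).add (baseLin_isHomogeneous c _)
  have h3 := h1.mul h2
  rw [one_mul, Nat.sub_add_cancel (hd l)] at h3
  refine h3.add ?_
  have h4 := (baseLin_isHomogeneous c (nxt l)).pow (d l)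
  rw [one_mul] at h4
  have h5 := (MvPolynomial.isHomogeneous_C (Fin (n + c + 1)) ε).mul h4
  rwa [zero_add] at h5

/-- The equations. -/
noncomputable def Gf (role : Fin c → Role a b s m) (hd : ∀ l, 1 ≤ d l) (hδ : ∀ j, 1 ≤ δ j)
    (M : LIdx d δ → Fin (n + 1) → ℂ) (nxt : Fin c → Fin (n + 1) → ℂ)
    (Gb : Fin c → MvPolynomial (Fin (n + c + 1)) ℂ) (ε : ℂ) (l : Fin c) :
    MvPolynomial (Fin (n + c + 1)) ℂ :=
  match role l with
  | .cycle => cycForm hd M nxt ε l
  | .boundary j => asgForm M l ⟨j, ⟨0, hδ j⟩⟩ ε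
  | _ => Gb l

section

variable (role : Fin c → Role a b s m) (hd : ∀ l, 1 ≤ d l) (hδ : ∀ j, 1 ≤ δ j)
  (M : LIdx d δ → Fin (n + 1) → ℂ) (nxt : Fin c → Fin (n + 1) → ℂ)
  (Gb : Fin c → MvPolynomial (Fin (n + c + 1)) ℂ)

lemma Gf_cycle (ε : ℂ) {l : Fin c} (hl : role l = .cycle) :
    Gf role hd hδ M nxt Gb ε l = cycForm hd M nxt ε l := by
  unfold Gf
  rw [hl]

lemma Gf_boundary (ε : ℂ) {l : Fin c} {j : Fin m} (hl : role l = .boundary j) :
    Gf role hd hδ M nxt Gb ε l = asgForm M l ⟨j, ⟨0, hδ j⟩⟩ ε := by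
  unfold Gf
  rw [hl]

lemma Gf_block (ε : ℂ) {l : Fin c} (h1 : role l ≠ .cycle) (h2 : ∀ j, role l ≠ .boundary j) :
    Gf role hd hδ M nxt Gb ε l = Gb l := by
  unfold Gf
  rcases h : role l with q | q | q | _ | j | _
  · rfl
  · rfl
  · rfl
  · exact absurd h h1
  · exact absurd h (h2 j)
  · rfl

variable {Gb}

lemma Gf_isHomogeneous (hGb : ∀ l, (Gb l).IsHomogeneous (d l)) (ε : ℂ) (l : Fin c) :
    (Gf role hd hδ M nxt Gb ε l).IsHomogeneous (d l) := by
  by_cases h1 : role l = .cycle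
  · rw [Gf_cycle role hd hδ M nxt Gb ε h1]
    exact cycForm_isHomogeneous hd M nxt ε l
  by_cases h2 : ∃ j, role l = .boundary j
  · obtain ⟨j, h2⟩ := h2
    rw [Gf_boundary role hd hδ M nxt Gb ε h2]
    exact asgForm_isHomogeneous M l _ ε
  · push Not at h2
    rw [Gf_block role hd hδ M nxt Gb ε h1 h2]
    exact hGb l

lemma Gf_tendsto {ε : ℕ → ℂ} (hε : Tendsto ε atTop (𝓝 0)) (l : Fin c)
    (i : Fin (n + c + 1) →₀ ℕ) :
    Tendsto (fun k => (Gf role hd hδ M nxt Gb (ε k) l).coeff i) atTop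
      (𝓝 ((Gf role hd hδ M nxt Gb 0 l).coeff i)) := by
  have key : ∀ P R : MvPolynomial (Fin (n + c + 1)) ℂ,
      (∀ e, Gf role hd hδ M nxt Gb e l = P + MvPolynomial.C e * R) →
      Tendsto (fun k => (Gf role hd hδ M nxt Gb (ε k) l).coeff i) atTop
        (𝓝 ((Gf role hd hδ M nxt Gb 0 l).coeff i)) := by
    intro P R h
    have h1 : ∀ e, (Gf role hd hδ M nxt Gb e l).coeff i = P.coeff i + e * R.coeff i := by
      intro e
      rw [h, MvPolynomial.coeff_add, MvPolynomial.coeff_C_mul]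
    simp only [h1]
    exact tendsto_const_nhds.add (hε.mul tendsto_const_nhds)
  by_cases h1 : role l = .cycle
  · exact key _ _ fun e => Gf_cycle role hd hδ M nxt Gb e h1
  by_cases h2 : ∃ j, role l = .boundary j
  · obtain ⟨j, h2⟩ := h2
    exact key _ _ fun e => Gf_boundary role hd hδ M nxt Gb e h2
  · push Not at h2
    exact key (Gb l) 0 fun e => by rw [Gf_block role hd hδ M nxt Gb e h1 h2, mul_zero, add_zero]

end

/-- The boundary forms. -/
noncomputable def Hf (brole : Fin m → Option (Fin s)) (M : LIdx d δ → Fin (n + 1) → ℂ)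
    (Hb : Fin m → MvPolynomial (Fin (n + c + 1)) ℂ) (j : Fin m) :
    MvPolynomial (Fin (n + c + 1)) ℂ :=
  match brole j with
  | some _ => Hb j
  | none => bdForm c M j

lemma Hf_none {brole : Fin m → Option (Fin s)} (M : LIdx d δ → Fin (n + 1) → ℂ)
    (Hb : Fin m → MvPolynomial (Fin (n + c + 1)) ℂ) {j : Fin m} (hj : brole j = none) :
    Hf brole M Hb j = bdForm c M j := by
  unfold Hf
  rw [hj]

lemma Hf_some {brole : Fin m → Option (Fin s)} (M : LIdx d δ → Fin (n + 1) → ℂ)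
    (Hb : Fin m → MvPolynomial (Fin (n + c + 1)) ℂ) {j : Fin m} (hj : brole j ≠ none) :
    Hf brole M Hb j = Hb j := by
  obtain ⟨q, hq⟩ := Option.ne_none_iff_exists'.mp hj
  unfold Hf
  rw [hq]

lemma Hf_isHomogeneous (brole : Fin m → Option (Fin s)) (M : LIdx d δ → Fin (n + 1) → ℂ)
    {Hb : Fin m → MvPolynomial (Fin (n + c + 1)) ℂ} (hHb : ∀ j, (Hb j).IsHomogeneous (δ j))
    (j : Fin m) : (Hf brole M Hb j).IsHomogeneous (δ j) := by
  by_cases h : brole j = none
  · rw [Hf_none M Hb h]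
    exact bdForm_isHomogeneous M j
  · rw [Hf_some M Hb h]
    exact hHb j

/-- The closed system of a stratum. -/
noncomputable def ClF (role : Fin c → Role a b s m) (hd : ∀ l, 1 ≤ d l) (hδ : ∀ j, 1 ≤ δ j)
    (M : LIdx d δ → Fin (n + 1) → ℂ) (nxt : Fin c → Fin (n + 1) → ℂ)
    (Gb : Fin c → MvPolynomial (Fin (n + c + 1)) ℂ) (S : Finset (Fin m)) (t : ∀ j, Fin (δ j))
    (ε : ℂ) : Fin c ⊕ Fin m → MvPolynomial (Fin (n + c + 1)) ℂ :=
  Sum.elim (Gf role hd hδ M nxt Gb ε) fun j =>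
    if j ∈ S then baseLin c (M (Sum.inl ⟨j, t j⟩)) else 0

lemma ClF_isHomogeneous (role : Fin c → Role a b s m) (hd : ∀ l, 1 ≤ d l) (hδ : ∀ j, 1 ≤ δ j)
    (M : LIdx d δ → Fin (n + 1) → ℂ) (nxt : Fin c → Fin (n + 1) → ℂ)
    {Gb : Fin c → MvPolynomial (Fin (n + c + 1)) ℂ} (hGb : ∀ l, (Gb l).IsHomogeneous (d l))
    (S : Finset (Fin m)) (t : ∀ j, Fin (δ j)) (ε : ℂ) (i : Fin c ⊕ Fin m) :
    (ClF role hd hδ M nxt Gb S t ε i).IsHomogeneous (ClDeg m d i) := by
  rcases i with l | j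
  · exact Gf_isHomogeneous role hd hδ M nxt hGb ε l
  · unfold ClF ClDeg
    simp only [Sum.elim_inr]
    split_ifs
    · exact baseLin_isHomogeneous c _
    · exact MvPolynomial.isHomogeneous_zero _ _ _

lemma ClF_tendsto (role : Fin c → Role a b s m) (hd : ∀ l, 1 ≤ d l) (hδ : ∀ j, 1 ≤ δ j)
    (M : LIdx d δ → Fin (n + 1) → ℂ) (nxt : Fin c → Fin (n + 1) → ℂ)
    (Gb : Fin c → MvPolynomial (Fin (n + c + 1)) ℂ) (S : Finset (Fin m)) (t : ∀ j, Fin (δ j))
    {ε : ℕ → ℂ} (hε : Tendsto ε atTop (𝓝 0)) (l : Fin c ⊕ Fin m) (i : Fin (n + c + 1) →₀ ℕ) :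
    Tendsto (fun k => (ClF role hd hδ M nxt Gb S t (ε k) l).coeff i) atTop
      (𝓝 ((ClF role hd hδ M nxt Gb S t 0 l).coeff i)) := by
  rcases l with l | j
  · simp only [ClF, Sum.elim_inl]
    exact Gf_tendsto role hd hδ M nxt hε l i
  · simp only [ClF, Sum.elim_inr]
    exact tendsto_const_nhds

/-- Index type of the inclusions. -/
abbrev IIdx (d : Fin c → ℕ) (δ : Fin m → ℕ) : Type := (Fin c × Bool) ⊕ (LIdx d δ ⊕ Fin m)

open Classical in
/-- The forms whose zeros are restricted. -/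
noncomputable def IncA (role : Fin c → Role a b s m) (brole : Fin m → Option (Fin s))
    (hd : ∀ l, 1 ≤ d l) (M : LIdx d δ → Fin (n + 1) → ℂ)
    (Hb : Fin m → MvPolynomial (Fin (n + c + 1)) ℂ) (S : Finset (Fin m)) :
    IIdx d δ → MvPolynomial (Fin (n + c + 1)) ℂ :=
  Sum.elim (fun p => if role p.1 = .cycle then
      (if p.2 then factForm M p.1 ⟨0, hd p.1⟩ else
        MvPolynomial.X (wIdx p.1) + baseLin c (M (Sum.inr ⟨p.1, ⟨0, hd p.1⟩⟩))) else 0)
    (Sum.elim (Sum.elim (fun b => if brole b.1 = none ∧ b.1 ∉ S then baseLin c (M (Sum.inl b))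
        else 0)
      fun b => if ∃ j, j ∉ S ∧ role b.1 = .boundary j then factForm M b.1 b.2 else 0)
      fun j => if brole j = none then 0 else Hb j)

/-- The degrees. -/
def degA (d : Fin c → ℕ) (δ : Fin m → ℕ) : IIdx d δ → ℕ :=
  Sum.elim (fun _ => 1) (Sum.elim (fun _ => 1) δ)

lemma IncA_isHomogeneous (role : Fin c → Role a b s m) (brole : Fin m → Option (Fin s))
    (hd : ∀ l, 1 ≤ d l) (M : LIdx d δ → Fin (n + 1) → ℂ)
    {Hb : Fin m → MvPolynomial (Fin (n + c + 1)) ℂ} (hHb : ∀ j, (Hb j).IsHomogeneous (δ j))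
    (S : Finset (Fin m)) (i : IIdx d δ) :
    (IncA role brole hd M Hb S i).IsHomogeneous (degA d δ i) := by
  rcases i with p | (b | b) | j
  · unfold IncA degA
    simp only [Sum.elim_inl]
    split_ifs
    · exact factForm_isHomogeneous M _ _
    · exact (MvPolynomial.isHomogeneous_X _ _).add (baseLin_isHomogeneous c _)
    · exact MvPolynomial.isHomogeneous_zero _ _ _
  · unfold IncA degA
    simp only [Sum.elim_inl, Sum.elim_inr]
    split_ifs
    · exact baseLin_isHomogeneous c _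
    · exact MvPolynomial.isHomogeneous_zero _ _ _
  · unfold IncA degA
    simp only [Sum.elim_inl, Sum.elim_inr]
    split_ifs
    · exact factForm_isHomogeneous M _ _
    · exact MvPolynomial.isHomogeneous_zero _ _ _
  · unfold IncA degA
    simp only [Sum.elim_inr]
    split_ifs
    · exact MvPolynomial.isHomogeneous_zero _ _ _
    · exact hHb j

/-- The forms which vanish at the zeros of the forms `IncA`. -/
noncomputable def IncB (d : Fin c → ℕ) (δ : Fin m → ℕ) (nxt : Fin c → Fin (n + 1) → ℂ) :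
    IIdx d δ → MvPolynomial (Fin (n + c + 1)) ℂ :=
  Sum.elim (fun p => baseLin c (nxt p.1)) fun _ => 1

/-- The degrees. -/
def degB (d : Fin c → ℕ) (δ : Fin m → ℕ) : IIdx d δ → ℕ := Sum.elim (fun _ => 1) fun _ => 0

lemma IncB_isHomogeneous (d : Fin c → ℕ) (δ : Fin m → ℕ) (nxt : Fin c → Fin (n + 1) → ℂ)
    (i : IIdx d δ) : (IncB d δ nxt i).IsHomogeneous (degB d δ i) := by
  rcases i with p | i
  · exact baseLin_isHomogeneous c _
  · exact MvPolynomial.isHomogeneous_one _ _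

/-- The inclusions in terms of a lift. -/
lemma inc_lift {N : ℕ} {ι : Type} {e e' : ι → ℕ} {A B : ι → MvPolynomial (Fin (N + 1)) ℂ}
    (hA : ∀ i, (A i).IsHomogeneous (e i)) (hB : ∀ i, (B i).IsHomogeneous (e' i)) {f : ℂ → PN N}
    {x : Fin (N + 1) → EntFun}
    (hx : ∀ z, ∃ h : (fun j => (x j : ℂ → ℂ) z) ≠ 0, f z = Projectivization.mk ℂ _ h) :
    Inc A B f Set.univ ↔ ∀ i, MvPolynomial.aeval x (A i) = (0 : EntFun) ∨
      ∀ w, ((MvPolynomial.aeval x (A i) : EntFun) : ℂ → ℂ) w = 0 →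
        ((MvPolynomial.aeval x (B i) : EntFun) : ℂ → ℂ) w = 0 := by
  constructor
  · intro h i
    rcases h i with h1 | h1
    · left
      ext w
      exact (vanishesAt_iff_aeval (hA i) hx w).mp (h1 w (Set.mem_univ _))
    · right
      intro w h2
      exact (vanishesAt_iff_aeval (hB i) hx w).mp
        (h1 w (Set.mem_univ _) ((vanishesAt_iff_aeval (hA i) hx w).mpr h2))
  · intro h i
    rcases h i with h1 | h1
    · left
      intro w _
      rw [vanishesAt_iff_aeval (hA i) hx w, h1]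
      rfl
    · right
      intro w _ h2
      exact (vanishesAt_iff_aeval (hB i) hx w).mpr
        (h1 w ((vanishesAt_iff_aeval (hA i) hx w).mp h2))

end Pool.Agent.H62.Chain
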