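import Pool.Agent.H62.Chain.Pivot

/-!
# General position of generic linear forms with respect to a subspace
-/

namespace Pool.Agent.H62.Chain

open Pool.Agent.H92.GGL Pool.Agent.H79.Log

lemma linv_mem {n : ℕ} {𝔸 : Subalgebra ℚ ℂ} {M v : Fin (n + 1) → ℂ} (hM : ∀ c, M c ∈ 𝔸)
    (hv : ∀ c, v c ∈ 𝔸) : linv M v ∈ 𝔸 := by
  rw [linv_apply]
  exact sum_mem fun c _ => mul_mem (hM c) (hv c)

lemma linv_pivot {n k : ℕ} {p : Fin (k + 1) → Fin (n + 1)} {R : Fin (k + 1) → Fin (n + 1) → ℂ}
    (hp : Function.Injective p) (hR : ∀ a b, R a (p b) = if a = b then 1 else 0)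
    (M : Fin (n + 1) → ℂ) (a : Fin (k + 1)) :
    linv M (R a) = M (p a) + ∑ c ∈ Finset.univ.filter (fun c => c ∉ Finset.univ.image p),
      M c * R a c := by
  classical
  rw [linv_apply, ← Finset.sum_filter_add_sum_filter_not Finset.univ
    (fun c => c ∈ Finset.univ.image p)]
  congr 1
  rw [Finset.filter_mem_eq_inter, Finset.univ_inter, Finset.sum_image fun x _ y _ h => hp h,
    Finset.sum_eq_single a]
  · rw [hR, if_pos rfl, mul_one]
  · intro b _ hb
    rw [hR, if_neg (Ne.symm hb), mul_zero]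
  · intro h
    exact absurd (Finset.mem_univ a) h

lemma all_mem_of_pivot {n k : ℕ} {p : Fin (k + 1) → Fin (n + 1)}
    {R : Fin (k + 1) → Fin (n + 1) → ℂ} (hp : Function.Injective p)
    (hR : ∀ a b, R a (p b) = if a = b then 1 else 0) {𝔸 : Subalgebra ℚ ℂ}
    (hRA : ∀ a c, R a c ∈ 𝔸) {M : Fin (n + 1) → ℂ}
    (hM : ∀ c, c ∉ Finset.univ.image p → M c ∈ 𝔸) (hL : ∀ a, linv M (R a) ∈ 𝔸)
    (c : Fin (n + 1)) : M c ∈ 𝔸 := by
  classical
  by_cases hc : c ∈ Finset.univ.image p
  · obtain ⟨a, -, rfl⟩ := Finset.mem_image.mp hc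
    have h1 := linv_pivot hp hR M a
    have h2 : M (p a) = linv M (R a) - ∑ c ∈ Finset.univ.filter
        (fun c => c ∉ Finset.univ.image p), M c * R a c := by
      rw [h1]
      ring
    rw [h2]
    exact sub_mem (hL a) (sum_mem fun c hc => mul_mem (hM c (Finset.mem_filter.mp hc).2) (hRA a c))
  · exact hM c hc

variable {Q J : Type} [Fintype Q] [Fintype J]

/-- **General position with respect to a subspace.** -/
theorem genpos_subspace [DecidableEq Q] [DecidableEq J] {r : Q → ℕ} {n k : ℕ}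
    {z : Entry₂ r n J → ℂ} (hz : AlgebraicIndependent ℚ z)
    (W : Submodule ℂ (Fin (n + 1) → ℂ)) (hW : Module.finrank ℂ W = k + 1)
    (P Cl A : Finset J) (hPC : Disjoint P Cl) (hPA : Disjoint P A) (hCA : Disjoint Cl A)
    (hP : ∀ j ∈ P, ∀ v ∈ W, linv (fun c => z (Sum.inr (j, c))) v = 0)
    (rep : J → J)
    (hCl : ∀ j ∈ Cl, rep j ∉ Cl ∧ ∃ lam : ℂ, ∀ v ∈ W, linv (fun c => z (Sum.inr (j, c))) v =
      lam * linv (fun c => z (Sum.inr (rep j, c))) v)
    {Zt : Type} [Fintype Zt] (T : Zt → Fin (n + 1) → ℂ)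
    (hTW : ∀ t, T t ∈ W) (hT0 : ∀ t, T t ≠ 0)
    (hA : ∀ j ∈ A, ∃ t, linv (fun c => z (Sum.inr (j, c))) (T t) = 0)
    (cst : Q → ℕ) (hq : ∀ q,
      (∃ Pv : Fin (r q + 1) → ℂ, (∀ v ∈ W, ∃ a : ℂ, ∀ i,
        lform (fun e => z (Sum.inl e)) q i v = a * Pv i) ∧ cst q ≤ r q * k) ∨
      ∃ τ : ℕ, (∀ v ∈ W, ∑ i : Fin (r q + 1), (τ : ℂ) ^ (i : ℕ) *
        lform (fun e => z (Sum.inl e)) q i v = 0) ∧ cst q ≤ k + 1) :
    (k + 1) * P.card + k * Cl.card + A.card + ∑ q, cst q ≤
      (k + 1) * (n - k) + k * Fintype.card Zt := by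
  classical
  obtain ⟨p, R, hp, hRW, hR, hexp⟩ := exists_pivot W hW
  set rng : Finset (Fin (n + 1)) := Finset.univ.image p with hrng
  have hrngcard : rng.card = k + 1 := by
    rw [hrng, Finset.card_image_of_injective _ hp, Finset.card_univ, Fintype.card_fin]
  set crng : Finset (Fin (n + 1)) := Finset.univ.filter fun c => c ∉ rng with hcrng
  have hcrngcard : crng.card + (k + 1) = n + 1 := by
    have h1 := Finset.card_filter_add_card_filter_not (s := (Finset.univ : Finset (Fin (n + 1))))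
      (fun c => c ∈ rng)
    rw [Finset.filter_mem_eq_inter, Finset.univ_inter, hrngcard, Finset.card_univ,
      Fintype.card_fin] at h1
    rw [hcrng]
    omega
  have hkn : k ≤ n := by omega
  have hcr : crng.card = n - k := by omega
  -- normalized points
  have hnorm : ∀ t, ∃ a : Fin (k + 1), T t (p a) ≠ 0 := by
    intro t
    by_contra hcon
    push Not at hcon
    apply hT0 t
    rw [hexp _ (hTW t)]
    exact Finset.sum_eq_zero fun a _ => by rw [hcon a, zero_smul]
  choose α hα using hnorm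
  set S : Zt → Fin (n + 1) → ℂ := fun t c => (T t (p (α t)))⁻¹ * T t c with hS
  have hSα : ∀ t, S t (p (α t)) = 1 := fun t => inv_mul_cancel₀ (hα t)
  have hSexp : ∀ t c, S t c = ∑ b, S t (p b) * R b c := by
    intro t c
    have h1 := congrFun (hexp _ (hTW t)) c
    rw [Finset.sum_apply] at h1
    simp only [hS]
    rw [h1, Finset.mul_sum]
    exact Finset.sum_congr rfl fun b _ => by rw [Pi.smul_apply, smul_eq_mul]; ring
  -- the parameters
  set B₁ : Finset ℂ := (Finset.univ ×ˢ crng).image fun x : Fin (k + 1) × Fin (n + 1) => R x.1 x.2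
    with hB₁
  set B₂ : Finset ℂ := (Finset.univ : Finset (Zt × Fin k)).image fun x =>
    S x.1 (p ((α x.1).succAbove x.2)) with hB₂
  have hB₁card : B₁.card ≤ (k + 1) * (n - k) := by
    refine Finset.card_image_le.trans ?_
    rw [Finset.card_product, Finset.card_univ, Fintype.card_fin, hcr]
  have hB₂card : B₂.card ≤ k * Fintype.card Zt := by
    refine Finset.card_image_le.trans ?_
    rw [Finset.card_univ, Fintype.card_prod, Fintype.card_fin, mul_comm]
  have hRmem : ∀ {𝒮 : Set ℂ}, (B₁ : Set ℂ) ⊆ 𝒮 → ∀ a c, R a c ∈ Algebra.adjoin ℚ 𝒮 := by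
    intro 𝒮 h𝒮 a c
    by_cases hc : c ∈ rng
    · obtain ⟨b, -, rfl⟩ := Finset.mem_image.mp hc
      rw [hR]
      split_ifs
      · exact one_mem _
      · exact zero_mem _
    · refine Algebra.subset_adjoin (h𝒮 ?_)
      rw [Finset.mem_coe, hB₁, Finset.mem_image]
      exact ⟨(a, c), Finset.mem_product.mpr ⟨Finset.mem_univ _,
        Finset.mem_filter.mpr ⟨Finset.mem_univ _, hc⟩⟩, rfl⟩
  have hSmem : ∀ {𝒮 : Set ℂ}, (B₁ : Set ℂ) ⊆ 𝒮 → (B₂ : Set ℂ) ⊆ 𝒮 →
      ∀ t c, S t c ∈ Algebra.adjoin ℚ 𝒮 := by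
    intro 𝒮 h1 h2 t c
    rw [hSexp]
    refine sum_mem fun b _ => mul_mem ?_ (hRmem h1 b c)
    by_cases hb : b = α t
    · rw [hb, hSα]
      exact one_mem _
    · obtain ⟨i, rfl⟩ := Fin.exists_succAbove_eq hb
      refine Algebra.subset_adjoin (h2 ?_)
      rw [Finset.mem_coe, hB₂, Finset.mem_image]
      exact ⟨(t, i), Finset.mem_univ _, rfl⟩
  -- the generators for the linear forms
  set M : J → Fin (n + 1) → ℂ := fun j c => z (Sum.inr (j, c)) with hM
  have hJ : ∀ j, ∃ s : Finset ℂ, s.card + ((if j ∈ P then k + 1 else 0) +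
      (if j ∈ Cl then k else 0) + if j ∈ A then 1 else 0) ≤ n + 1 ∧
      ∀ 𝒮 : Set ℂ, (B₁ : Set ℂ) ⊆ 𝒮 → (B₂ : Set ℂ) ⊆ 𝒮 → (s : Set ℂ) ⊆ 𝒮 →
        (j ∈ Cl → ∀ c, M (rep j) c ∈ Algebra.adjoin ℚ 𝒮) → ∀ c, M j c ∈ Algebra.adjoin ℚ 𝒮 := by
    intro j
    by_cases hjP : j ∈ P
    · have hjC : j ∉ Cl := Finset.disjoint_left.mp hPC hjP
      have hjA : j ∉ A := Finset.disjoint_left.mp hPA hjP
      refine ⟨crng.image (M j), ?_, ?_⟩
      · rw [if_pos hjP, if_neg hjC, if_neg hjA]
        have := Finset.card_image_le (s := crng) (f := M j)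
        omega
      · intro 𝒮 h1 h2 h3 _
        refine all_mem_of_pivot hp hR (hRmem h1) (fun c hc => ?_) (fun a => ?_)
        · exact Algebra.subset_adjoin (h3 (Finset.mem_image_of_mem _
            (Finset.mem_filter.mpr ⟨Finset.mem_univ _, hc⟩)))
        · rw [hP j hjP _ (hRW a)]
          exact zero_mem _
    by_cases hjC : j ∈ Cl
    · have hjA : j ∉ A := Finset.disjoint_left.mp hCA hjC
      obtain ⟨-, lam, hlam⟩ := hCl j hjC
      refine ⟨insert lam (crng.image (M j)), ?_, ?_⟩
      · rw [if_neg hjP, if_pos hjC, if_neg hjA]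
        have h1 := Finset.card_image_le (s := crng) (f := M j)
        have h2 := Finset.card_insert_le lam (crng.image (M j))
        omega
      · intro 𝒮 h1 h2 h3 h4
        refine all_mem_of_pivot hp hR (hRmem h1) (fun c hc => ?_) (fun a => ?_)
        · exact Algebra.subset_adjoin (h3 (Finset.mem_insert_of_mem (Finset.mem_image_of_mem _
            (Finset.mem_filter.mpr ⟨Finset.mem_univ _, hc⟩))))
        · have h5 := hlam _ (hRW a)
          rw [show linv (M j) (R a) = lam * linv (M (rep j)) (R a) from h5]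
          exact mul_mem (Algebra.subset_adjoin (h3 (Finset.mem_insert_self _ _)))
            (linv_mem (h4 hjC) (hRmem h1 a))
    by_cases hjA : j ∈ A
    · obtain ⟨t, ht⟩ := hA j hjA
      refine ⟨(Finset.univ.erase (p (α t))).image (M j), ?_, ?_⟩
      · rw [if_neg hjP, if_neg hjC, if_pos hjA]
        have h1 := Finset.card_image_le (s := Finset.univ.erase (p (α t))) (f := M j)
        rw [Finset.card_erase_of_mem (Finset.mem_univ _), Finset.card_univ, Fintype.card_fin] at h1
        omega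
      · intro 𝒮 h1 h2 h3 _ c
        have hoff : ∀ c, c ≠ p (α t) → M j c ∈ Algebra.adjoin ℚ 𝒮 := fun c hc =>
          Algebra.subset_adjoin (h3 (Finset.mem_image_of_mem _
            (Finset.mem_erase.mpr ⟨hc, Finset.mem_univ _⟩)))
        by_cases hc : c = p (α t)
        · have h4 : linv (M j) (S t) = 0 := by
            have h5 : S t = (T t (p (α t)))⁻¹ • T t := rfl
            rw [h5, map_smul]
            rw [show linv (M j) (T t) = 0 from ht, smul_zero]
          rw [linv_apply, ← Finset.add_sum_erase _ _ (Finset.mem_univ (p (α t))), hSα,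
            mul_one] at h4
          rw [hc, eq_neg_of_add_eq_zero_left h4]
          exact neg_mem (sum_mem fun c hc => mul_mem (hoff c (Finset.mem_erase.mp hc).1)
            (hSmem h1 h2 t c))
        · exact hoff c hc
    · refine ⟨Finset.univ.image (M j), ?_, ?_⟩
      · rw [if_neg hjP, if_neg hjC, if_neg hjA]
        have h1 := Finset.card_image_le (s := Finset.univ) (f := M j)
        rw [Finset.card_univ, Fintype.card_fin] at h1
        omega
      · intro 𝒮 h1 h2 h3 _ c
        exact Algebra.subset_adjoin (h3 (Finset.mem_image_of_mem _ (Finset.mem_univ c)))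
  choose sJ hsJ1 hsJ2 using hJ
  -- the generators for the blocks
  set zl : Entry r n → ℂ := fun e => z (Sum.inl e) with hzl
  have hlf : ∀ q i v, lform zl q i v = linv (fun c => zl ⟨q, i, c⟩) v := fun q i v => rfl
  have hQ : ∀ q, ∃ s : Finset ℂ, s.card + cst q ≤ (r q + 1) * (n + 1) ∧
      ∀ 𝒮 : Set ℂ, (B₁ : Set ℂ) ⊆ 𝒮 → (s : Set ℂ) ⊆ 𝒮 → ∀ i c, zl ⟨q, i, c⟩ ∈
        Algebra.adjoin ℚ 𝒮 := by
    intro q
    rcases hq q with ⟨Pv, hPv, hcst⟩ | ⟨τ, hτ, hcst⟩
    · by_cases h0 : ∀ i, Pv i = 0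
      · refine ⟨(Finset.univ ×ˢ crng).image fun x : Fin (r q + 1) × Fin (n + 1) =>
          zl ⟨q, x.1, x.2⟩, ?_, ?_⟩
        · have h1 := Finset.card_image_le (s := (Finset.univ : Finset (Fin (r q + 1))) ×ˢ crng)
            (f := fun x : Fin (r q + 1) × Fin (n + 1) => zl ⟨q, x.1, x.2⟩)
          rw [Finset.card_product, Finset.card_univ, Fintype.card_fin] at h1
          have h2 : (r q + 1) * (n + 1) = (r q + 1) * crng.card + (r q + 1) * (k + 1) := by
            rw [← mul_add, hcrngcard]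
          have h3 : r q * k ≤ (r q + 1) * (k + 1) := Nat.mul_le_mul (by omega) (by omega)
          omega
        · intro 𝒮 h1 h3 i
          refine all_mem_of_pivot hp hR (hRmem h1) (M := fun c => zl ⟨q, i, c⟩) (fun c hc => ?_)
            (fun a => ?_)
          · refine Algebra.subset_adjoin (h3 ?_)
            exact Finset.mem_coe.mpr (Finset.mem_image.mpr ⟨(i, c), Finset.mem_product.mpr
              ⟨Finset.mem_univ _, Finset.mem_filter.mpr ⟨Finset.mem_univ _, hc⟩⟩, rfl⟩)
          · obtain ⟨b, hb⟩ := hPv _ (hRW a)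
            rw [← hlf, hb i, h0 i, mul_zero]
            exact zero_mem _
      · push Not at h0
        obtain ⟨i₀, hi₀⟩ := h0
        have hμ : ∀ v ∈ W, ∀ i, lform zl q i v = Pv i / Pv i₀ * lform zl q i₀ v := by
          intro v hv i
          obtain ⟨b, hb⟩ := hPv v hv
          rw [hb i, hb i₀]
          field_simp
        refine ⟨(Finset.univ.image fun c => zl ⟨q, i₀, c⟩) ∪
          ((Finset.univ.erase i₀) ×ˢ crng).image (fun x : Fin (r q + 1) × Fin (n + 1) =>
            zl ⟨q, x.1, x.2⟩) ∪ (Finset.univ.erase i₀).image fun i => Pv i / Pv i₀, ?_, ?_⟩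
        · have h1 := Finset.card_image_le (s := Finset.univ) (f := fun c : Fin (n + 1) =>
            zl ⟨q, i₀, c⟩)
          have h2 := Finset.card_image_le (s := (Finset.univ.erase i₀) ×ˢ crng)
            (f := fun x : Fin (r q + 1) × Fin (n + 1) => zl ⟨q, x.1, x.2⟩)
          have h3 := Finset.card_image_le (s := Finset.univ.erase i₀)
            (f := fun i => Pv i / Pv i₀)
          rw [Finset.card_univ, Fintype.card_fin] at h1
          rw [Finset.card_product, Finset.card_erase_of_mem (Finset.mem_univ _), Finset.card_univ,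
            Fintype.card_fin] at h2
          rw [Finset.card_erase_of_mem (Finset.mem_univ _), Finset.card_univ,
            Fintype.card_fin] at h3
          have h4 := Finset.card_union_le ((Finset.univ.image fun c => zl ⟨q, i₀, c⟩) ∪
            ((Finset.univ.erase i₀) ×ˢ crng).image (fun x : Fin (r q + 1) × Fin (n + 1) =>
              zl ⟨q, x.1, x.2⟩)) ((Finset.univ.erase i₀).image fun i => Pv i / Pv i₀)
          have h5 := Finset.card_union_le (Finset.univ.image fun c => zl ⟨q, i₀, c⟩)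
            (((Finset.univ.erase i₀) ×ˢ crng).image (fun x : Fin (r q + 1) × Fin (n + 1) =>
              zl ⟨q, x.1, x.2⟩))
          have h6 : (r q + 1) * (n + 1) = (n + 1) + (r q * crng.card + r q * (k + 1)) := by
            rw [← mul_add, hcrngcard]
            ring
          have h7 : r q * (k + 1) = r q * k + r q := by ring
          have h8 : (r q + 1 - 1) * crng.card = r q * crng.card := by
            rw [Nat.add_sub_cancel]
          omega
        · intro 𝒮 h1 h3
          have hi₀m : ∀ c, zl ⟨q, i₀, c⟩ ∈ Algebra.adjoin ℚ 𝒮 := fun c =>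
            Algebra.subset_adjoin (h3 (Finset.mem_coe.mpr (Finset.mem_union_left _
              (Finset.mem_union_left _ (Finset.mem_image_of_mem _ (Finset.mem_univ c))))))
          intro i
          by_cases hi : i = i₀
          · rw [hi]
            exact hi₀m
          refine all_mem_of_pivot hp hR (hRmem h1) (M := fun c => zl ⟨q, i, c⟩) (fun c hc => ?_)
            (fun a => ?_)
          · refine Algebra.subset_adjoin (h3 (Finset.mem_coe.mpr (Finset.mem_union_left _
              (Finset.mem_union_right _ ?_))))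
            exact Finset.mem_image.mpr ⟨(i, c), Finset.mem_product.mpr
              ⟨Finset.mem_erase.mpr ⟨hi, Finset.mem_univ _⟩,
                Finset.mem_filter.mpr ⟨Finset.mem_univ _, hc⟩⟩, rfl⟩
          · rw [← hlf, hμ _ (hRW a) i]
            refine mul_mem (Algebra.subset_adjoin (h3 (Finset.mem_coe.mpr
              (Finset.mem_union_right _ ?_)))) (linv_mem hi₀m (hRmem h1 a))
            exact Finset.mem_image_of_mem (fun i => Pv i / Pv i₀)
              (Finset.mem_erase.mpr ⟨hi, Finset.mem_univ _⟩)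
    · refine ⟨((Finset.univ ×ˢ Finset.univ) \ (({0} : Finset (Fin (r q + 1))) ×ˢ rng)).image
        fun x : Fin (r q + 1) × Fin (n + 1) => zl ⟨q, x.1, x.2⟩, ?_, ?_⟩
      · have h1 := Finset.card_image_le (s := ((Finset.univ : Finset (Fin (r q + 1))) ×ˢ
          (Finset.univ : Finset (Fin (n + 1)))) \ (({0} : Finset (Fin (r q + 1))) ×ˢ rng))
          (f := fun x : Fin (r q + 1) × Fin (n + 1) => zl ⟨q, x.1, x.2⟩)
        rw [Finset.card_sdiff_of_subset (Finset.product_subset_product (Finset.subset_univ _)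
          (Finset.subset_univ _)), Finset.card_product, Finset.card_product, Finset.card_univ,
          Fintype.card_fin, Finset.card_univ, Fintype.card_fin, Finset.card_singleton, one_mul,
          hrngcard] at h1
        have h2 : k + 1 ≤ (r q + 1) * (n + 1) := by
          calc k + 1 ≤ n + 1 := by omega
            _ = 1 * (n + 1) := (one_mul _).symm
            _ ≤ (r q + 1) * (n + 1) := Nat.mul_le_mul_right _ (by omega)
        omega
      · intro 𝒮 h1 h3
        have hoff : ∀ i c, (i ≠ 0 ∨ c ∉ rng) → zl ⟨q, i, c⟩ ∈ Algebra.adjoin ℚ 𝒮 := by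
          intro i c hic
          refine Algebra.subset_adjoin (h3 (Finset.mem_coe.mpr (Finset.mem_image.mpr
            ⟨(i, c), Finset.mem_sdiff.mpr ⟨Finset.mem_product.mpr ⟨Finset.mem_univ _,
              Finset.mem_univ _⟩, fun h => ?_⟩, rfl⟩)))
          obtain ⟨h4, h5⟩ := Finset.mem_product.mp h
          rcases hic with h6 | h6
          · exact h6 (Finset.mem_singleton.mp h4)
          · exact h6 h5
        intro i
        by_cases hi : i = 0
        · subst hi
          refine all_mem_of_pivot hp hR (hRmem h1) (M := fun c => zl ⟨q, 0, c⟩)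
            (fun c hc => hoff 0 c (Or.inr hc)) (fun a => ?_)
          have h4 := hτ _ (hRW a)
          rw [← Finset.add_sum_erase _ _ (Finset.mem_univ (0 : Fin (r q + 1)))] at h4
          have h5 : ((τ : ℂ) ^ (((0 : Fin (r q + 1)) : ℕ)) * lform zl q 0 (R a)) =
              lform zl q 0 (R a) := by
            rw [Fin.val_zero, pow_zero, one_mul]
          rw [h5] at h4
          rw [← hlf, eq_neg_of_add_eq_zero_left h4]
          refine neg_mem (sum_mem fun i hi => mul_mem (pow_mem ?_ _) ?_)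
          · exact_mod_cast natCast_mem (Algebra.adjoin ℚ 𝒮) τ
          · rw [hlf]
            exact linv_mem (fun c => hoff i c (Or.inl (Finset.mem_erase.mp hi).1)) (hRmem h1 a)
        · exact fun c => hoff i c (Or.inl hi)
  choose sQ hsQ1 hsQ2 using hQ
  -- the count
  set 𝒢 : Finset ℂ := (B₁ ∪ B₂) ∪ (Finset.univ.biUnion sQ ∪ Finset.univ.biUnion sJ) with h𝒢
  have hG1 : (B₁ : Set ℂ) ⊆ (𝒢 : Set ℂ) := by
    intro y hy
    exact Finset.mem_coe.mpr (Finset.mem_union_left _ (Finset.mem_union_left _ hy))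
  have hG2 : (B₂ : Set ℂ) ⊆ (𝒢 : Set ℂ) := by
    intro y hy
    exact Finset.mem_coe.mpr (Finset.mem_union_left _ (Finset.mem_union_right _ hy))
  have hGQ : ∀ q, (sQ q : Set ℂ) ⊆ (𝒢 : Set ℂ) := by
    intro q y hy
    exact Finset.mem_coe.mpr (Finset.mem_union_right _ (Finset.mem_union_left _
      (Finset.mem_biUnion.mpr ⟨q, Finset.mem_univ _, hy⟩)))
  have hGJ : ∀ j, (sJ j : Set ℂ) ⊆ (𝒢 : Set ℂ) := by
    intro j y hy
    exact Finset.mem_coe.mpr (Finset.mem_union_right _ (Finset.mem_union_right _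
      (Finset.mem_biUnion.mpr ⟨j, Finset.mem_univ _, hy⟩)))
  have hmemJ : ∀ j c, M j c ∈ Algebra.adjoin ℚ (𝒢 : Set ℂ) := by
    have h1 : ∀ j, j ∉ Cl → ∀ c, M j c ∈ Algebra.adjoin ℚ (𝒢 : Set ℂ) := fun j hj =>
      hsJ2 j _ hG1 hG2 (hGJ j) fun h => absurd h hj
    intro j
    by_cases hj : j ∈ Cl
    · exact hsJ2 j _ hG1 hG2 (hGJ j) fun h => h1 (rep j) (hCl j h).1
    · exact h1 j hj
  have hcount := card_le_of_forall_mem_adjoin hz 𝒢 (by
    rintro (⟨q, i, c⟩ | ⟨j, c⟩)
    · exact hsQ2 q _ hG1 (hGQ q) i c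
    · exact hmemJ j c)
  have hcardE : Fintype.card (Entry₂ r n J) = ∑ q, (r q + 1) * (n + 1) + ∑ _j : J, (n + 1) := by
    rw [Fintype.card_sum, Fintype.card_sigma, Fintype.card_prod, Fintype.card_fin, Finset.sum_const,
      Finset.card_univ, smul_eq_mul]
    congr 1
    exact Finset.sum_congr rfl fun q _ => by rw [Fintype.card_prod, Fintype.card_fin,
      Fintype.card_fin]
  have hG𝒢 : 𝒢.card ≤ (k + 1) * (n - k) + k * Fintype.card Zt + (∑ q, (sQ q).card +
      ∑ j, (sJ j).card) := by
    have h1 : 𝒢.card ≤ _ := Finset.card_union_le (B₁ ∪ B₂)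
      (Finset.univ.biUnion sQ ∪ Finset.univ.biUnion sJ)
    have h2 := Finset.card_union_le B₁ B₂
    have h3 := Finset.card_union_le (Finset.univ.biUnion sQ) (Finset.univ.biUnion sJ)
    have h4 : (Finset.univ.biUnion sQ).card ≤ ∑ q, (sQ q).card := Finset.card_biUnion_le
    have h5 : (Finset.univ.biUnion sJ).card ≤ ∑ j, (sJ j).card := Finset.card_biUnion_le
    omega
  have hsumQ : ∑ q, (sQ q).card + ∑ q, cst q ≤ ∑ q, (r q + 1) * (n + 1) := by
    rw [← Finset.sum_add_distrib]
    exact Finset.sum_le_sum fun q _ => hsQ1 q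
  have hsumJ : ∑ j, (sJ j).card + ((k + 1) * P.card + k * Cl.card + A.card) ≤
      ∑ _j : J, (n + 1) := by
    have h1 : ∑ j, ((if j ∈ P then k + 1 else 0) + (if j ∈ Cl then k else 0) +
        if j ∈ A then 1 else 0) = (k + 1) * P.card + k * Cl.card + A.card := by
      rw [Finset.sum_add_distrib, Finset.sum_add_distrib, Finset.sum_ite_mem, Finset.sum_ite_mem,
        Finset.sum_ite_mem, Finset.univ_inter, Finset.univ_inter, Finset.univ_inter,
        Finset.sum_const, Finset.sum_const, Finset.sum_const, smul_eq_mul, smul_eq_mul,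
        smul_eq_mul, mul_one, mul_comm (k + 1), mul_comm k]
    rw [← h1, ← Finset.sum_add_distrib]
    exact Finset.sum_le_sum fun j _ => hsJ1 j
  rw [hcardE] at hcount
  omega

end Pool.Agent.H62.Chain
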