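import Pool.Agent.H62.Chain.Main

/-!
# Hyperbolic complements of divisors in complete intersections

Let `G` be a system of `c` forms of degrees `d l` and `H` a system of `m` forms of degrees `δ j` in
`n + c + 1` variables.  Under numerical conditions there are non-empty open sets of pairs `(G, H)`
such that the zero locus `X` of `G` is a smooth complete intersection of dimension `n`, the forms
`H` cut out a divisor `D` with normal crossings on `X`, and `X ∖ D` and all other strata of
`(X, D)` are Brody hyperbolic and Picard hyperbolic.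
-/

namespace Pool.Agent.H62.Chain

open Pool.Agent.H17 Pool.Agent.H92.GGL Pool.Agent.H79.Log Pool.Agent.H62.Log

/-- Hyperbolicity of all strata. -/
lemma stratHyp_of_brody {N : ℕ} {κ ι : Type} {g : κ → MvPolynomial (Fin (N + 1)) ℂ}
    {h : ι → MvPolynomial (Fin (N + 1)) ℂ} (hb : ∀ S, BrodyHyperbolic (stratum g h S)) :
    StratHyp g h := by
  intro f hf hfX hio
  refine hb {j | ∀ z, VanishesAt (h j) (f z)} f hf fun z => ⟨hfX z, fun l => ?_⟩
  constructor
  · intro h1
    rcases hio l with h2 | h2
    · exact fun z => h2 z (Set.mem_univ _)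
    · exact absurd h1 (h2 z (Set.mem_univ _))
  · intro h1
    exact h1 z

/-- The conclusion: there is a non-empty open set of pairs of systems of forms of the given degrees
such that the complement of the boundary is not empty, the pair is smooth with normal crossings and
all strata are Brody hyperbolic and Picard hyperbolic. -/
def OpenHyperbolic (n : ℕ) {c m : ℕ} (d : Fin c → ℕ) (δ : Fin m → ℕ) : Prop :=
  ∃ (G₀ : Fin c → MvPolynomial (Fin (n + c + 1)) ℂ)
    (H₀ : Fin m → MvPolynomial (Fin (n + c + 1)) ℂ), (∀ l, (G₀ l).IsHomogeneous (d l)) ∧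
    (∀ j, (H₀ j).IsHomogeneous (δ j)) ∧
    ∃ ε > 0, ∀ (G : Fin c → MvPolynomial (Fin (n + c + 1)) ℂ)
      (H : Fin m → MvPolynomial (Fin (n + c + 1)) ℂ),
      (∀ l, (G l).IsHomogeneous (d l)) → (∀ j, (H j).IsHomogeneous (δ j)) →
      (∀ l i, ‖(G l).coeff i - (G₀ l).coeff i‖ < ε) →
      (∀ j i, ‖(H j).coeff i - (H₀ j).coeff i‖ < ε) →
      (openPart G H).Nonempty ∧ SmoothPair G H ∧
        ∀ S : Set (Fin m), BrodyHyperbolic (stratum G H S) ∧ PicardHyperbolic (stratum G H S)

/-- **Open sets of hyperbolic pairs.** -/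
theorem exists_gluing {n c m a b s : ℕ} {d : Fin c → ℕ} {δ : Fin m → ℕ}
    (role : Fin c → Role a b s m) (brole : Fin m → Option (Fin s))
    (hbd : ∀ l j, role l = .boundary j → brole j = none) (r : Fin s → ℕ)
    (hd : ∀ l, 1 ≤ d l) (hδ : ∀ j, 1 ≤ δ j) (hcyc : ∀ l, role l = .cycle → 2 ≤ d l)
    (hcurve : ∀ q, 3 ≤ ∑ l with role l = .curve q, (d l - 1))
    (hsurface : ∀ q, 5 ≤ ∑ l with role l = .surface q, (d l - 2))
    (hsystem : ∀ q, ∃ (g : {l // role l = .system q} →
        MvPolynomial (Fin (r q + Fintype.card {l // role l = .system q} + 1)) ℂ)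
      (h : {j // brole j = some q} →
        MvPolynomial (Fin (r q + Fintype.card {l // role l = .system q} + 1)) ℂ),
      (∀ l, (g l).IsHomogeneous (d l)) ∧ (∀ j, (h j).IsHomogeneous (δ j)) ∧
        ∀ S, BrodyHyperbolic (stratum g h S))
    (hnum : NumCond n d δ role brole r) : OpenHyperbolic n d δ := by
  refine open_of_strat hd hδ (exists_strat n role brole hbd r hd hδ hcyc hcurve hsurface ?_ hnum)
  intro q
  obtain ⟨g, h, hg, hh, hb⟩ := hsystem q
  exact ⟨g, h, hg, hh, stratHyp_of_brody hb⟩

/-- **Forms of small degrees.** -/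
theorem exists_cyclic_pair {n c m : ℕ} {d : Fin c → ℕ} {δ : Fin m → ℕ} (hd : ∀ l, 2 ≤ d l)
    (hδ : ∀ j, 1 ≤ δ j) (h : (n + 2) ^ 2 < 4 * (c + m)) : OpenHyperbolic n d δ := by
  refine exists_gluing (a := 0) (b := 0) (s := 0) (fun _ => .cycle) (fun _ => none)
    (fun l j hl => absurd hl (by simp)) (fun q => q.elim0) (fun l => (hd l).trans' one_le_two) hδ
    (fun l _ => hd l) (fun q => q.elim0) (fun q => q.elim0) (fun q => q.elim0) ?_
  intro k hk1 hkn _
  obtain ⟨t, rfl⟩ : ∃ t, n = k + t := ⟨n - k, by omega⟩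
  have hM : (k + 1) * t + (k + 1) < c + m := by
    by_contra hcon
    push Not at hcon
    have h1 : (k + t + 2) ^ 2 < 4 * ((k + 1) * t + (k + 1)) := by omega
    have h2 : ((k : ℤ) + t + 2) ^ 2 < 4 * ((k + 1) * t + (k + 1)) := by exact_mod_cast h1
    nlinarith [sq_nonneg ((k : ℤ) - t)]
  have hcard : (Finset.univ.filter fun l : Fin c => (Role.cycle : Role 0 0 0 m) = .cycle).card =
      c := by
    simp
  rw [hcard]
  simp only [Nat.add_sub_cancel_left]
  constructor
  · intro S p y u _ hpyu _
    have hB : m - S.card ≤ unitCount d δ (fun _ => (Role.cycle : Role 0 0 0 m))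
        (fun _ => none) S := by
      unfold unitCount
      have h1 : (Finset.univ.filter fun j : Fin m => (none : Option (Fin 0)) = none ∧ j ∉ S) =
          Sᶜ := by
        ext j
        simp
      rw [h1]
      calc m - S.card = ∑ _j ∈ Sᶜ, 1 := by
            rw [Finset.sum_const, Finset.card_compl, Fintype.card_fin, smul_eq_mul, mul_one]
        _ ≤ _ := Finset.sum_le_sum fun j _ => by
            have := hδ j
            omega
    set B := unitCount d δ (fun _ => (Role.cycle : Role 0 0 0 m)) (fun _ => none) S with hBdef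
    have hX : u + B - (k + 1) ≤ k * (u + B - (k + 1)) := Nat.le_mul_of_pos_left _ (by omega)
    unfold cycleCost
    have h1 := le_max_right ((k + 1) * (p + S.card)) (p + S.card + y)
    have hS : S.card ≤ m := by
      have := Finset.card_le_univ S
      rwa [Fintype.card_fin] at this
    omega
  · intro hb
    have hm : m = 0 := by
      rcases Nat.eq_zero_or_pos m with h0 | h0
      · exact h0
      · exact absurd rfl (hb ⟨0, h0⟩)
    omega

end Pool.Agent.H62.Chain
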