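import Pool.Agent.H62.Log.Stability
import Pool.Agent.H92.GGL.Gadget
import Pool.Agent.H79.Log.StratBlocks

/-!
# Limits of holomorphic curves with inclusions between zero sets
-/

open Topology Filter

namespace Pool.Agent.H62.Chain

open Pool.Agent.H17 Pool.Agent.H62.Log Pool.Agent.H92.GGL Pool.Agent.H79.Log

variable {N : ℕ}

/-- Each of the forms `A i` vanishes identically along `f` on `U`, or the form `B i` vanishes at all
zeros of `A i` along `f` on `U`. -/
def Inc {ι : Type} (A B : ι → MvPolynomial (Fin (N + 1)) ℂ) (f : ℂ → PN N) (U : Set ℂ) : Prop :=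
  ∀ i, (∀ z ∈ U, VanishesAt (A i) (f z)) ∨
    ∀ z ∈ U, VanishesAt (A i) (f z) → VanishesAt (B i) (f z)

lemma Inc.comp {ι : Type} {A B : ι → MvPolynomial (Fin (N + 1)) ℂ} {f : ℂ → PN N} {V U : Set ℂ}
    (hf : Inc A B f V) {u : ℂ → ℂ} (hUV : ∀ z ∈ U, u z ∈ V) : Inc A B (fun z => f (u z)) U := by
  intro i
  rcases hf i with h | h
  · exact Or.inl fun z hz => h _ (hUV z hz)
  · exact Or.inr fun z hz => h _ (hUV z hz)

/-- The zeros of a form along an entire curve are isolated. -/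
lemma vanishes_or_isolated {d : ℕ} {P : MvPolynomial (Fin (N + 1)) ℂ} (hP : P.IsHomogeneous d)
    {f : ℂ → PN N} (hf : HolomorphicInto f Set.univ) :
    (∀ z, VanishesAt P (f z)) ∨ ∀ z₀, ∀ᶠ z in 𝓝[≠] z₀, ¬ VanishesAt P (f z) := by
  obtain ⟨x, hx⟩ := exists_global_lift hf
  set φ : EntFun := MvPolynomial.aeval x P with hφ
  have hiff : ∀ z, VanishesAt P (f z) ↔ (φ : ℂ → ℂ) z = 0 := fun z =>
    vanishesAt_iff_aeval hP hx z
  have hdiff : AnalyticOnNhd ℂ (φ : ℂ → ℂ) Set.univ := by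
    have h1 : Differentiable ℂ (φ : ℂ → ℂ) := φ.2
    exact fun z _ => h1.analyticAt z
  by_cases h0 : ∀ z, (φ : ℂ → ℂ) z = 0
  · exact Or.inl fun z => (hiff z).mpr (h0 z)
  · right
    intro z₀
    rcases (hdiff z₀ (Set.mem_univ _)).eventually_eq_zero_or_eventually_ne_zero with h1 | h1
    · exfalso
      apply h0
      have h2 := hdiff.eqOn_zero_of_preconnected_of_eventuallyEq_zero isPreconnected_univ
        (Set.mem_univ z₀) h1
      exact fun z => h2 (Set.mem_univ z)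
    · filter_upwards [h1] with z hz
      rw [hiff]
      exact hz

/-- **The limit curve.** -/
theorem brody_limit_inc {κ ι : Type} {d : κ → ℕ} {e e' : ι → ℕ}
    {Gk : ℕ → κ → MvPolynomial (Fin (N + 1)) ℂ}
    {G : κ → MvPolynomial (Fin (N + 1)) ℂ} (hGk : ∀ k l, (Gk k l).IsHomogeneous (d l))
    (hG : ∀ l, (G l).IsHomogeneous (d l))
    (hlim : ∀ l m, Tendsto (fun k => (Gk k l).coeff m) atTop (𝓝 ((G l).coeff m)))
    {A B : ι → MvPolynomial (Fin (N + 1)) ℂ}
    (hA : ∀ l, (A l).IsHomogeneous (e l)) (hB : ∀ l, (B l).IsHomogeneous (e' l))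
    {g : ℕ → ℂ → PN N} {K : ℕ → ℝ} (hK : Tendsto K atTop atTop)
    (hg : ∀ k, HolomorphicInto (g k) (Metric.ball 0 (K k + 1)))
    (hgX : ∀ k, ∀ z ∈ Metric.ball (0 : ℂ) (K k + 1), g k z ∈ zeroLocus (Gk k))
    (hgH : ∀ k, Inc A B (g k) (Metric.ball 0 (K k + 1)))
    (hsep : ∀ k, ∀ ζ ∈ Metric.ball (0 : ℂ) (K k), ∀ w ∈ Metric.ball ζ (1 / 2),
      sep (g k w) (g k ζ) ≤ 1 / 2)
    {δ : ℝ} (hδ : 0 < δ) {ζ₁ : ℕ → ℂ} (hζ : ∀ k, ζ₁ k ∈ Metric.ball (0 : ℂ) 1)
    (hfar : ∀ k, δ < sep (g k (ζ₁ k)) (g k 0)) :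
    ∃ f : ℂ → PN N, HolomorphicInto f Set.univ ∧ (∀ z, f z ∈ zeroLocus G) ∧
      Inc A B f Set.univ ∧ ∃ z w, f z ≠ f w := by
  classical
  set 𝒰 : Ultrafilter ℕ := hyperfilter ℕ with h𝒰
  have h𝒰top : (𝒰 : Filter ℕ) ≤ atTop := by
    rw [← Nat.cofinite_eq_atTop]
    exact hyperfilter_le_cofinite
  have hKev : ∀ a : ℂ, ∀ᶠ k in (𝒰 : Filter ℕ), a ∈ Metric.ball (0 : ℂ) (K k) := by
    intro a
    have h1 : ∀ᶠ k in atTop, ‖a‖ < K k := hK.eventually_gt_atTop ‖a‖
    filter_upwards [h𝒰top h1] with k hk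
    rw [mem_ball_zero_iff]
    exact hk
  -- the dominating coordinate
  have hidx : ∀ a, ∃ i, ∀ᶠ k in (𝒰 : Filter ℕ), ‖(g k a).rep i‖ = ‖(g k a).rep‖ := by
    intro a
    choose m hm using fun k => exists_norm_eq (g k a).rep
    obtain ⟨i, hi⟩ := ultrafilter_exists_eq 𝒰 m
    refine ⟨i, ?_⟩
    filter_upwards [hi] with k hk
    rw [← hk]
    exact hm k
  choose i hi using hidx
  have hdom : ∀ a, ∀ᶠ k in (𝒰 : Filter ℕ), ∀ z ∈ Metric.ball a (1 / 2),
      ‖(g k z).rep‖ ≤ 2 * ‖(g k z).rep (i a)‖ := by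
    intro a
    filter_upwards [hKev a, hi a] with k hk1 hk2 z hz
    refine norm_le_two_mul (g k z).rep_nonzero hk2 (g k a).rep_nonzero ?_
    have h1 := hsep k a hk1 z hz
    rw [sep_comm] at h1
    exact h1
  have hmem : ∀ a, ∀ᶠ k in (𝒰 : Filter ℕ), ∀ z ∈ Metric.ball a (1 / 2),
      z ∈ Metric.ball (0 : ℂ) (K k + 1) := by
    intro a
    filter_upwards [hKev a] with k hk z hz
    rw [mem_ball_zero_iff] at hk ⊢
    rw [mem_ball_iff_norm] at hz
    have h1 : ‖z‖ ≤ ‖z - a‖ + ‖a‖ := by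
      have := norm_add_le (z - a) a
      simpa using this
    linarith
  have hdiff : ∀ a, ∀ᶠ k in (𝒰 : Filter ℕ),
      DifferentiableOn ℂ (fun z => chart (i a) (g k z)) (Metric.ball a (1 / 2)) := by
    intro a
    filter_upwards [hdom a, hmem a] with k hk1 hk2 z hz
    obtain ⟨φ, hφ, he⟩ := hg k z (hk2 z hz)
    exact (analyticAt_chart hφ he (rep_ne_zero_of_norm_le
      (hk1 z hz))).differentiableAt.differentiableWithinAt
  have hbdd : ∀ a, ∀ᶠ k in (𝒰 : Filter ℕ), ∀ z ∈ Metric.ball a (1 / 2),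
      ‖chart (i a) (g k z)‖ ≤ 2 := by
    intro a
    filter_upwards [hdom a] with k hk z hz
    exact norm_chart_le (hk z hz)
  choose h hhdiff hhconv using fun a => montel_ultrafilter 𝒰 (hdiff a) (hbdd a)
  have hpt : ∀ a, ∀ z ∈ Metric.ball a (1 / 2),
      Tendsto (fun k => chart (i a) (g k z)) (𝒰 : Filter ℕ) (𝓝 (h a z)) := fun a z hz =>
    (hhconv a).tendsto_at hz
  have hone : ∀ a, ∀ z ∈ Metric.ball a (1 / 2), h a z (i a) = 1 := by
    intro a z hz
    have h1 : Tendsto (fun k => chart (i a) (g k z) (i a)) (𝒰 : Filter ℕ) (𝓝 (h a z (i a))) :=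
      ((continuous_apply (i a)).tendsto _).comp (hpt a z hz)
    have h2 : ∀ᶠ k in (𝒰 : Filter ℕ), chart (i a) (g k z) (i a) = 1 := by
      filter_upwards [hdom a] with k hk
      exact chart_self (rep_ne_zero_of_norm_le (hk z hz))
    exact tendsto_nhds_unique h1 ((tendsto_congr' h2).mpr tendsto_const_nhds)
  have hne : ∀ a, ∀ z ∈ Metric.ball a (1 / 2), h a z ≠ 0 := by
    intro a z hz h0
    have := hone a z hz
    rw [h0] at this
    simp at this
  have hself : ∀ a : ℂ, a ∈ Metric.ball a (1 / 2) := fun a => Metric.mem_ball_self (by norm_num)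
  set f : ℂ → PN N := fun z => Projectivization.mk ℂ (h z z) (hne z z (hself z)) with hf
  have hfa : ∀ a, ∀ z, ∀ hz : z ∈ Metric.ball a (1 / 2),
      f z = Projectivization.mk ℂ (h a z) (hne a z hz) := by
    intro a z hz
    apply mk_eq_of_minors
    have h1 : Tendsto (fun k => minors (chart (i z) (g k z)) (chart (i a) (g k z)))
        (𝒰 : Filter ℕ) (𝓝 (minors (h z z) (h a z))) := by
      have hc : Continuous fun p : (Fin (N + 1) → ℂ) × (Fin (N + 1) → ℂ) => minors p.1 p.2 := by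
        refine continuous_pi fun q => ?_
        unfold minors
        fun_prop
      exact (hc.tendsto _).comp ((hpt z z (hself z)).prodMk_nhds (hpt a z hz))
    have h2 : ∀ k, minors (chart (i z) (g k z)) (chart (i a) (g k z)) = 0 := by
      intro k
      unfold chart
      rw [minors_smul, minors_self, smul_zero]
    simp only [h2] at h1
    exact tendsto_nhds_unique h1 tendsto_const_nhds
  have hfhol : HolomorphicInto f Set.univ := by
    intro z₀ _
    refine ⟨h z₀, (hhdiff z₀).analyticAt (Metric.isOpen_ball.mem_nhds (hself z₀)), ?_⟩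
    filter_upwards [Metric.isOpen_ball.mem_nhds (hself z₀)] with z hz
    exact ⟨hne z₀ z hz, hfa z₀ z hz⟩
  refine ⟨f, hfhol, ?_, ?_, ?_⟩
  · -- in the zero locus
    intro z l
    rw [hf]
    rw [vanishesAt_mk_iff (hG l)]
    have h1 : Tendsto (fun k => MvPolynomial.eval (chart (i z) (g k z)) (Gk k l)) (𝒰 : Filter ℕ)
        (𝓝 (MvPolynomial.eval (h z z) (G l))) :=
      tendsto_eval (fun k => hGk k l) (hG l) (fun m => (hlim l m).mono_left h𝒰top)
        (hpt z z (hself z))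
    have h2 : ∀ᶠ k in (𝒰 : Filter ℕ),
        MvPolynomial.eval (chart (i z) (g k z)) (Gk k l) = 0 := by
      filter_upwards [hmem z] with k hk
      exact eval_chart_eq_zero (hGk k l) (hgX k z (hk z (hself z)) l) _
    exact tendsto_nhds_unique h1 ((tendsto_congr' h2).mpr tendsto_const_nhds)
  · -- the inclusions
    intro l
    have hiff : ∀ {P : MvPolynomial (Fin (N + 1)) ℂ} {D : ℕ} (hP : P.IsHomogeneous D) (a : ℂ),
        ∀ z ∈ Metric.ball a (1 / 2), (VanishesAt P (f z) ↔ MvPolynomial.eval (h a z) P = 0) := by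
      intro P D hP a z hz
      rw [hfa a z hz]
      exact vanishesAt_mk_iff hP _ _
    have hconv : ∀ {P : MvPolynomial (Fin (N + 1)) ℂ} {D : ℕ} (hP : P.IsHomogeneous D) (a : ℂ)
        (y : ℕ → ℂ) (z₀ : ℂ), z₀ ∈ Metric.ball a (1 / 2) →
        Tendsto y (𝒰 : Filter ℕ) (𝓝 z₀) →
        Tendsto (fun k => MvPolynomial.eval (chart (i a) (g k (y k))) P)
          (𝒰 : Filter ℕ) (𝓝 (MvPolynomial.eval (h a z₀) P)) := by
      intro P D hP a y z₀ hz₀ hy
      have hyball : ∀ᶠ k in (𝒰 : Filter ℕ), y k ∈ Metric.ball a (1 / 2) :=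
        hy.eventually (Metric.isOpen_ball.mem_nhds hz₀)
      have h1 : Tendsto (fun k => chart (i a) (g k (y k))) (𝒰 : Filter ℕ) (𝓝 (h a z₀)) := by
        refine (hhconv a).tendsto_comp ?_ hz₀ ?_
        · exact (hhdiff a).continuousOn z₀ hz₀
        · exact tendsto_nhdsWithin_iff.mpr ⟨hy, hyball⟩
      exact tendsto_eval (P := fun _ => P) (fun _ => hP) hP (fun m => tendsto_const_nhds) h1
    rcases (𝒰.eventually_or (p := fun k => ∀ z ∈ Metric.ball (0 : ℂ) (K k + 1),
      VanishesAt (A l) (g k z)) (q := fun k => ∀ z ∈ Metric.ball (0 : ℂ) (K k + 1),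
      VanishesAt (A l) (g k z) → VanishesAt (B l) (g k z))).mp
        (Eventually.of_forall fun k => hgH k l) with hin | hout
    · left
      intro z _
      rw [hiff (hA l) z z (hself z)]
      have h2 : ∀ᶠ k in (𝒰 : Filter ℕ),
          MvPolynomial.eval (chart (i z) (g k z)) (A l) = 0 := by
        filter_upwards [hmem z, hin] with k hk hk2
        exact eval_chart_eq_zero (hA l) (hk2 z (hk z (hself z))) _
      exact tendsto_nhds_unique (hconv (hA l) z (fun _ => z) z (hself z) tendsto_const_nhds)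
        ((tendsto_congr' h2).mpr tendsto_const_nhds)
    · rcases vanishes_or_isolated (hA l) hfhol with h0 | h0
      · exact Or.inl fun z _ => h0 z
      right
      intro z₀ _ hA0
      by_contra hB0
      have hB0' : MvPolynomial.eval (h z₀ z₀) (B l) ≠ 0 := fun h1 =>
        hB0 ((hiff (hB l) z₀ z₀ (hself z₀)).mpr h1)
      -- a small ball where `B` has no zeros
      have hBc : ContinuousAt (fun z => MvPolynomial.eval (h z₀ z) (B l)) z₀ :=
        ((differentiableOn_eval (hhdiff z₀) (B l)).differentiableAt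
          (Metric.isOpen_ball.mem_nhds (hself z₀))).continuousAt
      obtain ⟨ρ, hρ, hρ1, hρ2⟩ : ∃ ρ > 0, Metric.closedBall z₀ ρ ⊆ Metric.ball z₀ (1 / 2) ∧
          ∀ z ∈ Metric.closedBall z₀ ρ, MvPolynomial.eval (h z₀ z) (B l) ≠ 0 := by
        obtain ⟨s, hs, hs'⟩ := Metric.eventually_nhds_iff.mp (hBc.eventually_ne hB0')
        refine ⟨min (s / 2) (1 / 4), by positivity, ?_, ?_⟩
        · exact Metric.closedBall_subset_ball (lt_of_le_of_lt (min_le_right _ _) (by norm_num))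
        · intro z hz
          apply hs'
          have h1 := Metric.mem_closedBall.mp hz
          have h2 := min_le_left (s / 2) (1 / 4)
          linarith
      have hcomp : IsCompact (Metric.closedBall z₀ ρ) := isCompact_closedBall z₀ ρ
      have hBev : ∀ᶠ k in (𝒰 : Filter ℕ), ∀ z ∈ Metric.closedBall z₀ ρ,
          MvPolynomial.eval (chart (i z₀) (g k z)) (B l) ≠ 0 := by
        by_contra hcon
        rw [← Ultrafilter.eventually_not] at hcon
        push Not at hcon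
        choose! w hw using fun (k : ℕ) (h : ∃ z ∈ Metric.closedBall z₀ ρ,
          MvPolynomial.eval (chart (i z₀) (g k z)) (B l) = 0) => h
        have hw1 : ∀ᶠ k in (𝒰 : Filter ℕ), w k ∈ Metric.closedBall z₀ ρ :=
          hcon.mono fun k hk => (hw k hk).1
        have hw2 : ∀ᶠ k in (𝒰 : Filter ℕ),
            MvPolynomial.eval (chart (i z₀) (g k (w k))) (B l) = 0 :=
          hcon.mono fun k hk => (hw k hk).2
        obtain ⟨z', hz'mem, hz'⟩ : ∃ z' ∈ Metric.closedBall z₀ ρ,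
            Tendsto w (𝒰 : Filter ℕ) (𝓝 z') := by
          obtain ⟨l, hl1, hl2⟩ := hcomp.ultrafilter_le_nhds (𝒰.map w) (by
            rw [le_principal_iff]
            exact hw1)
          exact ⟨l, hl1, hl2⟩
        have h3 := hconv (hB l) z₀ w z' (hρ1 hz'mem) hz'
        exact hρ2 z' hz'mem (tendsto_nhds_unique h3 ((tendsto_congr' hw2).mpr tendsto_const_nhds))
      have hsub : Metric.ball z₀ ρ ⊆ Metric.ball z₀ (1 / 2) :=
        Metric.ball_subset_closedBall.trans hρ1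
      have h3 : ∀ᶠ k in (𝒰 : Filter ℕ), DifferentiableOn ℂ
          (fun z => MvPolynomial.eval (chart (i z₀) (g k z)) (A l)) (Metric.ball z₀ ρ) := by
        filter_upwards [hdiff z₀] with k hk
        exact (differentiableOn_eval hk _).mono hsub
      have h4 : ∀ᶠ k in (𝒰 : Filter ℕ), ∀ z ∈ Metric.ball z₀ ρ,
          MvPolynomial.eval (chart (i z₀) (g k z)) (A l) ≠ 0 := by
        filter_upwards [hmem z₀, hout, hdom z₀, hBev] with k hk hk2 hk3 hk4 z hz
        refine eval_chart_ne_zero (hA l) (fun h5 => ?_) (rep_ne_zero_of_norm_le (hk3 z (hsub hz)))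
        exact hk4 z (Metric.ball_subset_closedBall hz)
          (eval_chart_eq_zero (hB l) (hk2 z (hk z (hsub hz)) h5) _)
      rcases hurwitz 𝒰 h3 h4 ((differentiableOn_eval (hhdiff z₀) (A l)).mono hsub)
        (fun y z₁ hz₁ hy => hconv (hA l) z₀ y z₁ (hsub hz₁) hy) with h5 | h5
      · have h6 : ∀ᶠ z in 𝓝[≠] z₀, z ∈ Metric.ball z₀ ρ :=
          nhdsWithin_le_nhds (Metric.isOpen_ball.mem_nhds (Metric.mem_ball_self hρ))
        obtain ⟨z, hz1, hz2⟩ := ((h0 z₀).and h6).exists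
        exact hz1 ((hiff (hA l) z₀ z (hsub hz2)).mpr (h5 z hz2))
      · exact h5 z₀ (Metric.mem_ball_self hρ) ((hiff (hA l) z₀ z₀ (hself z₀)).mp hA0)
  · -- nonconstant
    obtain ⟨ζ', hζ'mem, hζ'⟩ : ∃ ζ' ∈ Metric.closedBall (0 : ℂ) 1,
        Tendsto ζ₁ (𝒰 : Filter ℕ) (𝓝 ζ') := by
      have hmemc : ∀ᶠ k in (𝒰 : Filter ℕ), ζ₁ k ∈ Metric.closedBall (0 : ℂ) 1 :=
        Eventually.of_forall fun k => Metric.ball_subset_closedBall (hζ k)
      obtain ⟨l, hl1, hl2⟩ := (isCompact_closedBall (0 : ℂ) 1).ultrafilter_le_nhds (𝒰.map ζ₁) (by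
        rw [le_principal_iff]
        exact hmemc)
      exact ⟨l, hl1, hl2⟩
    refine ⟨ζ', 0, fun heq => ?_⟩
    have hball : ∀ᶠ k in (𝒰 : Filter ℕ), ζ₁ k ∈ Metric.ball ζ' (1 / 2) :=
      hζ'.eventually (Metric.isOpen_ball.mem_nhds (hself ζ'))
    have h1 : Tendsto (fun k => chart (i ζ') (g k (ζ₁ k))) (𝒰 : Filter ℕ) (𝓝 (h ζ' ζ')) := by
      refine (hhconv ζ').tendsto_comp ?_ (hself ζ') ?_
      · exact (hhdiff ζ').continuousOn ζ' (hself ζ')
      · exact tendsto_nhdsWithin_iff.mpr ⟨hζ', hball⟩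
    have h2 := hpt 0 0 (hself 0)
    have h3 := (continuousAt_sepv (hne ζ' ζ' (hself ζ')) (hne 0 0 (hself 0))).tendsto.comp
      (h1.prodMk_nhds h2)
    have h4 : ∀ᶠ k in (𝒰 : Filter ℕ), δ ≤ ((fun p : (Fin (N + 1) → ℂ) × (Fin (N + 1) → ℂ) =>
        sepv p.1 p.2) ∘ fun k => (chart (i ζ') (g k (ζ₁ k)), chart (i 0) (g k 0))) k := by
      filter_upwards [hdom ζ', hdom 0, hball] with k hk1 hk2 hk3
      have h5 := rep_ne_zero_of_norm_le (hk1 (ζ₁ k) hk3)
      have h6 := rep_ne_zero_of_norm_le (hk2 0 (hself 0))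
      simp only [Function.comp_apply]
      unfold chart
      rw [sepv_smul (inv_ne_zero h5) (inv_ne_zero h6)]
      exact (hfar k).le
    have h7 := ge_of_tendsto h3 h4
    have h8 : sepv (h ζ' ζ') (h 0 0) = 0 := by
      rw [← sep_mk _ _ (hne ζ' ζ' (hself ζ')) (hne 0 0 (hself 0))]
      have h9 : Projectivization.mk ℂ (h ζ' ζ') (hne ζ' ζ' (hself ζ')) =
          Projectivization.mk ℂ (h 0 0) (hne 0 0 (hself 0)) := heq
      rw [h9, sep_self]
    simp only [h8] at h7
    linarith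

end Pool.Agent.H62.Chain
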