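import Pool.Agent.H62.Chain.Gluing

/-!
# Forms of arbitrary degrees at least two
-/

namespace Pool.Agent.H62.Chain

open Pool.Agent.H17 Pool.Agent.H92.GGL Pool.Agent.H79.Log Pool.Agent.H62.Log

/-- A hyperbolic system with general index types. -/
lemma exists_system {n : ℕ} {κ ι : Type} [Fintype κ] [Fintype ι] {d : κ → ℕ} {δ : ι → ℕ}
    (h : OpenHyperbolic n (fun i => d ((Fintype.equivFin κ).symm i))
      fun i => δ ((Fintype.equivFin ι).symm i)) :
    ∃ (g : κ → MvPolynomial (Fin (n + Fintype.card κ + 1)) ℂ)
      (h : ι → MvPolynomial (Fin (n + Fintype.card κ + 1)) ℂ),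
      (∀ l, (g l).IsHomogeneous (d l)) ∧ (∀ j, (h j).IsHomogeneous (δ j)) ∧
        ∀ S, BrodyHyperbolic (stratum g h S) := by
  obtain ⟨G₀, H₀, hG₀, hH₀, ε, hε, hopen⟩ := h
  obtain ⟨-, -, hst⟩ := hopen G₀ H₀ hG₀ hH₀ (fun l i => by simpa using hε)
    (fun l i => by simpa using hε)
  have h1 : StratHyp G₀ H₀ := stratHyp_of_brody fun S => (hst S).1
  set e := Fintype.equivFin κ with he
  set e' := Fintype.equivFin ι with he'
  refine ⟨fun l => G₀ (e l), fun j => H₀ (e' j), fun l => ?_, fun j => ?_, fun S =>
    brody_stratum ?_ S⟩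
  · have h2 := hG₀ (e l)
    beta_reduce at h2
    rwa [he, Equiv.symm_apply_apply] at h2
  · have h2 := hH₀ (e' j)
    beta_reduce at h2
    rwa [he', Equiv.symm_apply_apply] at h2
  · intro f hf hfX hfH
    refine h1 f hf (fun z l => ?_) (fun j => ?_)
    · have h2 := hfX z (e.symm l)
      beta_reduce at h2
      rwa [e.apply_symm_apply] at h2
    · have h2 := hfH (e'.symm j)
      beta_reduce at h2
      rwa [e'.apply_symm_apply] at h2

/-- Seven forms for each system, the other equations belong to the cycle. -/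
def sevenRole (c m s : ℕ) (l : Fin c) : Role 0 0 s m :=
  if h : (l : ℕ) < 7 * s then .system ⟨l / 7, by omega⟩ else .cycle

/-- Seven forms for each system. -/
def sevenBrole (c m s : ℕ) (j : Fin m) : Option (Fin s) :=
  if h : c + (j : ℕ) < 7 * s then some ⟨(c + j) / 7, by omega⟩ else none

lemma sevenRole_system {c m s : ℕ} {l : Fin c} {q : Fin s} :
    sevenRole c m s l = .system q ↔ 7 * (q : ℕ) ≤ l ∧ (l : ℕ) < 7 * q + 7 := by
  unfold sevenRole
  have hq := q.2
  split_ifs with h
  · constructor
    · intro h1
      have h2 := congrArg Fin.val (Role.system.inj h1)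
      simp only at h2
      omega
    · intro h1
      congr 1
      apply Fin.ext
      simp only
      omega
  · constructor
    · intro h1
      exact absurd h1 (by simp)
    · intro h1
      omega

lemma sevenRole_cycle {c m s : ℕ} {l : Fin c} :
    sevenRole c m s l = .cycle ↔ 7 * s ≤ (l : ℕ) := by
  unfold sevenRole
  split_ifs with h
  · constructor
    · intro h1
      exact absurd h1 (by simp)
    · intro h1
      omega
  · constructor
    · intro _
      omega
    · intro _
      rfl

lemma sevenRole_boundary {c m s : ℕ} (l : Fin c) (j : Fin m) :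
    sevenRole c m s l ≠ .boundary j := by
  unfold sevenRole
  split_ifs with h
  · simp
  · simp

lemma sevenBrole_some {c m s : ℕ} {j : Fin m} {q : Fin s} :
    sevenBrole c m s j = some q ↔ 7 * (q : ℕ) ≤ c + j ∧ c + (j : ℕ) < 7 * q + 7 := by
  unfold sevenBrole
  have hq := q.2
  split_ifs with h
  · constructor
    · intro h1
      have h2 := congrArg Fin.val (Option.some.inj h1)
      simp only at h2
      omega
    · intro h1
      congr 1
      apply Fin.ext
      simp only
      omega
  · constructor
    · intro h1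
      exact absurd h1 (by simp)
    · intro h1
      omega

lemma sevenBrole_none {c m s : ℕ} {j : Fin m} :
    sevenBrole c m s j = none ↔ 7 * s ≤ c + (j : ℕ) := by
  unfold sevenBrole
  split_ifs with h
  · constructor
    · intro h1
      exact absurd h1 (by simp)
    · intro h1
      omega
  · constructor
    · intro _
      omega
    · intro _
      rfl

lemma card_seven {c m s : ℕ} (hc : 7 * s ≤ c + m) (q : Fin s) :
    Fintype.card {l : Fin c // sevenRole c m s l = .system q} +
      Fintype.card {j : Fin m // sevenBrole c m s j = some q} = 7 := by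
  have hq := q.2
  have hκ : ∀ l : {l : Fin c // sevenRole c m s l = .system q},
      7 * (q : ℕ) ≤ l.1 ∧ (l.1 : ℕ) < 7 * q + 7 := fun l => sevenRole_system.mp l.2
  have hι : ∀ j : {j : Fin m // sevenBrole c m s j = some q},
      7 * (q : ℕ) ≤ c + j.1 ∧ c + (j.1 : ℕ) < 7 * q + 7 := fun j => sevenBrole_some.mp j.2
  rw [← Fintype.card_sum, ← Fintype.card_fin 7]
  refine Fintype.card_of_bijective (f := Sum.elim
    (fun l => ⟨(l.1 : ℕ) - 7 * q, by have := hκ l; omega⟩)
    (fun j => ⟨c + (j.1 : ℕ) - 7 * q, by have := hι j; omega⟩)) ⟨?_, ?_⟩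
  · rintro (l | j) (l' | j') h
    · have h1 := congrArg Fin.val h
      simp only [Sum.elim_inl] at h1
      have h2 := hκ l
      have h3 := hκ l'
      exact congrArg Sum.inl (Subtype.ext (Fin.ext (by omega)))
    · have h1 := congrArg Fin.val h
      simp only [Sum.elim_inl, Sum.elim_inr] at h1
      have h2 := hκ l
      have h3 := hι j'
      have h4 := l.1.2
      omega
    · have h1 := congrArg Fin.val h
      simp only [Sum.elim_inl, Sum.elim_inr] at h1
      have h2 := hκ l'
      have h3 := hι j
      have h4 := l'.1.2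
      omega
    · have h1 := congrArg Fin.val h
      simp only [Sum.elim_inr] at h1
      have h2 := hι j
      have h3 := hι j'
      exact congrArg Sum.inr (Subtype.ext (Fin.ext (by omega)))
  · intro i
    by_cases h : 7 * (q : ℕ) + i < c
    · refine ⟨Sum.inl ⟨⟨7 * q + i, h⟩, sevenRole_system.mpr ⟨by simp, by
        have := i.2
        simp only
        omega⟩⟩, ?_⟩
      apply Fin.ext
      simp
    · have hi := i.2
      refine ⟨Sum.inr ⟨⟨7 * q + i - c, by omega⟩, sevenBrole_some.mpr ⟨by simp only; omega, by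
        simp only
        omega⟩⟩, ?_⟩
      apply Fin.ext
      simp only [Sum.elim_inr]
      omega

lemma card_rest {c m s : ℕ} :
    c + m - 7 * s ≤ (Finset.univ.filter fun l : Fin c => sevenRole c m s l = .cycle).card +
      (Finset.univ.filter fun j : Fin m => sevenBrole c m s j = none).card := by
  rw [← Fintype.card_subtype, ← Fintype.card_subtype, ← Fintype.card_sum]
  conv_lhs => rw [← Fintype.card_fin (c + m - 7 * s)]
  refine Fintype.card_le_of_injective (fun t : Fin (c + m - 7 * s) =>
    if h : 7 * s + (t : ℕ) < c then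
      Sum.inl ⟨⟨7 * s + t, h⟩, sevenRole_cycle.mpr (by simp)⟩
    else Sum.inr ⟨⟨7 * s + t - c, by omega⟩, sevenBrole_none.mpr (by simp only; omega)⟩) ?_
  intro t t' h
  beta_reduce at h
  split_ifs at h with h1 h2 h2
  · have h3 := congrArg (fun l => (l.1 : ℕ)) (Sum.inl.inj h)
    simp only at h3
    exact Fin.ext (by omega)
  · have h3 := congrArg (fun l => (l.1 : ℕ)) (Sum.inr.inj h)
    simp only at h3
    exact Fin.ext (by omega)

lemma seven_arith {k t N : ℕ} (hn : 3 ≤ k + t) (h : 10 * (k + t) ≤ 3 * N + 11) :
    (k + 1) * t + (k + 1) < (N - 7 * ((k + t) / 3 - 1)) + k * (((k + t) / 3 - 1) * 3) := by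
  set s : ℕ := (k + t) / 3 - 1 with hs
  obtain ⟨e, he, hne⟩ : ∃ e, e < 3 ∧ k + t = 3 + 3 * s + e :=
    ⟨(k + t) % 3, Nat.mod_lt _ (by norm_num), by omega⟩
  obtain ⟨M, hM⟩ : ∃ M, N = 7 * s + M := ⟨N - 7 * s, by omega⟩
  rw [hM, Nat.add_sub_cancel_left]
  have hM2 : 3 * s + 7 + 3 * e ≤ M := by omega
  clear_value s
  by_contra hcon
  push Not at hcon
  have h2 : ((M : ℤ) + k * (s * 3)) ≤ (k + 1) * t + (k + 1) := by exact_mod_cast hcon
  have h3 : (3 * (s : ℤ) + 7 + 3 * e) ≤ M := by exact_mod_cast hM2
  have h4 : (t : ℤ) = 3 + 3 * s + e - k := by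
    have : ((k : ℤ) + t) = 3 + 3 * s + e := by exact_mod_cast hne
    linarith
  rw [h4] at h2
  clear hcon hM2 hne h4 hM h hn hs
  interval_cases e
  · have h5 : ((k : ℤ) - 1) * (k - 2) ≥ 0 := by
      rcases le_or_gt (k : ℤ) 1 with h6 | h6
      · nlinarith
      · have h7 : (2 : ℤ) ≤ k := by omega
        nlinarith
    push_cast at h2 h3
    nlinarith
  · push_cast at h2 h3
    nlinarith [sq_nonneg ((k : ℤ) - 2)]
  · have h5 : ((k : ℤ) - 2) * (k - 3) ≥ 0 := by
      rcases le_or_gt (k : ℤ) 2 with h6 | h6
      · nlinarith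
      · have h7 : (3 : ℤ) ≤ k := by omega
        nlinarith
    push_cast at h2 h3
    nlinarith

/-- **Forms of arbitrary degrees at least two, dimension at least three.** -/
theorem exists_linear {n c m : ℕ} {d : Fin c → ℕ} {δ : Fin m → ℕ} (hd : ∀ l, 2 ≤ d l)
    (hδ : ∀ j, 1 ≤ δ j) (hn : 3 ≤ n) (h : 10 * n ≤ 3 * (c + m) + 11) : OpenHyperbolic n d δ := by
  classical
  set s : ℕ := n / 3 - 1 with hs
  have hcs : 7 * s ≤ c + m := by omega
  refine exists_gluing (a := 0) (b := 0) (s := s) (sevenRole c m s) (sevenBrole c m s)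
    (fun l j hl => absurd hl (sevenRole_boundary l j)) (fun _ => 3)
    (fun l => (hd l).trans' one_le_two) hδ
    (fun l _ => hd l) (fun q => q.elim0) (fun q => q.elim0) (fun q => ?_) ?_
  · -- the systems
    have hcard := card_seven hcs q
    refine exists_system (κ := {l : Fin c // sevenRole c m s l = .system q})
      (ι := {j : Fin m // sevenBrole c m s j = some q}) (d := fun l => d l.1)
      (δ := fun j => δ j.1) (exists_cyclic_pair (fun l => hd _) (fun j => hδ _) ?_)
    rw [hcard]
    omega
  · intro k hk1 hkn _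
    have hrest := card_rest (c := c) (m := m) (s := s)
    set K : ℕ := (Finset.univ.filter fun l : Fin c => sevenRole c m s l = .cycle).card with hK
    set F : Finset (Fin m) := Finset.univ.filter fun j : Fin m => sevenBrole c m s j = none with hF
    obtain ⟨t, rfl⟩ : ∃ t, n = k + t := ⟨n - k, by omega⟩
    have hM : (k + 1) * t + (k + 1) < (K + F.card) + k * (s * 3) := by
      have h1 := seven_arith (k := k) (t := t) (N := c + m) hn h
      rw [← hs] at h1
      omega
    simp only [Nat.add_sub_cancel_left, Finset.sum_const, Finset.card_univ, Fintype.card_fin,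
      smul_eq_mul, mul_zero, zero_add]
    constructor
    · intro S p y u _ hpyu _
      have hB : F.card - S.card ≤ unitCount d δ (sevenRole c m s) (sevenBrole c m s) S := by
        unfold unitCount
        have h1 : (Finset.univ.filter fun j : Fin m => sevenBrole c m s j = none ∧ j ∉ S) =
            F \ S := by
          ext j
          simp [hF]
        rw [h1]
        calc F.card - S.card ≤ (F \ S).card := Finset.le_card_sdiff S F
          _ = ∑ _j ∈ F \ S, 1 := by rw [Finset.sum_const, smul_eq_mul, mul_one]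
          _ ≤ _ := Finset.sum_le_sum fun j _ => by
              have := hδ j
              omega
      set B := unitCount d δ (sevenRole c m s) (sevenBrole c m s) S with hBdef
      have hX : u + B - (k + 1) ≤ k * (u + B - (k + 1)) := Nat.le_mul_of_pos_left _ (by omega)
      unfold cycleCost
      have h1 := le_max_right ((k + 1) * (p + S.card)) (p + S.card + y)
      omega
    · intro hb
      have hF0 : F.card = 0 := by
        rw [Finset.card_eq_zero, Finset.filter_eq_empty_iff]
        exact fun j _ => hb j
      omega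

/-- **Many components.**  Forms of arbitrary degrees at least two and boundary forms of arbitrary
degrees. -/
theorem exists_many {n c m : ℕ} (hn : 1 ≤ n) {d : Fin c → ℕ} {δ : Fin m → ℕ} (hd : ∀ l, 2 ≤ d l)
    (hδ : ∀ j, 1 ≤ δ j) (h1 : 2 * n + 1 ≤ c + m) (h2 : 10 * n ≤ 3 * (c + m) + 11) :
    OpenHyperbolic n d δ := by
  rcases Nat.lt_or_ge n 3 with h | h
  · refine exists_cyclic_pair hd hδ ?_
    interval_cases n
    · omega
    · omega
  · exact exists_linear hd hδ h h2

end Pool.Agent.H62.Chain
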