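import Pool.Agent.H62.Chain.Center

/-!
# Hyperbolic pairs from blocks, cycles and equations assigned to the boundary
-/

open Polynomial Topology Filter

namespace Pool.Agent.H62.Chain

open Pool.Agent.H17 Pool.Agent.H17.EntFun Pool.Agent.H92.GGL Pool.Agent.H79.Log Pool.Agent.H62.Log

variable {n c m a b s : ℕ} {d : Fin c → ℕ} {δ : Fin m → ℕ}

/-- **Hyperbolic strata.** -/
theorem exists_strat (n : ℕ) (role : Fin c → Role a b s m) (brole : Fin m → Option (Fin s))
    (hbd : ∀ l j, role l = .boundary j → brole j = none) (r : Fin s → ℕ)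
    (hd : ∀ l, 1 ≤ d l) (hδ : ∀ j, 1 ≤ δ j) (hcyc : ∀ l, role l = .cycle → 2 ≤ d l)
    (hcurve : ∀ q, 3 ≤ ∑ l with role l = .curve q, (d l - 1))
    (hsurface : ∀ q, 5 ≤ ∑ l with role l = .surface q, (d l - 2))
    (hsystem : ∀ q, ∃ (g : {l // role l = .system q} →
        MvPolynomial (Fin (r q + Fintype.card {l // role l = .system q} + 1)) ℂ)
      (h : {j // brole j = some q} →
        MvPolynomial (Fin (r q + Fintype.card {l // role l = .system q} + 1)) ℂ),
      (∀ l, (g l).IsHomogeneous (d l)) ∧ (∀ j, (h j).IsHomogeneous (δ j)) ∧ StratHyp g h)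
    (hnum : NumCond n d δ role brole r) :
    ∃ (G : Fin c → MvPolynomial (Fin (n + c + 1)) ℂ) (H : Fin m → MvPolynomial (Fin (n + c + 1)) ℂ),
      (∀ l, (G l).IsHomogeneous (d l)) ∧ (∀ j, (H j).IsHomogeneous (δ j)) ∧ StratHyp G H := by
  classical
  obtain ⟨z, hz⟩ := exists_algebraicIndependent (Entry₂ (rk a b r) n (LIdx d δ))
  obtain ⟨Gb, Hb, hGb, hHb, hcert⟩ := exists_cert n c m d hd δ role brole r hcurve hsurface hsystem
    (fun e => z (Sum.inl e))
  obtain ⟨σ, hinj, horb⟩ := exists_cyclic (Vtx role brole)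
  set M : LIdx d δ → Fin (n + 1) → ℂ := fun b k => z (Sum.inr (b, k)) with hM
  set nxt := nxtF role brole hd hδ σ M with hnxt
  set ε : ℕ → ℂ := fun k => 1 / ((k : ℂ) + 1) with hε
  have hε0 : Tendsto ε atTop (𝓝 0) := tendsto_one_div_add_atTop_nhds_zero_nat
  have hev : ∀ᶠ k in atTop, ∀ p : Finset (Fin m) × (∀ j, Fin (δ j)),
      (∀ j ∈ p.1, brole j = none) →
      IncHyp (ClF role hd hδ M nxt Gb p.1 p.2 (ε k)) (IncA role brole hd M Hb p.1)
        (IncB d δ nxt) := by
    rw [eventually_all]
    rintro ⟨S, t⟩
    by_cases hS : ∀ j ∈ S, brole j = none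
    · have h1 := incHyp_of_tendsto (fun k => ClF_isHomogeneous role hd hδ M nxt hGb S t (ε k))
        (ClF_isHomogeneous role hd hδ M nxt hGb S t 0)
        (fun l i => ClF_tendsto role hd hδ M nxt Gb S t hε0 l i)
        (IncA_isHomogeneous role brole hd M hHb S) (IncB_isHomogeneous d δ nxt)
        (incHyp_zero role brole hbd r hd hδ hnum hz σ hinj horb hGb hHb hcert S hS t)
      filter_upwards [h1] with k hk _
      exact hk
    · exact Eventually.of_forall fun k h => absurd h hS
  obtain ⟨k, hk⟩ := hev.exists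
  have hεk : ε k ≠ 0 := by
    simp only [hε]
    exact one_div_ne_zero (by exact_mod_cast Nat.succ_ne_zero k)
  refine ⟨Gf role hd hδ M nxt Gb (ε k), Hf brole M Hb,
    Gf_isHomogeneous role hd hδ M nxt hGb (ε k), Hf_isHomogeneous brole M hHb, ?_⟩
  intro f hf hfX hfH
  obtain ⟨x, hx⟩ := exists_global_lift hf
  have hrel := aeval_eq_zero_of_mem (Gf_isHomogeneous role hd hδ M nxt hGb (ε k)) hx hfX
  have hio := zero_or_ne_of_inOut (Hf_isHomogeneous brole M hHb) hx hfH
  set x' : Fin (n + 1) → EntFun := fun k => x (xIdx k) with hx'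
  have hbdy : ∀ j, brole j = none → MvPolynomial.aeval x (Hf brole M Hb j) =
      ∏ i : Fin (δ j), linE (M (Sum.inl ⟨j, i⟩)) x' := by
    intro j hj
    rw [Hf_none M Hb hj]
    unfold bdForm
    rw [map_prod]
    exact Finset.prod_congr rfl fun i _ => aeval_baseLin _ _
  set S : Finset (Fin m) := Finset.univ.filter fun j =>
    brole j = none ∧ MvPolynomial.aeval x (Hf brole M Hb j) = (0 : EntFun) with hS
  have hSnone : ∀ j ∈ S, brole j = none := fun j hj => (Finset.mem_filter.mp hj).2.1
  have ht : ∀ j, ∃ t : Fin (δ j), j ∈ S → linE (M (Sum.inl ⟨j, t⟩)) x' = 0 := by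
    intro j
    by_cases hj : j ∈ S
    · obtain ⟨h0, h1⟩ := (Finset.mem_filter.mp hj).2
      rw [hbdy j h0] at h1
      obtain ⟨t, -, ht⟩ := Finset.prod_eq_zero_iff.mp h1
      exact ⟨t, fun _ => ht⟩
    · exact ⟨⟨0, hδ j⟩, fun h => absurd h hj⟩
  choose t ht using ht
  -- the factors of the boundary forms which do not vanish identically have no zeros
  have hfac : ∀ j, brole j = none → j ∉ S → ∀ (i : Fin (δ j)) w,
      (linE (M (Sum.inl ⟨j, i⟩)) x' : ℂ → ℂ) w ≠ 0 := by
    intro j hj0 hj i w h0
    have h1 := (hio j).resolve_left fun h => hj (Finset.mem_filter.mpr ⟨Finset.mem_univ _, hj0, h⟩)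
    apply h1 w
    have h2 : ev w (MvPolynomial.aeval x (Hf brole M Hb j)) = 0 := by
      rw [hbdy j hj0, map_prod]
      exact Finset.prod_eq_zero (Finset.mem_univ i) h0
    exact h2
  -- the factors of the assigned equations have no zeros
  have hfac2 : ∀ j, j ∉ S → ∀ l, role l = .boundary j → ∀ (i : Fin (d l)) w,
      ((MvPolynomial.aeval x (factForm M l i) : EntFun) : ℂ → ℂ) w ≠ 0 := by
    intro j hj l hl i w h0
    have h1 := hrel l
    rw [Gf_boundary role hd hδ M nxt Gb (ε k) hl] at h1
    unfold asgForm prodForm at h1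
    rw [map_add, map_prod, map_mul, map_pow, MvPolynomial.aeval_C, aeval_baseLin] at h1
    have h2 := congrArg (ev w) h1
    rw [map_add, map_prod, Finset.prod_eq_zero (Finset.mem_univ i) h0, zero_add, map_mul, map_pow,
      ev_algebraMap, map_zero] at h2
    rcases mul_eq_zero.mp h2 with h3 | h3
    · exact hεk h3
    · exact hfac j (hbd l j hl) hj ⟨0, hδ j⟩ w
        (pow_eq_zero_iff (by have := hd l; omega) |>.mp h3)
  refine hk (S, t) hSnone f hf ?_ ?_
  · -- the closed system
    intro w
    rintro (l | j)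
    · exact hfX w l
    · show VanishesAt (if j ∈ S then baseLin c (M (Sum.inl ⟨j, t j⟩)) else 0) (f w)
      split_ifs with hj
      · rw [vanishesAt_iff_aeval (baseLin_isHomogeneous c _) hx w, aeval_baseLin]
        have h1 := ht j hj
        rw [hx'] at h1
        rw [h1]
        rfl
      · unfold VanishesAt
        rw [map_zero]
  · -- the inclusions
    rw [inc_lift (IncA_isHomogeneous role brole hd M hHb S) (IncB_isHomogeneous d δ nxt) hx]
    rintro (⟨l, bb⟩ | (b' | ⟨l, i⟩) | j)
    · by_cases hl : role l = .cycle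
      · right
        intro w hw
        have h1 := hrel l
        rw [Gf_cycle role hd hδ M nxt Gb (ε k) hl] at h1
        unfold cycForm at h1
        rw [map_add, map_mul, map_mul, map_pow, map_pow, MvPolynomial.aeval_C] at h1
        have h2 := congrArg (ev w) h1
        rw [map_add, map_mul, map_mul, map_pow, map_pow, ev_algebraMap, map_zero] at h2
        have hd2 := hcyc l hl
        have h3 : ev w (MvPolynomial.aeval x (factForm M l ⟨0, hd l⟩)) ^ (d l - 1) *
            ev w (MvPolynomial.aeval x (MvPolynomial.X (wIdx l) +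
              baseLin c (M (Sum.inr ⟨l, ⟨0, hd l⟩⟩)))) = 0 := by
          unfold IncA at hw
          simp only [Sum.elim_inl, if_pos hl] at hw
          cases bb
          · simp only [Bool.false_eq_true, if_false] at hw
            have h4 : ev w (MvPolynomial.aeval x (MvPolynomial.X (wIdx l) +
              baseLin c (M (Sum.inr ⟨l, ⟨0, hd l⟩⟩)))) = 0 := hw
            rw [h4, mul_zero]
          · simp only [if_true] at hw
            have h4 : ev w (MvPolynomial.aeval x (factForm M l ⟨0, hd l⟩)) = 0 := hw
            rw [h4, zero_pow (by omega), zero_mul]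
        rw [h3, zero_add] at h2
        rcases mul_eq_zero.mp h2 with h4 | h4
        · exact absurd h4 hεk
        · unfold IncB
          exact pow_eq_zero_iff (by omega) |>.mp h4
      · left
        unfold IncA
        simp only [Sum.elim_inl, if_neg hl]
        exact map_zero _
    · unfold IncA
      simp only [Sum.elim_inl, Sum.elim_inr]
      split_ifs with hj
      · right
        intro w hw
        rw [aeval_baseLin] at hw
        exact absurd hw (hfac b'.1 hj.1 hj.2 b'.2 w)
      · left
        exact map_zero _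
    · unfold IncA
      simp only [Sum.elim_inl, Sum.elim_inr]
      split_ifs with hj
      · right
        intro w hw
        obtain ⟨j, hj1, hj2⟩ := hj
        exact absurd hw (hfac2 j hj1 l hj2 i w)
      · left
        exact map_zero _
    · unfold IncA
      simp only [Sum.elim_inr]
      split_ifs with hj
      · left
        exact map_zero _
      · rw [← Hf_some M Hb hj]
        rcases hio j with h1 | h1
        · exact Or.inl h1
        · exact Or.inr fun w hw => absurd hw (h1 w)

end Pool.Agent.H62.Chain
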