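import Pool.Agent.H62.Chain.Linear
import Pool.Agent.H17.TwistedForms

/-!
# Gluing without cycles

If no equation belongs to the cycle the numerical condition has to be checked only for lines.
-/

namespace Pool.Agent.H62.Chain

open Pool.Agent.H17 Pool.Agent.H92.GGL Pool.Agent.H79.Log Pool.Agent.H62.Log

/-- The condition for a line implies the conditions for all linear spaces. -/
lemma line_arith {n k A Y U : ℕ} (hk : 1 ≤ k) (hkn : k ≤ n) (h : 2 * n ≤ A + 2 * Y + (U - 2) + 1) :
    (k + 1) * (n - k) < (k + 1) * Y + k * (U - (k + 1)) + k * A := by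
  obtain ⟨t, rfl⟩ : ∃ t, n = k + t := ⟨n - k, by omega⟩
  rw [Nat.add_sub_cancel_left]
  rcases Nat.lt_or_ge k U with h1 | h1
  · obtain ⟨v, rfl⟩ : ∃ v, U = v + (k + 1) := ⟨U - (k + 1), by omega⟩
    rw [Nat.add_sub_cancel_right]
    have h2 : 2 * (k + t) ≤ A + 2 * Y + (v + k) := by omega
    obtain ⟨j, rfl⟩ : ∃ j, k = j + 1 := ⟨k - 1, by omega⟩
    have h3 : (2 * ((j : ℤ) + 1 + t)) ≤ A + 2 * Y + (v + (j + 1)) := by exact_mod_cast h2
    zify
    nlinarith [mul_nonneg (Int.natCast_nonneg j) (Int.natCast_nonneg A),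
      mul_nonneg (Int.natCast_nonneg j) (Int.natCast_nonneg v),
      mul_le_mul_of_nonneg_left h3 (by positivity : (0 : ℤ) ≤ (j : ℤ) + 2)]
  · have h2 : 2 * (k + t) ≤ A + 2 * Y + k := by omega
    have h4 : U - (k + 1) = 0 := by omega
    rw [h4, mul_zero, add_zero]
    obtain ⟨j, rfl⟩ : ∃ j, k = j + 1 := ⟨k - 1, by omega⟩
    have h3 : (2 * ((j : ℤ) + 1 + t)) ≤ A + 2 * Y + (j + 1) := by exact_mod_cast h2
    zify
    nlinarith [mul_nonneg (Int.natCast_nonneg j) (Int.natCast_nonneg A),
      mul_le_mul_of_nonneg_left h3 (by positivity : (0 : ℤ) ≤ (j : ℤ) + 2)]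

/-- **The numerical condition without cycles.** -/
lemma numCond_of_one {n c m a b s : ℕ} {d : Fin c → ℕ} {δ : Fin m → ℕ}
    {role : Fin c → Role a b s m} {brole : Fin m → Option (Fin s)} {r : Fin s → ℕ}
    (hno : ∀ l, role l ≠ .cycle)
    (h : (∃ q, n ≤ r q) ∨ ∀ S : Finset (Fin m), (∀ j ∈ S, brole j = none) →
      2 * n ≤ a + 2 * b + ∑ q, r q + 2 * S.card + (unitCount d δ role brole S - 2) + 1) :
    NumCond n d δ role brole r := by
  intro k hk hkn hq
  have hcyc : (Finset.univ.filter fun l => role l = .cycle).card = 0 := by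
    rw [Finset.card_eq_zero, Finset.filter_eq_empty_iff]
    exact fun l _ => hno l
  rcases h with ⟨q, h⟩ | h
  · exact absurd (hq q) (by omega)
  refine ⟨fun S p y u hS hpyu _ => ?_, fun hb => ?_⟩
  · rw [hcyc] at hpyu
    obtain ⟨rfl, rfl, rfl⟩ : p = 0 ∧ y = 0 ∧ u = 0 := by omega
    have h1 := line_arith (A := a + ∑ q, r q) (Y := b + S.card)
      (U := unitCount d δ role brole S) hk hkn (by have := h S hS; omega)
    have h2 : (k + 1) * (0 + S.card) ≤ max ((k + 1) * (0 + S.card)) (0 + S.card + 0) :=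
      le_max_left _ _
    unfold cycleCost
    simp only [zero_add] at h2 ⊢
    have h3 : (k + 1) * (b + S.card) + k * (unitCount d δ role brole S - (k + 1)) +
        k * (a + ∑ q, r q) = (k + 1) * S.card + k * (unitCount d δ role brole S - (k + 1)) +
          (k * a + (k + 1) * b + k * ∑ q, r q) := by ring
    omega
  · rw [hcyc, Nat.zero_sub, zero_add]
    have h0 : unitCount d δ role brole ∅ = 0 := by
      unfold unitCount
      refine Finset.sum_eq_zero fun j hj => ?_
      exact absurd (Finset.mem_filter.mp hj).2.1 (hb j)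
    have h1 := h ∅ (by simp)
    rw [h0, Finset.card_empty] at h1
    have h2 := line_arith (A := a + ∑ q, r q) (Y := b) (U := 0) hk hkn (by omega)
    have h3 : (k + 1) * b + k * (0 - (k + 1)) + k * (a + ∑ q, r q) =
        k * a + (k + 1) * b + k * ∑ q, r q := by
      rw [Nat.zero_sub]
      ring
    omega

/-- Systems which contain sufficiently many forms of sufficiently large degrees. -/
lemma exists_system_of_codim {n : ℕ} {κ ι : Type} [Fintype κ] {d : κ → ℕ} {δ : ι → ℕ}
    (hd : ∀ l, 1 ≤ d l)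
    (h : n ≤ (Finset.univ.filter fun l => 2 * n + 2 ≤ d l).card ∨
      n + 1 ≤ (Finset.univ.filter fun l => n + 2 ≤ d l).card) :
    ∃ (g : κ → MvPolynomial (Fin (n + Fintype.card κ + 1)) ℂ)
      (h : ι → MvPolynomial (Fin (n + Fintype.card κ + 1)) ℂ),
      (∀ l, (g l).IsHomogeneous (d l)) ∧ (∀ j, (h j).IsHomogeneous (δ j)) ∧
        ∀ S, BrodyHyperbolic (stratum g h S) := by
  classical
  set e := Fintype.equivFin κ with he
  have hcard : ∀ N : ℕ, (Finset.univ.filter fun i => N ≤ d (e.symm i)).card =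
      (Finset.univ.filter fun l => N ≤ d l).card := by
    intro N
    refine Finset.card_bij (fun i _ => e.symm i) (fun i hi => ?_) (fun i _ j _ hij => ?_)
      fun l hl => ⟨e l, ?_, e.symm_apply_apply l⟩
    · exact Finset.mem_filter.mpr ⟨Finset.mem_univ _, (Finset.mem_filter.mp hi).2⟩
    · exact e.symm.injective hij
    · refine Finset.mem_filter.mpr ⟨Finset.mem_univ _, ?_⟩
      rw [e.symm_apply_apply]
      exact (Finset.mem_filter.mp hl).2
  obtain ⟨G, hG, hb⟩ := exists_brody_twisted n (Fintype.card κ) (fun i => d (e.symm i))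
    (fun i => hd _) (by rwa [hcard, hcard])
  refine ⟨fun l => G (e l), fun j => MvPolynomial.X 0 ^ δ j, fun l => ?_, fun j => ?_,
    fun S f hf hfS => ?_⟩
  · have h2 := hG (e l)
    beta_reduce at h2
    rwa [e.symm_apply_apply] at h2
  · have h1 := (MvPolynomial.isHomogeneous_X ℂ (0 : Fin (n + Fintype.card κ + 1))).pow (δ j)
    rwa [one_mul] at h1
  · refine hb f hf fun z l => ?_
    have h2 := (hfS z).1 (e.symm l)
    beta_reduce at h2
    rwa [e.apply_symm_apply] at h2

end Pool.Agent.H62.Chain
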