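import Pool.Agent.H79.Log.StratCross

/-!
# Reduced bases of subspaces
-/

namespace Pool.Agent.H62.Chain

/-- A subspace has a basis in reduced form. -/
lemma exists_pivot {n k : ℕ} (W : Submodule ℂ (Fin (n + 1) → ℂ))
    (hW : Module.finrank ℂ W = k + 1) :
    ∃ (p : Fin (k + 1) → Fin (n + 1)) (R : Fin (k + 1) → Fin (n + 1) → ℂ),
      Function.Injective p ∧ (∀ a, R a ∈ W) ∧ (∀ a b, R a (p b) = if a = b then 1 else 0) ∧
      ∀ v ∈ W, v = ∑ a, v (p a) • R a := by
  classical
  set φ : Fin (n + 1) → Module.Dual ℂ W := fun j => (LinearMap.proj j).comp W.subtype with hφ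
  have hφa : ∀ j (v : W), φ j v = v.1 j := fun j v => rfl
  have hspan : Submodule.span ℂ (Set.range φ) = ⊤ := by
    by_contra hcon
    obtain ⟨g, hg0, hg⟩ := Submodule.exists_le_ker_of_lt_top _ (lt_top_iff_ne_top.mpr hcon)
    apply hg0
    set v : W := (Module.evalEquiv ℂ W).symm g with hv
    have h1 : ∀ j, v.1 j = 0 := by
      intro j
      have h2 : g (φ j) = 0 := hg (Submodule.subset_span ⟨j, rfl⟩)
      rw [← hφa, hv, Module.apply_evalEquiv_symm_apply]
      exact h2
    have h3 : v = 0 := Subtype.ext (funext h1)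
    rw [hv] at h3
    exact (LinearEquiv.map_eq_zero_iff _).mp h3
  have hfr : Module.finrank ℂ (Submodule.span ℂ (Set.range φ)) = k + 1 := by
    rw [hspan, finrank_top, Subspace.dual_finrank_eq, hW]
  obtain ⟨f, hf1, hf2, -⟩ := Submodule.exists_fun_fin_finrank_span_eq ℂ (Set.range φ)
  set e : Fin (k + 1) ≃ Fin (Module.finrank ℂ (Submodule.span ℂ (Set.range φ))) :=
    finCongr hfr.symm with he
  choose p₀ hp₀ using hf1
  set p : Fin (k + 1) → Fin (n + 1) := fun a => p₀ (e a) with hp
  have hφp : ∀ a, φ (p a) = f (e a) := fun a => hp₀ (e a)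
  set ψ : W →ₗ[ℂ] (Fin (k + 1) → ℂ) := LinearMap.pi fun a => φ (p a) with hψ
  have hinj : Function.Injective ψ := by
    rw [← LinearMap.ker_eq_bot, LinearMap.ker_eq_bot']
    intro v hv
    have h1 : ∀ i, f i v = 0 := by
      intro i
      have h2 := congrFun hv (e.symm i)
      rw [hψ, LinearMap.pi_apply, hφp, Equiv.apply_symm_apply] at h2
      exact h2
    have h3 : ∀ g ∈ Submodule.span ℂ (Set.range f), g v = 0 := by
      intro g hg
      induction hg using Submodule.span_induction with
      | mem g hg =>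
        obtain ⟨i, rfl⟩ := hg
        exact h1 i
      | zero => rfl
      | add g g' _ _ h4 h5 => rw [LinearMap.add_apply, h4, h5, add_zero]
      | smul a g _ h4 => rw [LinearMap.smul_apply, h4, smul_zero]
    rw [hf2, hspan] at h3
    apply Subtype.ext
    funext j
    exact h3 (φ j) Submodule.mem_top
  have hsurj : Function.Surjective ψ := by
    rw [← LinearMap.injective_iff_surjective_of_finrank_eq_finrank]
    · exact hinj
    · rw [hW, Module.finrank_fin_fun]
  choose R₀ hR₀ using fun a : Fin (k + 1) => hsurj (Pi.single a 1)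
  have hRp : ∀ a b, (R₀ a).1 (p b) = if a = b then 1 else 0 := by
    intro a b
    have h1 := congrFun (hR₀ a) b
    rw [hψ, LinearMap.pi_apply, hφa] at h1
    rw [h1, Pi.single_apply]
    by_cases h : a = b
    · rw [if_pos h, if_pos h.symm]
    · rw [if_neg h, if_neg fun h2 => h h2.symm]
  refine ⟨p, fun a => (R₀ a).1, ?_, fun a => (R₀ a).2, hRp, ?_⟩
  · intro a b hab
    by_contra hne
    have h1 := hRp a b
    rw [if_neg hne, ← hab, hRp, if_pos rfl] at h1
    exact one_ne_zero h1
  · intro v hv
    have h1 : (⟨v, hv⟩ : W) = ∑ a, v (p a) • R₀ a := by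
      apply hinj
      rw [map_sum]
      funext b
      rw [Finset.sum_apply]
      have h2 : ∀ a, (ψ (v (p a) • R₀ a)) b = if a = b then v (p a) else 0 := by
        intro a
        rw [map_smul, Pi.smul_apply, smul_eq_mul, hψ, LinearMap.pi_apply, hφa, hRp]
        split_ifs <;> simp
      rw [Finset.sum_congr rfl fun a _ => h2 a, Finset.sum_ite_eq' Finset.univ b,
        if_pos (Finset.mem_univ b)]
      rfl
    have h2 := congrArg Subtype.val h1
    rw [Submodule.coe_sum] at h2
    exact h2

end Pool.Agent.H62.Chain
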